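import Mathlib
import Pool.Agent.R183.HoleGame
import Pool.Agent.R183.HoleGeom

/-!
# The bichromatic 5-hole game: common definitions
-/

set_option autoImplicit false

namespace Pool.Agent.T2H87.K5

open Pool.Agent.R183.HoleGame

/-- the determinant of two vectors -/
def dt (u w : Pt) : ℝ := u.1 * w.2 - u.2 * w.1

theorem cr_eq_dt (p q x : Pt) : cr p q x = dt (q - p) (x - p) := by
  unfold cr dt; simp

theorem dt_swap (u w : Pt) : dt w u = - dt u w := by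
  unfold dt; ring

theorem dt_self (u : Pt) : dt u u = 0 := by
  unfold dt; ring

/-- the midpoint of `q` and `e` -/
noncomputable def mid (q e : Pt) : Pt := (1 / 2 : ℝ) • (q + e)

theorem mid_fst (q e : Pt) : (mid q e).1 = (q.1 + e.1) / 2 := by
  unfold mid; simp; ring

theorem mid_snd (q e : Pt) : (mid q e).2 = (q.2 + e.2) / 2 := by
  unfold mid; simp; ring

/-- different pairs of points of `E` span different directions -/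
def Slopes (E : Finset Pt) : Prop :=
  ∀ e₁ ∈ E, ∀ e₂ ∈ E, ∀ e₃ ∈ E, ∀ e₄ ∈ E, e₁ ≠ e₂ → e₃ ≠ e₄ → dt (e₁ - e₂) (e₃ - e₄) = 0 →
    (e₁ = e₃ ∧ e₂ = e₄) ∨ (e₁ = e₄ ∧ e₂ = e₃)

/-- the point `q` is generic with respect to the placed points `P` and the columns `E` -/
structure GoodRow (E P : Finset Pt) (q : Pt) : Prop where
  legal : ∀ e ∈ E, mid q e ∉ P ∧ ∀ x ∈ P, ∀ y ∈ P, x ≠ y → cr x y (mid q e) ≠ 0
  pair : ∀ z ∈ P, ∀ e ∈ E, ∀ e' ∈ E, e ≠ e' → cr z (mid q e) (mid q e') ≠ 0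
  triple : ∀ z₁ ∈ P, ∀ z₂ ∈ P, ∀ z₃ ∈ P, z₁ ≠ z₂ → z₁ ≠ z₃ → z₂ ≠ z₃ →
    ∀ e₁ ∈ E, ∀ e₂ ∈ E, ∀ e₃ ∈ E, e₁ ≠ e₂ → e₁ ≠ e₃ → e₂ ≠ e₃ →
    ¬ (dt (z₁ - z₂) (e₁ - e₂) = 0 ∧ dt (z₂ - z₃) (e₂ - e₃) = 0 ∧ dt (z₁ - z₃) (e₁ - e₃) = 0) →
    ¬ ∃ w : Pt, cr z₁ (mid q e₁) w = 0 ∧ cr z₂ (mid q e₂) w = 0 ∧ cr z₃ (mid q e₃) w = 0

end Pool.Agent.T2H87.K5
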