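import Pool.Agent.T2H87.K5.Basic

/-!
# Lines: small lemmas
-/

set_option autoImplicit false

namespace Pool.Agent.T2H87.K5

open Pool.Agent.R183.HoleGame Filter Topology

theorem two_lines {p q q' x : Pt} (h1 : cr p q x = 0) (h2 : cr p q' x = 0)
    (h : cr p q q' ≠ 0) : x = p := by
  unfold cr at h1 h2 h
  have e1 : (x.1 - p.1) * ((q.1 - p.1) * (q'.2 - p.2) - (q.2 - p.2) * (q'.1 - p.1)) = 0 := by
    linear_combination (q'.1 - p.1) * h1 - (q.1 - p.1) * h2
  have e2 : (x.2 - p.2) * ((q.1 - p.1) * (q'.2 - p.2) - (q.2 - p.2) * (q'.1 - p.1)) = 0 := by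
    linear_combination (q'.2 - p.2) * h1 - (q.2 - p.2) * h2
  have h3 := (mul_eq_zero.1 e1).resolve_right h
  have h4 := (mul_eq_zero.1 e2).resolve_right h
  exact Prod.ext (by linarith) (by linarith)

theorem cr_swap12 (p q x : Pt) : cr q p x = - cr p q x := by unfold cr; ring

theorem cr_cyc (p q x : Pt) : cr q x p = cr p q x := by unfold cr; ring

/-- a point of the line through `L` and `R` -/
theorem cr_line (L R : Pt) (t : ℝ) : cr L R (L + t • (R - L)) = 0 := by
  unfold cr; simp; ring

/-- legality of points close to `a` on the line `L R` -/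
theorem line_legal (P : Finset Pt) (hg : GenPos P) (L R a : Pt) (α : ℝ) (hLR : L ≠ R)
    (haP : a ∈ P) (hα1 : α < 1) (ha : a = L + α • (R - L))
    (halive : ∀ x ∈ P, x ≠ a → cr L R x ≠ 0) :
    ∀ᶠ t : ℝ in 𝓝[>] 0, (a + t • (R - a) ∉ P) ∧
      ∀ p ∈ P, ∀ q ∈ P, p ≠ q → cr p q (a + t • (R - a)) ≠ 0 := by
  have haR : R ≠ a := by
    intro hRa
    have h1 : (1 - α) • (R - L) = 0 := by
      have : R - L = α • (R - L) := by
        nth_rewrite 1 [hRa, ha]; simp
      rw [sub_smul, one_smul]
      nth_rewrite 1 [this]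
      simp
    rcases smul_eq_zero.1 h1 with h2 | h2
    · linarith
    · exact hLR (sub_eq_zero.1 h2).symm
  have hcrR : ∀ x ∈ P, x ≠ a → cr a x R ≠ 0 := by
    intro x hx hxa h0
    apply halive x hx hxa
    have h1 : cr a x R = -(1 - α) * cr L R x := by
      rw [ha]; unfold cr; simp; ring
    rw [h1] at h0
    rcases mul_eq_zero.1 h0 with h2 | h2
    · linarith
    · exact h2
  have h1 : ∀ᶠ t : ℝ in 𝓝[>] 0, ∀ p ∈ P, ∀ q ∈ P, p ≠ q → cr p q (a + t • (R - a)) ≠ 0 := by
    rw [Filter.eventually_all_finset]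
    intro p hp
    rw [Filter.eventually_all_finset]
    intro q hq
    by_cases hpq : p = q
    · exact Eventually.of_forall fun _ h => absurd hpq h
    have hform : ∀ t : ℝ, cr p q (a + t • (R - a)) = cr p q a + t * (cr p q R - cr p q a) := by
      intro t
      unfold cr; simp; ring
    by_cases hpa : p = a
    · subst hpa
      have hne := hcrR q hq (Ne.symm hpq)
      filter_upwards [self_mem_nhdsWithin] with t ht _
      have ht' : (0 : ℝ) < t := ht
      rw [hform, cr_mid, zero_add, sub_zero]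
      exact mul_ne_zero ht'.ne' hne
    by_cases hqa : q = a
    · subst hqa
      have hne := hcrR p hp hpq
      filter_upwards [self_mem_nhdsWithin] with t ht _
      have ht' : (0 : ℝ) < t := ht
      rw [hform, cr_right, zero_add, sub_zero, cr_swap12]
      exact mul_ne_zero ht'.ne' (neg_ne_zero.2 hne)
    · have hne : cr p q a ≠ 0 := hg.cr_ne hp hq haP hpq hpa hqa
      have hcont : Continuous fun t : ℝ => cr p q a + t * (cr p q R - cr p q a) := by fun_prop
      have : ∀ᶠ t : ℝ in 𝓝 0, cr p q a + t * (cr p q R - cr p q a) ≠ 0 := by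
        apply hcont.continuousAt.eventually_ne
        simpa using hne
      filter_upwards [this.filter_mono nhdsWithin_le_nhds] with t ht _
      rw [hform]
      exact ht
  have h2 : ∀ᶠ t : ℝ in 𝓝[>] 0, ∀ p ∈ P, a + t • (R - a) ≠ p := by
    rw [Filter.eventually_all_finset]
    intro p hp
    by_cases hpa : p = a
    · subst hpa
      filter_upwards [self_mem_nhdsWithin] with t ht h
      have ht' : (0 : ℝ) < t := ht
      have h3 : t • (R - p) = 0 := by simpa using h
      rcases smul_eq_zero.1 h3 with h4 | h4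
      · exact ht'.ne' h4
      · exact haR (sub_eq_zero.1 h4)
    · have hcont : Continuous fun t : ℝ => a + t • (R - a) := by fun_prop
      have : ∀ᶠ t : ℝ in 𝓝 0, a + t • (R - a) ≠ p := by
        apply hcont.continuousAt.eventually_ne
        simpa using Ne.symm hpa
      exact this.filter_mono nhdsWithin_le_nhds
  filter_upwards [h1, h2] with t h3 h4
  exact ⟨fun h => h4 _ h rfl, h3⟩

/-- two completed points protect the end of the line -/
theorem protect {P' : Finset Pt} (hg : GenPos P') {Li Rj x y r : Pt} {α β : ℝ} (hLR : Li ≠ Rj)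
    (hαβ : α < β) (hβ : β < 1) (hx : x = Li + α • (Rj - Li)) (hy : y = Li + β • (Rj - Li))
    (hxP : x ∈ P') (hyP : y ∈ P') (hr : r ∈ P') : r ≠ Rj := by
  rintro rfl
  have hsub : r - Li ≠ 0 := sub_ne_zero.2 hLR.symm
  have h1 : x ≠ y := by
    intro hxy
    have : (β - α) • (r - Li) = 0 := by
      have h3 : Li + β • (r - Li) - (Li + α • (r - Li)) = 0 := by
        rw [← hx, ← hy, hxy]; simp
      rw [sub_smul]
      simpa using h3
    rcases smul_eq_zero.1 this with h4 | h4
    · linarith
    · exact hsub h4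
  have h2 : ∀ γ : ℝ, γ < 1 → Li + γ • (r - Li) ≠ r := by
    intro γ hγ heq
    have : (1 - γ) • (r - Li) = 0 := by
      have h3 : r - (Li + γ • (r - Li)) = 0 := by rw [heq]; simp
      rw [sub_smul, one_smul]
      rw [← h3]; abel
    rcases smul_eq_zero.1 this with h4 | h4
    · linarith
    · exact hsub h4
  apply hg.cr_ne hxP hyP hr h1 (hx ▸ h2 α (by linarith)) (hy ▸ h2 β hβ)
  rw [hx, hy]
  unfold cr; simp; ring

end Pool.Agent.T2H87.K5
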