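import Pool.Agent.T2H87.K5.Fin5
import Pool.Agent.T2H87.K5.Lines

/-!
# Raising the columns
-/

set_option autoImplicit false
set_option linter.unusedSectionVars false
set_option linter.unusedVariables false

namespace Pool.Agent.T2H87.K5

open Pool.Agent.R183.HoleGame Filter Topology

/-! ### Stability of empty triple intersections -/

theorem tri_near (u d a q x : Pt) (h : x ∈ convexHull ℝ ({d, a, q} : Set Pt)) :
    Metric.infDist x (convexHull ℝ ({u, a, q} : Set Pt)) ≤ dist d u := by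
  obtain ⟨α, β, hα, hβ, hs, rfl⟩ := tri_mem d a q x h
  have hy : (1 - α - β) • u + α • a + β • q ∈ convexHull ℝ ({u, a, q} : Set Pt) := by
    have h1 : u ∈ convexHull ℝ ({u, a, q} : Set Pt) := subset_convexHull ℝ _ (by simp)
    have h2 : a ∈ convexHull ℝ ({u, a, q} : Set Pt) := subset_convexHull ℝ _ (by simp)
    have h3 : q ∈ convexHull ℝ ({u, a, q} : Set Pt) := subset_convexHull ℝ _ (by simp)
    have hc := convex_convexHull ℝ ({u, a, q} : Set Pt)
    have := hc.sum_mem (t := (Finset.univ : Finset (Fin 3))) (w := ![1 - α - β, α, β])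
      (z := ![u, a, q]) (by
        intro i _
        fin_cases i
        · show 0 ≤ 1 - α - β
          linarith
        · exact hα
        · exact hβ) (by
        rw [Fin.sum_univ_three]
        show 1 - α - β + α + β = 1
        ring) (by
        intro i _
        fin_cases i
        · exact h1
        · exact h2
        · exact h3)
    rw [Fin.sum_univ_three] at this
    exact this
  refine (Metric.infDist_le_dist_of_mem hy).trans ?_
  rw [dist_eq_norm, dist_eq_norm]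
  have : d + α • (a - d) + β • (q - d) - ((1 - α - β) • u + α • a + β • q) =
      (1 - α - β) • (d - u) := by
    simp only [smul_sub, sub_smul, one_smul]; abel
  rw [this, norm_smul, Real.norm_eq_abs, abs_of_nonneg (by linarith)]
  have := norm_nonneg (d - u)
  nlinarith

theorem three_stable (K₁ K₂ K₃ : Set Pt) (h1 : IsCompact K₁) (h2 : IsCompact K₂)
    (h3 : IsCompact K₃) (n1 : K₁.Nonempty) (n2 : K₂.Nonempty) (n3 : K₃.Nonempty)
    (h : ∀ x, x ∈ K₁ → x ∈ K₂ → x ∉ K₃) :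
    ∃ δ : ℝ, 0 < δ ∧ ∀ x : Pt, Metric.infDist x K₁ < δ → Metric.infDist x K₂ < δ →
      ¬ Metric.infDist x K₃ < δ := by
  have hS : IsCompact (Metric.cthickening 1 K₁) := h1.cthickening
  have hSn : (Metric.cthickening 1 K₁).Nonempty :=
    n1.mono (Metric.self_subset_cthickening _)
  have hcont : Continuous fun x : Pt =>
      Metric.infDist x K₁ + Metric.infDist x K₂ + Metric.infDist x K₃ :=
    ((Metric.continuous_infDist_pt K₁).add (Metric.continuous_infDist_pt K₂)).add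
      (Metric.continuous_infDist_pt K₃)
  obtain ⟨x₀, _, hmin⟩ := hS.exists_isMinOn hSn hcont.continuousOn
  have p1 : ∀ x, 0 ≤ Metric.infDist x K₁ := fun x => Metric.infDist_nonneg
  have p2 : ∀ x, 0 ≤ Metric.infDist x K₂ := fun x => Metric.infDist_nonneg
  have p3 : ∀ x, 0 ≤ Metric.infDist x K₃ := fun x => Metric.infDist_nonneg
  have hpos : 0 < Metric.infDist x₀ K₁ + Metric.infDist x₀ K₂ + Metric.infDist x₀ K₃ := by
    rcases (add_nonneg (add_nonneg (p1 x₀) (p2 x₀)) (p3 x₀)).lt_or_eq with h4 | h4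
    · exact h4
    · exfalso
      have e1 : Metric.infDist x₀ K₁ = 0 := by linarith [p1 x₀, p2 x₀, p3 x₀]
      have e2 : Metric.infDist x₀ K₂ = 0 := by linarith [p1 x₀, p2 x₀, p3 x₀]
      have e3 : Metric.infDist x₀ K₃ = 0 := by linarith [p1 x₀, p2 x₀, p3 x₀]
      exact h x₀ ((h1.isClosed.mem_iff_infDist_zero n1).2 e1)
        ((h2.isClosed.mem_iff_infDist_zero n2).2 e2) ((h3.isClosed.mem_iff_infDist_zero n3).2 e3)
  refine ⟨min 1 ((Metric.infDist x₀ K₁ + Metric.infDist x₀ K₂ + Metric.infDist x₀ K₃) / 3),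
    lt_min one_pos (by positivity), ?_⟩
  intro x hx1 hx2 hx3
  have hxS : x ∈ Metric.cthickening 1 K₁ := by
    apply Metric.thickening_subset_cthickening
    rw [Metric.mem_thickening_iff_infDist_lt n1]
    exact hx1.trans_le (min_le_left _ _)
  have := hmin hxS
  simp only [Set.mem_ofPred_eq] at this
  have g1 := hx1.trans_le (min_le_right _ _)
  have g2 := hx2.trans_le (min_le_right _ _)
  have g3 := hx3.trans_le (min_le_right _ _)
  linarith

/-! ### The filter of small perturbations -/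

section

variable {ι κ : Type} [DecidableEq ι] [DecidableEq κ]

/-- choices of points close to the points `L i`, `i ∈ I` -/
def Fn (I : Finset ι) (L : ι → Pt) : Filter (ι → Pt) :=
  comap (fun (c : ι → Pt) (i : I) => c i) (𝓝 fun i : I => L i)

theorem Fn_tendsto (I : Finset ι) (L : ι → Pt) (i : ι) (hi : i ∈ I) :
    Tendsto (fun c : ι → Pt => c i) (Fn I L) (𝓝 (L i)) := by
  have h1 : Tendsto (fun (c : ι → Pt) (i : I) => c i) (Fn I L) (𝓝 fun i : I => L i) :=
    tendsto_comap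
  have h2 := (continuous_apply (⟨i, hi⟩ : I)).tendsto (fun i : I => L i)
  exact h2.comp h1

theorem Fn_extract (I : Finset ι) (L : ι → Pt) (φ : (ι → Pt) → Prop) (h : ∀ᶠ c in Fn I L, φ c) :
    ∃ ε : ℝ, 0 < ε ∧ ∀ c : ι → Pt, (∀ i ∈ I, dist (c i) (L i) < ε) → φ c := by
  unfold Fn at h
  rw [Filter.eventually_comap, Metric.eventually_nhds_iff] at h
  obtain ⟨ε, hε, h⟩ := h
  refine ⟨ε, hε, fun c hc => ?_⟩
  refine h (y := fun i : I => c i) ?_ c rfl
  rw [dist_pi_lt_iff hε]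
  intro i
  exact hc i i.2

theorem Fn_pos (I : Finset ι) (L : ι → Pt) (i i' : ι) (hi : i ∈ I) (hi' : i' ∈ I)
    (f : Pt × Pt → ℝ) (hf : Continuous f) (h : 0 < f (L i, L i')) :
    ∀ᶠ c in Fn I L, 0 < f (c i, c i') := by
  have h1 := (Fn_tendsto I L i hi).prodMk_nhds (Fn_tendsto I L i' hi')
  have h2 := (hf.tendsto (L i, L i')).comp h1
  exact h2.eventually_const_lt h

/-- static data of the phase -/
structure CHost (v : Pt) (I : Finset ι) (J : Finset κ) (L : ι → Pt) (R : κ → Pt)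
    (E : Finset (ι × κ)) (a b : ι × κ → Pt) : Prop where
  hE : E ⊆ I ×ˢ J
  hv : ∀ i ∈ I, ∀ j ∈ J, 0 < dt (R j - L i) v
  ha : ∀ e ∈ E, ∃ α β : ℝ, 0 < α ∧ α < β ∧ β < 1 ∧
      a e = L e.1 + α • (R e.2 - L e.1) ∧ b e = L e.1 + β • (R e.2 - L e.1)
  hrow : ∀ j ∈ J, ∀ i ∈ I, ∀ i' ∈ I, i ≠ i' → cr (R j) (L i) (L i') ≠ 0
  hcol : ∀ i ∈ I, ∀ j ∈ J, ∀ j' ∈ J, j ≠ j' → cr (L i) (R j) (R j') ≠ 0
  htri : ∀ e₁ ∈ E, ∀ e₂ ∈ E, ∀ e₃ ∈ E, e₁ ≠ e₂ → e₁ ≠ e₃ → e₂ ≠ e₃ →
      ¬ (e₁.1 = e₂.1 ∧ e₂.1 = e₃.1) → ¬ (e₁.2 = e₂.2 ∧ e₂.2 = e₃.2) →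
      ¬ ∃ x : Pt, cr (L e₁.1) (R e₁.2) x = 0 ∧ cr (L e₂.1) (R e₂.2) x = 0 ∧
        cr (L e₃.1) (R e₃.2) x = 0

/-- the points `c i` are close enough to the points `L i` -/
structure Close (I : Finset ι) (R : κ → Pt) (E : Finset (ι × κ)) (a : ι × κ → Pt)
    (c : ι → Pt) : Prop where
  ca : ∀ e₁ ∈ E, ∀ e₂ ∈ E, ∀ e₃ ∈ E, e₁ ≠ e₂ → e₁ ≠ e₃ → e₂ ≠ e₃ →
      ¬ (e₁.1 = e₂.1 ∧ e₂.1 = e₃.1) → ¬ (e₁.2 = e₂.2 ∧ e₂.2 = e₃.2) →
      ∀ x, x ∈ convexHull ℝ ({c e₁.1, a e₁, R e₁.2} : Set Pt) →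
        x ∈ convexHull ℝ ({c e₂.1, a e₂, R e₂.2} : Set Pt) →
        x ∉ convexHull ℝ ({c e₃.1, a e₃, R e₃.2} : Set Pt)
  cb : ∀ e ∈ E, ∀ e' ∈ E, e.1 = e'.1 → e ≠ e' → ∃ σ : ℝ, 0 < σ * cr (c e.1) (a e) (a e') ∧
      0 < σ * cr (c e.1) (a e) (R e'.2) ∧ 0 < σ * cr (c e.1) (R e.2) (a e') ∧
      0 < σ * cr (c e.1) (R e.2) (R e'.2)
  cc : ∀ e ∈ E, ∀ e' ∈ E, e.2 = e'.2 → e ≠ e' → ∃ σ : ℝ, 0 < σ * cr (R e.2) (a e) (a e') ∧
      0 < σ * cr (R e.2) (a e) (c e'.1) ∧ 0 < σ * cr (R e.2) (c e.1) (a e') ∧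
      0 < σ * cr (R e.2) (c e.1) (c e'.1)
  cd : ∀ i ∈ I, ∀ e ∈ E, e.1 ≠ i → c i ∉ convexHull ℝ ({c e.1, a e, R e.2} : Set Pt)

variable {v : Pt} {I : Finset ι} {J : Finset κ} {L : ι → Pt} {R : κ → Pt} {E : Finset (ι × κ)}
  {a b : ι × κ → Pt}

theorem CHost.seg (h : CHost v I J L R E a b) {e : ι × κ} (he : e ∈ E) {x : Pt}
    (hx : x ∈ convexHull ℝ ({L e.1, a e, R e.2} : Set Pt)) : cr (L e.1) (R e.2) x = 0 := by
  obtain ⟨α, β, _, _, _, h1, _⟩ := h.ha e he
  have hsub : convexHull ℝ ({L e.1, a e, R e.2} : Set Pt) ⊆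
      {x : Pt | cr (L e.1) (R e.2) x = 0} := by
    apply convexHull_min _ (convex_line _ _)
    rintro y (rfl | rfl | rfl)
    · exact cr_mid _ _
    · show cr (L e.1) (R e.2) (a e) = 0
      rw [h1]; exact cr_line _ _ _
    · exact cr_right _ _
  exact hsub hx

theorem tri_compact (p q r : Pt) : IsCompact (convexHull ℝ ({p, q, r} : Set Pt)) :=
  Set.Finite.isCompact_convexHull ℝ (by simp)

theorem tri_nonempty (p q r : Pt) : (convexHull ℝ ({p, q, r} : Set Pt)).Nonempty :=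
  ⟨p, subset_convexHull ℝ _ (by simp)⟩

theorem CHost.close (h : CHost v I J L R E a b) : ∀ᶠ c in Fn I L, Close I R E a c := by
  have hI : ∀ e ∈ E, e.1 ∈ I := fun e he => (Finset.mem_product.1 (h.hE he)).1
  have hJ : ∀ e ∈ E, e.2 ∈ J := fun e he => (Finset.mem_product.1 (h.hE he)).2
  have hd : ∀ i ∈ I, ∀ δ : ℝ, 0 < δ → ∀ᶠ c in Fn I L, dist (c i) (L i) < δ := by
    intro i hi δ hδ
    exact Metric.tendsto_nhds.1 (Fn_tendsto I L i hi) δ hδ
  have Ha : ∀ᶠ c in Fn I L, ∀ e₁ ∈ E, ∀ e₂ ∈ E, ∀ e₃ ∈ E, e₁ ≠ e₂ → e₁ ≠ e₃ → e₂ ≠ e₃ →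
      ¬ (e₁.1 = e₂.1 ∧ e₂.1 = e₃.1) → ¬ (e₁.2 = e₂.2 ∧ e₂.2 = e₃.2) →
      ∀ x, x ∈ convexHull ℝ ({c e₁.1, a e₁, R e₁.2} : Set Pt) →
        x ∈ convexHull ℝ ({c e₂.1, a e₂, R e₂.2} : Set Pt) →
        x ∉ convexHull ℝ ({c e₃.1, a e₃, R e₃.2} : Set Pt) := by
    rw [Filter.eventually_all_finset]
    intro e₁ he1
    rw [Filter.eventually_all_finset]
    intro e₂ he2
    rw [Filter.eventually_all_finset]
    intro e₃ he3
    by_cases hc : e₁ ≠ e₂ ∧ e₁ ≠ e₃ ∧ e₂ ≠ e₃ ∧ ¬ (e₁.1 = e₂.1 ∧ e₂.1 = e₃.1) ∧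
      ¬ (e₁.2 = e₂.2 ∧ e₂.2 = e₃.2)
    · obtain ⟨c1, c2, c3, c4, c5⟩ := hc
      have h0 := h.htri e₁ he1 e₂ he2 e₃ he3 c1 c2 c3 c4 c5
      obtain ⟨δ, hδ, hδ'⟩ := three_stable _ _ _ (tri_compact (L e₁.1) (a e₁) (R e₁.2))
        (tri_compact (L e₂.1) (a e₂) (R e₂.2)) (tri_compact (L e₃.1) (a e₃) (R e₃.2))
        (tri_nonempty _ _ _) (tri_nonempty _ _ _) (tri_nonempty _ _ _)
        (fun x x1 x2 x3 => h0 ⟨x, h.seg he1 x1, h.seg he2 x2, h.seg he3 x3⟩)
      filter_upwards [hd _ (hI _ he1) δ hδ, hd _ (hI _ he2) δ hδ, hd _ (hI _ he3) δ hδ]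
        with c d1 d2 d3 _ _ _ _ _ x x1 x2 x3
      exact hδ' x ((tri_near _ _ _ _ _ x1).trans_lt d1) ((tri_near _ _ _ _ _ x2).trans_lt d2)
        ((tri_near _ _ _ _ _ x3).trans_lt d3)
    · exact Eventually.of_forall fun c h1 h2 h3 h4 h5 => absurd ⟨h1, h2, h3, h4, h5⟩ hc
  have Hd : ∀ᶠ c in Fn I L, ∀ i ∈ I, ∀ e ∈ E, e.1 ≠ i →
      c i ∉ convexHull ℝ ({c e.1, a e, R e.2} : Set Pt) := by
    rw [Filter.eventually_all_finset]
    intro i hi
    rw [Filter.eventually_all_finset]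
    intro e he
    by_cases hc : e.1 = i
    · exact Eventually.of_forall fun c h1 => absurd hc h1
    · have h0 := h.hrow e.2 (hJ e he) e.1 (hI e he) i hi hc
      obtain ⟨δ, hδ, hδ'⟩ := three_stable {L i} {L i} _ isCompact_singleton isCompact_singleton
        (tri_compact (L e.1) (a e) (R e.2)) (Set.singleton_nonempty _) (Set.singleton_nonempty _)
        (tri_nonempty _ _ _) (fun x x1 x2 x3 => by
          rw [Set.mem_singleton_iff] at x1
          subst x1
          apply h0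
          rw [cr_swap12, h.seg he x3, neg_zero])
      filter_upwards [hd _ hi δ hδ, hd _ (hI _ he) δ hδ] with c d1 d2 _ hx
      apply hδ' (c i) (by rwa [Metric.infDist_singleton]) (by rwa [Metric.infDist_singleton])
        ((tri_near _ _ _ _ _ hx).trans_lt d2)
  have Hb : ∀ᶠ c in Fn I L, ∀ e ∈ E, ∀ e' ∈ E, e.1 = e'.1 → e ≠ e' →
      ∃ σ : ℝ, 0 < σ * cr (c e.1) (a e) (a e') ∧
      0 < σ * cr (c e.1) (a e) (R e'.2) ∧ 0 < σ * cr (c e.1) (R e.2) (a e') ∧
      0 < σ * cr (c e.1) (R e.2) (R e'.2) := by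
    rw [Filter.eventually_all_finset]
    intro e he
    rw [Filter.eventually_all_finset]
    intro e' he'
    by_cases hc : e.1 = e'.1 ∧ e ≠ e'
    · obtain ⟨c1, c2⟩ := hc
      have hj : e.2 ≠ e'.2 := fun h2 => c2 (Prod.ext c1 h2)
      have h0 := h.hcol e.1 (hI e he) e.2 (hJ e he) e'.2 (hJ e' he') hj
      obtain ⟨α, β, α0, αβ, β1, ha1, _⟩ := h.ha e he
      obtain ⟨α', β', α0', αβ', β1', ha1', _⟩ := h.ha e' he'
      rw [← c1] at ha1'
      have hsq : 0 < cr (L e.1) (R e.2) (R e'.2) * cr (L e.1) (R e.2) (R e'.2) :=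
        mul_self_pos.2 h0
      have hcn : ∀ u w : Pt, Continuous fun p : Pt × Pt =>
          cr (L e.1) (R e.2) (R e'.2) * cr p.1 u w := by
        intro u w; unfold cr; fun_prop
      filter_upwards [Fn_pos I L e.1 e.1 (hI e he) (hI e he) _ (hcn (a e) (a e')) (by
          have : cr (L e.1) (a e) (a e') = α * α' * cr (L e.1) (R e.2) (R e'.2) := by
            rw [ha1, ha1']; unfold cr; simp; ring
          simp only [this]
          have : 0 < α * α' * (cr (L e.1) (R e.2) (R e'.2) * cr (L e.1) (R e.2) (R e'.2)) := by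
            positivity
          linarith),
        Fn_pos I L e.1 e.1 (hI e he) (hI e he) _ (hcn (a e) (R e'.2)) (by
          have : cr (L e.1) (a e) (R e'.2) = α * cr (L e.1) (R e.2) (R e'.2) := by
            rw [ha1]; unfold cr; simp; ring
          simp only [this]
          have : 0 < α * (cr (L e.1) (R e.2) (R e'.2) * cr (L e.1) (R e.2) (R e'.2)) := by
            positivity
          linarith),
        Fn_pos I L e.1 e.1 (hI e he) (hI e he) _ (hcn (R e.2) (a e')) (by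
          have : cr (L e.1) (R e.2) (a e') = α' * cr (L e.1) (R e.2) (R e'.2) := by
            rw [ha1']; unfold cr; simp; ring
          simp only [this]
          have : 0 < α' * (cr (L e.1) (R e.2) (R e'.2) * cr (L e.1) (R e.2) (R e'.2)) := by
            positivity
          linarith),
        Fn_pos I L e.1 e.1 (hI e he) (hI e he) _ (hcn (R e.2) (R e'.2)) hsq] with c p1 p2 p3 p4 _ _
      exact ⟨_, p1, p2, p3, p4⟩
    · exact Eventually.of_forall fun c h1 h2 => absurd ⟨h1, h2⟩ hc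
  have Hc : ∀ᶠ c in Fn I L, ∀ e ∈ E, ∀ e' ∈ E, e.2 = e'.2 → e ≠ e' →
      ∃ σ : ℝ, 0 < σ * cr (R e.2) (a e) (a e') ∧
      0 < σ * cr (R e.2) (a e) (c e'.1) ∧ 0 < σ * cr (R e.2) (c e.1) (a e') ∧
      0 < σ * cr (R e.2) (c e.1) (c e'.1) := by
    rw [Filter.eventually_all_finset]
    intro e he
    rw [Filter.eventually_all_finset]
    intro e' he'
    by_cases hc : e.2 = e'.2 ∧ e ≠ e'
    · obtain ⟨c1, c2⟩ := hc
      have hj : e.1 ≠ e'.1 := fun h2 => c2 (Prod.ext h2 c1)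
      have h0 := h.hrow e.2 (hJ e he) e.1 (hI e he) e'.1 (hI e' he') hj
      obtain ⟨α, β, α0, αβ, β1, ha1, _⟩ := h.ha e he
      obtain ⟨α', β', α0', αβ', β1', ha1', _⟩ := h.ha e' he'
      rw [← c1] at ha1'
      have g1 : 0 < 1 - α := by linarith
      have g2 : 0 < 1 - α' := by linarith
      have hsq : 0 < cr (R e.2) (L e.1) (L e'.1) * cr (R e.2) (L e.1) (L e'.1) :=
        mul_self_pos.2 h0
      filter_upwards [Fn_pos I L e.1 e'.1 (hI e he) (hI e' he')
          (fun p => cr (R e.2) (L e.1) (L e'.1) * cr (R e.2) (a e) (a e')) continuous_const (by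
          have : cr (R e.2) (a e) (a e') = (1 - α) * (1 - α') * cr (R e.2) (L e.1) (L e'.1) := by
            rw [ha1, ha1']; unfold cr; simp; ring
          simp only [this]
          have : 0 < (1 - α) * (1 - α') *
              (cr (R e.2) (L e.1) (L e'.1) * cr (R e.2) (L e.1) (L e'.1)) := by
            positivity
          linarith),
        Fn_pos I L e.1 e'.1 (hI e he) (hI e' he')
          (fun p => cr (R e.2) (L e.1) (L e'.1) * cr (R e.2) (a e) p.2)
          (by unfold cr; fun_prop) (by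
          have : cr (R e.2) (a e) (L e'.1) = (1 - α) * cr (R e.2) (L e.1) (L e'.1) := by
            rw [ha1]; unfold cr; simp; ring
          simp only [this]
          have : 0 < (1 - α) *
              (cr (R e.2) (L e.1) (L e'.1) * cr (R e.2) (L e.1) (L e'.1)) := by
            positivity
          linarith),
        Fn_pos I L e.1 e'.1 (hI e he) (hI e' he')
          (fun p => cr (R e.2) (L e.1) (L e'.1) * cr (R e.2) p.1 (a e'))
          (by unfold cr; fun_prop) (by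
          have : cr (R e.2) (L e.1) (a e') = (1 - α') * cr (R e.2) (L e.1) (L e'.1) := by
            rw [ha1']; unfold cr; simp; ring
          simp only [this]
          have : 0 < (1 - α') *
              (cr (R e.2) (L e.1) (L e'.1) * cr (R e.2) (L e.1) (L e'.1)) := by
            positivity
          linarith),
        Fn_pos I L e.1 e'.1 (hI e he) (hI e' he')
          (fun p => cr (R e.2) (L e.1) (L e'.1) * cr (R e.2) p.1 p.2)
          (by unfold cr; fun_prop) hsq] with c p1 p2 p3 p4 _ _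
      exact ⟨_, p1, p2, p3, p4⟩
    · exact Eventually.of_forall fun c h1 h2 => absurd ⟨h1, h2⟩ hc
  filter_upwards [Ha, Hb, Hc, Hd] with c h1 h2 h3 h4
  exact ⟨h1, h2, h3, h4⟩

theorem CHost.ne (h : CHost v I J L R E a b) {e : ι × κ} (he : e ∈ E) : L e.1 ≠ R e.2 := by
  intro hLR
  have := h.hv e.1 (Finset.mem_product.1 (h.hE he)).1 e.2 (Finset.mem_product.1 (h.hE he)).2
  rw [hLR] at this
  simp [dt] at this

/-- the two placed points of a line are different -/
theorem CHost.ab (h : CHost v I J L R E a b) {e : ι × κ} (he : e ∈ E) : a e ≠ b e := by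
  obtain ⟨α, β, α0, αβ, β1, ha1, hb1⟩ := h.ha e he
  intro hab
  have h1 : (β - α) • (R e.2 - L e.1) = 0 := by
    have h3 : L e.1 + β • (R e.2 - L e.1) - (L e.1 + α • (R e.2 - L e.1)) = 0 := by
      rw [← ha1, ← hb1, hab]; simp
    rw [sub_smul]
    simpa using h3
  rcases smul_eq_zero.1 h1 with h4 | h4
  · linarith
  · exact h.ne he (sub_eq_zero.1 h4).symm

/-- a third placed point is not on the line -/
theorem CHost.off (h : CHost v I J L R E a b) {e : ι × κ} (he : e ∈ E) {P : Finset Pt}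
    (hg : GenPos P) (haP : a e ∈ P) (hbP : b e ∈ P) {x : Pt} (hx : x ∈ P) (hxa : x ≠ a e)
    (hxb : x ≠ b e) : cr (L e.1) (R e.2) x ≠ 0 := by
  intro h0
  obtain ⟨α, β, α0, αβ, β1, ha1, hb1⟩ := h.ha e he
  apply hg.cr_ne haP hbP hx (h.ab he) hxa.symm hxb.symm
  have : cr (a e) (b e) x = (β - α) * cr (L e.1) (R e.2) x := by
    rw [ha1, hb1]; unfold cr; simp; ring
  rw [this, h0, mul_zero]

theorem tri_disjoint (y u₁ u₂ w₁ w₂ x : Pt) (σ : ℝ)
    (h11 : 0 < σ * cr y u₁ w₁) (h12 : 0 < σ * cr y u₁ w₂)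
    (h21 : 0 < σ * cr y u₂ w₁) (h22 : 0 < σ * cr y u₂ w₂)
    (hx : x ∈ convexHull ℝ ({y, u₁, u₂} : Set Pt))
    (hx' : x ∈ convexHull ℝ ({y, w₁, w₂} : Set Pt)) : x = y := by
  apply quad_disjoint y u₁ u₂ u₂ w₁ w₂ w₂ x σ h11 h12 h12 h21 h22 h22 h21 h22 h22
  · simpa using hx
  · simpa using hx'

/-- a new point destroys at most two lines -/
theorem CHost.kill (h : CHost v I J L R E a b) {c : ι → Pt} (hc : Close I R E a c)
    {P : Finset Pt} (hg : GenPos P) (hab : ∀ e ∈ E, a e ∈ P ∧ b e ∈ P) {D : Finset ι}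
    {r : Pt} (hr : r ∈ P) (hrc : ∀ i ∈ D, r ≠ c i) (K : Finset (ι × κ))
    (hK : ∀ e ∈ K, e ∈ E ∧ e.1 ∈ D ∧ r ∈ convexHull ℝ ({c e.1, a e, R e.2} : Set Pt)) :
    K.card ≤ 2 := by
  by_contra hcon
  push Not at hcon
  obtain ⟨e₁, e₂, e₃, h1, h2, h3, h12, h13, h23⟩ := Finset.two_lt_card_iff.1 hcon
  obtain ⟨hE1, hD1, hr1⟩ := hK _ h1
  obtain ⟨hE2, hD2, hr2⟩ := hK _ h2
  obtain ⟨hE3, hD3, hr3⟩ := hK _ h3
  by_cases hcol : e₁.1 = e₂.1 ∧ e₂.1 = e₃.1
  · obtain ⟨σ, s1, s2, s3, s4⟩ := hc.cb e₁ hE1 e₂ hE2 hcol.1 h12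
    rw [← hcol.1] at hr2
    exact hrc _ hD1 (tri_disjoint _ _ _ _ _ r σ s1 s2 s3 s4 hr1 hr2)
  by_cases hrow : e₁.2 = e₂.2 ∧ e₂.2 = e₃.2
  · obtain ⟨σ, s1, s2, s3, s4⟩ := hc.cc e₁ hE1 e₂ hE2 hrow.1 h12
    rw [← hrow.1] at hr2
    have hset : ∀ p q w : Pt, convexHull ℝ ({p, q, w} : Set Pt) = convexHull ℝ ({w, q, p} : Set Pt) := by
      intro p q w
      congr 1
      ext z
      simp only [Set.mem_insert_iff, Set.mem_singleton_iff]
      tauto
    rw [hset] at hr1 hr2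
    have hrR : r = R e₁.2 := tri_disjoint _ _ _ _ _ r σ s1 s2 s3 s4 hr1 hr2
    obtain ⟨α, β, α0, αβ, β1, ha1, hb1⟩ := h.ha e₁ hE1
    exact protect hg (h.ne hE1) αβ β1 ha1 hb1 (hab _ hE1).1 (hab _ hE1).2 hr hrR
  · exact hc.ca e₁ hE1 e₂ hE2 e₃ hE3 h12 h13 h23 hcol hrow r hr1 hr2 hr3

/-- the last step of the phase: some row has many alive lines -/
theorem CHost.last (h : CHost v I J L R E a b) (s : ℕ) {c : ι → Pt} (hc : Close I R E a c)
    {M P : Finset Pt} (hMP : M ⊆ P) (hg : GenPos P) (hab : ∀ e ∈ E, a e ∈ M ∧ b e ∈ M)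
    (hcM : ∀ i ∈ I, c i ∈ M) (hpos : ∀ e ∈ E, 0 < cr (a e) (R e.2) (c e.1))
    {Al : Finset (ι × κ)} (hAl : Al ⊆ E)
    (hfree : ∀ e ∈ Al, ∀ x ∈ P, x ≠ a e → x ≠ b e → x ≠ c e.1 →
        x ∉ convexHull ℝ ({c e.1, a e, R e.2} : Set Pt))
    (hcard : s * J.card < Al.card) : MW 5 s M P := by
  have hI : ∀ e ∈ E, e.1 ∈ I := fun e he => (Finset.mem_product.1 (h.hE he)).1
  have hJ : ∀ e ∈ E, e.2 ∈ J := fun e he => (Finset.mem_product.1 (h.hE he)).2
  obtain ⟨j, hj, hcj⟩ := Finset.exists_lt_card_fiber_of_mul_lt_card_of_maps_to (s := Al) (t := J)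
    (f := Prod.snd) (n := s) (fun e he => hJ e (hAl he)) (by rw [mul_comm]; exact hcard)
  have hG0 : s + 1 ≤ ((Al.filter fun e => e.2 = j).image Prod.fst).card := by
    rw [Finset.card_image_of_injOn]
    · exact hcj
    · intro e he e' he' hee
      have h1 := (Finset.mem_filter.1 he).2
      have h2 := (Finset.mem_filter.1 he').2
      exact Prod.ext hee (h1.trans h2.symm)
  obtain ⟨G, hGs, hGc⟩ := Finset.exists_subset_card_eq hG0
  have hmem : ∀ g ∈ G, (g, j) ∈ Al := by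
    intro g hgG
    obtain ⟨e, he, rfl⟩ := Finset.mem_image.1 (hGs hgG)
    obtain ⟨h1, h2⟩ := Finset.mem_filter.1 he
    rw [← h2]
    exact h1
  have hmE : ∀ g ∈ G, (g, j) ∈ E := fun g hgG => hAl (hmem g hgG)
  apply yphase s (R j) v G hGc (fun g => a (g, j)) (fun g => b (g, j)) c M P hMP hg
    (fun g hgG => (hab _ (hmE g hgG)).1) (fun g hgG => (hab _ (hmE g hgG)).2)
    (fun g hgG => hcM g (hI _ (hmE g hgG)))
  · intro g hgG
    obtain ⟨α, β, α0, αβ, β1, ha1, hb1⟩ := h.ha _ (hmE g hgG)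
    have hα : 0 < 1 - α := by linarith
    have hβ : 0 < 1 - β := by linarith
    refine ⟨(1 - β) / (1 - α), by positivity, ?_, ?_⟩
    · rw [div_lt_one hα]; linarith
    · have h1 : a (g, j) - R j = (1 - α) • (L g - R j) := by
        rw [ha1]
        apply Prod.ext
        · simp only [Prod.fst_add, Prod.smul_fst, Prod.fst_sub, smul_eq_mul]; ring
        · simp only [Prod.snd_add, Prod.smul_snd, Prod.snd_sub, smul_eq_mul]; ring
      rw [h1, smul_smul, div_mul_cancel₀ _ hα.ne', hb1]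
      apply Prod.ext
      · simp only [Prod.fst_add, Prod.smul_fst, Prod.fst_sub, smul_eq_mul]; ring
      · simp only [Prod.snd_add, Prod.smul_snd, Prod.snd_sub, smul_eq_mul]; ring
  · intro g hgG
    obtain ⟨α, β, α0, αβ, β1, ha1, hb1⟩ := h.ha _ (hmE g hgG)
    have h0 := h.hv g (hI _ (hmE g hgG)) j hj
    have : dt (R j - a (g, j)) v = (1 - α) * dt (R j - L g) v := by
      rw [ha1]; unfold dt; simp; ring
    rw [this]
    exact mul_pos (by linarith) h0
  · intro g hgG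
    exact hpos _ (hmE g hgG)
  · intro g hgG
    exact hfree _ (hmem g hgG)
  · intro g hgG g' hgG' hne
    exact hc.cc _ (hmE g hgG) _ (hmE g' hgG') rfl (fun hh => hne (congrArg Prod.fst hh))

open Classical in
theorem CHost.raise (h : CHost v I J L R E a b) (s : ℕ) (ε : ℝ) (hε : 0 < ε)
    (hclose : ∀ c : ι → Pt, (∀ i ∈ I, dist (c i) (L i) < ε) → Close I R E a c) :
    ∀ (n : ℕ) (D : Finset ι) (c : ι → Pt) (Al : Finset (ι × κ)) (M P : Finset Pt),
      D ⊆ I → (I \ D).card = n → M ⊆ P → GenPos P → (∀ e ∈ E, a e ∈ M ∧ b e ∈ M) →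
      (∀ i ∈ I, dist (c i) (L i) < ε) → (∀ i ∈ D, c i ∈ M) →
      (∀ e ∈ E, e.1 ∈ D → 0 < cr (a e) (R e.2) (c e.1)) → Al ⊆ E →
      (∀ e ∈ Al, e.1 ∈ D → ∀ x ∈ P, x ≠ a e → x ≠ b e → x ≠ c e.1 →
        x ∉ convexHull ℝ ({c e.1, a e, R e.2} : Set Pt)) →
      s * J.card + 2 * s * n < Al.card → MW 5 s M P := by
  have hI : ∀ e ∈ E, e.1 ∈ I := fun e he => (Finset.mem_product.1 (h.hE he)).1
  have hJ : ∀ e ∈ E, e.2 ∈ J := fun e he => (Finset.mem_product.1 (h.hE he)).2
  intro n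
  induction n with
  | zero =>
    intro D c Al M P hD hn hMP hg hab hc hcM hpos hAl hfree hcard
    have hDI : D = I := by
      have : I \ D = ∅ := Finset.card_eq_zero.1 hn
      exact Finset.Subset.antisymm hD (Finset.sdiff_eq_empty_iff_subset.1 this)
    subst hDI
    exact h.last s (hclose c hc) hMP hg hab hcM (fun e he => hpos e he (hI e he)) hAl
      (fun e he => hfree e he (hI e (hAl he))) (by simpa using hcard)
  | succ n ih =>
    intro D c Al M P hD hn hMP hg hab hc hcM hpos hAl hfree hcard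
    -- the next column
    have hne : (I \ D).Nonempty := by rw [← Finset.card_pos]; omega
    obtain ⟨i, hi⟩ := hne
    rw [Finset.mem_sdiff] at hi
    obtain ⟨hiI, hiD⟩ := hi
    -- a direction transversal to `v`
    have hvne : v ≠ 0 := by
      have hAlne : Al.Nonempty := by rw [← Finset.card_pos]; omega
      obtain ⟨e, he⟩ := hAlne
      intro h0
      have := h.hv e.1 (hI e (hAl he)) e.2 (hJ e (hAl he))
      rw [h0] at this
      simp [dt] at this
    set w : Pt := (-v.2, v.1) with hw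
    have hvw : v.1 * w.2 - v.2 * w.1 ≠ 0 := by
      intro h0
      apply hvne
      have h1 : v.1 ^ 2 + v.2 ^ 2 = 0 := by
        simp only [hw] at h0; nlinarith
      have h2 : v.1 = 0 := by nlinarith [sq_nonneg v.1, sq_nonneg v.2]
      have h3 : v.2 = 0 := by nlinarith [sq_nonneg v.1, sq_nonneg v.2]
      exact Prod.ext h2 h3
    have E1 := curve_legal P (L i) v w hvw
    have E2 : ∀ᶠ t : ℝ in 𝓝[>] 0, dist (L i + t • v + t ^ 2 • w) (L i) < ε :=
      Metric.tendsto_nhds.1 (curve_tendsto (L i) v w) ε hε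
    have E3 : ∀ᶠ t : ℝ in 𝓝[>] 0, ∀ e ∈ E, e.1 = i →
        0 < cr (a e) (R e.2) (L i + t • v + t ^ 2 • w) := by
      rw [Filter.eventually_all_finset]
      intro e he
      by_cases hei : e.1 = i
      · obtain ⟨α, β, α0, αβ, β1, ha1, hb1⟩ := h.ha e he
        have h0 := h.hv e.1 (hI e he) e.2 (hJ e he)
        have h1 : 0 < dt (R e.2 - a e) v := by
          have : dt (R e.2 - a e) v = (1 - α) * dt (R e.2 - L e.1) v := by
            rw [ha1]; unfold dt; simp; ring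
          rw [this]
          exact mul_pos (by linarith) h0
        have hval : ∀ t : ℝ, cr (a e) (R e.2) (L i + t • v + t ^ 2 • w) =
            t * (dt (R e.2 - a e) v + t * dt (R e.2 - a e) w) := by
          intro t
          have h2 : cr (a e) (R e.2) (L i) = 0 := by
            rw [ha1, ← hei]; unfold cr; simp; ring
          have h3 : cr (a e) (R e.2) (L i + t • v + t ^ 2 • w) = cr (a e) (R e.2) (L i) +
              t * (dt (R e.2 - a e) v + t * dt (R e.2 - a e) w) := by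
            unfold cr dt
            simp only [Prod.fst_add, Prod.snd_add, Prod.smul_fst, Prod.smul_snd, smul_eq_mul,
              Prod.fst_sub, Prod.snd_sub]
            ring
          rw [h3, h2, zero_add]
        have hcont : Continuous fun t : ℝ => dt (R e.2 - a e) v + t * dt (R e.2 - a e) w := by
          fun_prop
        have h4 : ∀ᶠ t : ℝ in 𝓝 0, 0 < dt (R e.2 - a e) v + t * dt (R e.2 - a e) w := by
          apply (hcont.tendsto 0).eventually_const_lt
          simpa using h1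
        filter_upwards [self_mem_nhdsWithin, h4.filter_mono nhdsWithin_le_nhds] with t ht h5 _
        rw [hval]
        exact mul_pos ht h5
      · exact Eventually.of_forall fun t h1 => absurd h1 hei
    have E4 : ∀ᶠ t : ℝ in 𝓝[>] 0, ∀ e ∈ E, e.1 = i → ∀ x ∈ P, x ≠ a e → x ≠ b e →
        x ∉ convexHull ℝ ({L i + t • v + t ^ 2 • w, a e, R e.2} : Set Pt) := by
      rw [Filter.eventually_all_finset]
      intro e he
      by_cases hei : e.1 = i
      · have : ∀ᶠ t : ℝ in 𝓝[>] 0, ∀ x ∈ P, x ≠ a e → x ≠ b e →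
            x ∉ convexHull ℝ ({L i + t • v + t ^ 2 • w, a e, R e.2} : Set Pt) := by
          rw [Filter.eventually_all_finset]
          intro x hx
          by_cases hxab : x ≠ a e ∧ x ≠ b e
          · have h1 : x ∉ convexHull ℝ (insert (L i) (({a e, R e.2} : Finset Pt) : Set Pt)) := by
              intro h2
              apply h.off he hg (hMP (hab e he).1) (hMP (hab e he).2) hx hxab.1 hxab.2
              apply h.seg he
              rw [hei]
              simpa using h2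
            have h2 := (curve_tendsto (L i) v w).eventually (hull_stable _ _ _ h1)
            filter_upwards [h2] with t ht _ _
            simpa using ht
          · exact Eventually.of_forall fun t h1 h2 => absurd ⟨h1, h2⟩ hxab
        filter_upwards [this] with t ht _
        exact ht
      · exact Eventually.of_forall fun t h1 => absurd h1 hei
    obtain ⟨t, ⟨⟨hcP, hcleg⟩, hcd⟩, hcp, hcf⟩ := ((E1.and E2).and (E3.and E4)).exists
    set c' : Pt := L i + t • v + t ^ 2 • w with hc'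
    -- the move
    refine MW.later M P c' hcP (hg.insert hcleg) ?_
    intro Rr hRr hdisj hgR
    set P' := insert c' P ∪ Rr with hP'
    have hPP' : P ⊆ P' := fun y hy => Finset.mem_union_left _ (Finset.mem_insert_of_mem hy)
    have hMM' : M ⊆ insert c' M := Finset.subset_insert _ _
    have hMP' : insert c' M ⊆ P' := by
      intro y hy
      rw [Finset.mem_insert] at hy
      rcases hy with rfl | hy
      · exact Finset.mem_union_left _ (Finset.mem_insert_self _ _)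
      · exact hPP' (hMP hy)
    have hRP' : Rr ⊆ P' := Finset.subset_union_right
    set c'' : ι → Pt := Function.update c i c' with hc''
    have hc''i : c'' i = c' := by simp [hc'']
    have hc''n : ∀ k, k ≠ i → c'' k = c k := fun k hk => by simp [hc'', hk]
    have hdist : ∀ k ∈ I, dist (c'' k) (L k) < ε := by
      intro k hk
      by_cases hki : k = i
      · subst hki; rw [hc''i]; exact hcd
      · rw [hc''n k hki]; exact hc k hk
    have hcl := hclose c'' hdist
    have hab' : ∀ e ∈ E, a e ∈ insert c' M ∧ b e ∈ insert c' M :=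
      fun e he => ⟨hMM' (hab e he).1, hMM' (hab e he).2⟩
    have hcM' : ∀ k ∈ insert i D, c'' k ∈ insert c' M := by
      intro k hk
      by_cases hki : k = i
      · subst hki; rw [hc''i]; exact Finset.mem_insert_self _ _
      · rw [hc''n k hki]
        exact hMM' (hcM k ((Finset.mem_insert.1 hk).resolve_left hki))
    set Al' := Al.filter (fun e => ∀ r ∈ Rr, ¬ (e.1 ∈ insert i D ∧
      r ∈ convexHull ℝ ({c'' e.1, a e, R e.2} : Set Pt))) with hAl'
    have hloss : (Al.filter (fun e => ¬ ∀ r ∈ Rr, ¬ (e.1 ∈ insert i D ∧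
        r ∈ convexHull ℝ ({c'' e.1, a e, R e.2} : Set Pt)))).card ≤ 2 * s := by
      have hsub : Al.filter (fun e => ¬ ∀ r ∈ Rr, ¬ (e.1 ∈ insert i D ∧
          r ∈ convexHull ℝ ({c'' e.1, a e, R e.2} : Set Pt))) ⊆
          Rr.biUnion (fun r => Al.filter fun e => e.1 ∈ insert i D ∧
            r ∈ convexHull ℝ ({c'' e.1, a e, R e.2} : Set Pt)) := by
        intro x hx
        rw [Finset.mem_filter] at hx
        obtain ⟨hx1, hx2⟩ := hx
        push Not at hx2
        obtain ⟨r, hr, hx3⟩ := hx2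
        rw [Finset.mem_biUnion]
        exact ⟨r, hr, Finset.mem_filter.2 ⟨hx1, hx3⟩⟩
      refine (Finset.card_le_card hsub).trans ?_
      refine (Finset.card_biUnion_le_card_mul _ _ 2 ?_).trans ?_
      · intro r hr
        apply h.kill hcl hgR (fun e he => ⟨hMP' (hab' e he).1, hMP' (hab' e he).2⟩)
          (D := insert i D) (hRP' hr)
        · intro k hk hrk
          have hk1 : r ∈ insert c' P := by
            rw [hrk]
            have := hcM' k hk
            rw [Finset.mem_insert] at this ⊢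
            rcases this with h1 | h1
            · exact Or.inl h1
            · exact Or.inr (hMP h1)
          exact Finset.disjoint_left.1 hdisj hr hk1
        · intro e he
          obtain ⟨h1, h2, h3⟩ := Finset.mem_filter.1 he
          exact ⟨hAl h1, h2, h3⟩
      · rw [mul_comm]
        exact Nat.mul_le_mul_left _ hRr
    have h2 := Finset.card_filter_add_card_filter_not (s := Al)
      (p := fun e => ∀ r ∈ Rr, ¬ (e.1 ∈ insert i D ∧
        r ∈ convexHull ℝ ({c'' e.1, a e, R e.2} : Set Pt)))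
    have h4 : Al'.card + (Al.filter (fun e => ¬ ∀ r ∈ Rr, ¬ (e.1 ∈ insert i D ∧
        r ∈ convexHull ℝ ({c'' e.1, a e, R e.2} : Set Pt)))).card = Al.card := by
      rw [← h2]
    have h5 : 2 * s * (n + 1) = 2 * s * n + 2 * s := by ring
    apply ih (insert i D) c'' Al' (insert c' M) P' ?_ ?_ hMP' hgR hab' hdist hcM' ?_
      ((Finset.filter_subset _ _).trans hAl) ?_ (by omega)
    · intro k hk
      rw [Finset.mem_insert] at hk
      rcases hk with rfl | hk
      · exact hiI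
      · exact hD hk
    · have h6 : I \ insert i D = (I \ D).erase i := by
        ext k
        simp only [Finset.mem_sdiff, Finset.mem_insert, Finset.mem_erase]
        tauto
      rw [h6, Finset.card_erase_of_mem (Finset.mem_sdiff.2 ⟨hiI, hiD⟩)]
      omega
    · intro e he hei
      by_cases hk : e.1 = i
      · rw [hk, hc''i]
        exact hcp e he hk
      · rw [hc''n _ hk]
        exact hpos e he ((Finset.mem_insert.1 hei).resolve_left hk)
    · intro e he hei x hx hxa hxb hxc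
      obtain ⟨he1, he2⟩ := Finset.mem_filter.1 he
      rw [hP', Finset.mem_union, Finset.mem_insert] at hx
      rcases hx with (hx | hx) | hx
      · by_cases hk : e.1 = i
        · exfalso
          apply hxc
          rw [hk, hc''i, hx]
        · have := hcl.cd i hiI e (hAl he1) hk
          rw [hc''i] at this
          rw [hx]
          exact this
      · by_cases hk : e.1 = i
        · rw [hk, hc''i]
          exact hcf e (hAl he1) hk x hx hxa hxb
        · rw [hc''n _ hk] at hxc ⊢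
          exact hfree e he1 ((Finset.mem_insert.1 hei).resolve_left hk) x hx hxa hxb hxc
      · intro h6
        exact he2 x hx ⟨hei, h6⟩

end

/-- **The c-phase.** -/
theorem cphase {ι κ : Type} [DecidableEq ι] [DecidableEq κ] (s : ℕ) (v : Pt) (I : Finset ι)
    (J : Finset κ) (L : ι → Pt) (R : κ → Pt) (E : Finset (ι × κ)) (hE : E ⊆ I ×ˢ J)
    (a b : ι × κ → Pt) (M P : Finset Pt) (hMP : M ⊆ P) (hg : GenPos P)
    (hv : ∀ i ∈ I, ∀ j ∈ J, 0 < dt (R j - L i) v)
    (ha : ∀ e ∈ E, a e ∈ M ∧ b e ∈ M ∧ ∃ α β : ℝ, 0 < α ∧ α < β ∧ β < 1 ∧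
      a e = L e.1 + α • (R e.2 - L e.1) ∧ b e = L e.1 + β • (R e.2 - L e.1))
    (hrow : ∀ j ∈ J, ∀ i ∈ I, ∀ i' ∈ I, i ≠ i' → cr (R j) (L i) (L i') ≠ 0)
    (hcol : ∀ i ∈ I, ∀ j ∈ J, ∀ j' ∈ J, j ≠ j' → cr (L i) (R j) (R j') ≠ 0)
    (htri : ∀ e₁ ∈ E, ∀ e₂ ∈ E, ∀ e₃ ∈ E, e₁ ≠ e₂ → e₁ ≠ e₃ → e₂ ≠ e₃ →
      ¬ (e₁.1 = e₂.1 ∧ e₂.1 = e₃.1) → ¬ (e₁.2 = e₂.2 ∧ e₂.2 = e₃.2) →
      ¬ ∃ x : Pt, cr (L e₁.1) (R e₁.2) x = 0 ∧ cr (L e₂.1) (R e₂.2) x = 0 ∧
        cr (L e₃.1) (R e₃.2) x = 0)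
    (hcard : s * J.card + 2 * s * I.card < E.card) : MW 5 s M P := by
  have h : CHost v I J L R E a b := ⟨hE, hv, fun e he => (ha e he).2.2, hrow, hcol, htri⟩
  obtain ⟨ε, hε, hclose⟩ := Fn_extract I L _ h.close
  exact h.raise s ε hε hclose I.card ∅ L E M P (Finset.empty_subset _) (by simp) hMP hg
    (fun e he => ⟨(ha e he).1, (ha e he).2.1⟩) (fun i _ => by simpa using hε) (by simp)
    (by simp) (Finset.Subset.refl _) (by simp) hcard

end Pool.Agent.T2H87.K5
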