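import Pool.Agent.T2H87.K5.Lines
import Pool.Agent.T2H87.K5.Cph

/-!
# Completing lines
-/

set_option autoImplicit false
set_option linter.unusedSectionVars false
set_option linter.unusedVariables false

namespace Pool.Agent.T2H87.K5

open Pool.Agent.R183.HoleGame Filter Topology

section

variable {ι κ : Type} [DecidableEq ι] [DecidableEq κ]

/-- the line `(i, j)` is alive -/
def Alive (L : ι → Pt) (R : κ → Pt) (a : ι × κ → Pt) (P : Finset Pt) (i : ι) (j : κ) : Prop :=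
  ∀ x ∈ P, x ≠ a (i, j) → cr (L i) (R j) x ≠ 0

/-- the line `(i, j)` is completed -/
def Compl (L : ι → Pt) (R : κ → Pt) (a : ι × κ → Pt) (M : Finset Pt) (i : ι) (j : κ) : Prop :=
  ∃ b ∈ M, ∃ α β : ℝ, 0 < α ∧ α < β ∧ β < 1 ∧ a (i, j) = L i + α • (R j - L i) ∧
    b = L i + β • (R j - L i)

theorem Compl.mono {L : ι → Pt} {R : κ → Pt} {a : ι × κ → Pt} {M M' : Finset Pt} {i : ι} {j : κ}
    (h : Compl L R a M i j) (hM : M ⊆ M') : Compl L R a M' i j := by
  obtain ⟨b, hb, r⟩ := h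
  exact ⟨b, hM hb, r⟩

/-- the data which do not change during the phase -/
structure Host (s : ℕ) (v : Pt) (I : Finset ι) (J : Finset κ) (L : ι → Pt) (R : κ → Pt)
    (A : κ → Finset ι) (a : ι × κ → Pt) (M P : Finset Pt) : Prop where
  hA : ∀ j ∈ J, A j ⊆ I ∧ (A j).card = (s + 1) ^ 2
  hv : ∀ i ∈ I, ∀ j ∈ J, 0 < dt (R j - L i) v
  ha : ∀ j ∈ J, ∀ i ∈ A j, a (i, j) ∈ M ∧ ∃ α : ℝ, 0 < α ∧ α < 1 ∧
      a (i, j) = L i + α • (R j - L i)
  hinj : ∀ j ∈ J, ∀ i ∈ A j, ∀ j' ∈ J, ∀ i' ∈ A j', a (i, j) = a (i', j') → i = i' ∧ j = j'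
  hprot : ∀ i ∈ I, ∃ e ∈ P, ∃ f ∈ P, e ≠ f ∧ e ≠ L i ∧ f ≠ L i ∧ cr e f (L i) = 0
  hrow : ∀ j ∈ J, ∀ i ∈ I, ∀ i' ∈ I, i ≠ i' → cr (R j) (L i) (L i') ≠ 0
  hcol : ∀ i ∈ I, ∀ j ∈ J, ∀ j' ∈ J, j ≠ j' → cr (L i) (R j) (R j') ≠ 0
  htri : ∀ i₁ i₂ i₃ : ι, ∀ j₁ ∈ J, ∀ j₂ ∈ J, ∀ j₃ ∈ J, i₁ ∈ A j₁ → i₂ ∈ A j₂ → i₃ ∈ A j₃ →
      (i₁, j₁) ≠ (i₂, j₂) → (i₁, j₁) ≠ (i₃, j₃) → (i₂, j₂) ≠ (i₃, j₃) →
      ¬ (i₁ = i₂ ∧ i₂ = i₃) → ¬ (j₁ = j₂ ∧ j₂ = j₃) →
      ¬ ∃ x : Pt, cr (L i₁) (R j₁) x = 0 ∧ cr (L i₂) (R j₂) x = 0 ∧ cr (L i₃) (R j₃) x = 0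

variable {s : ℕ} {v : Pt} {I : Finset ι} {J : Finset κ} {L : ι → Pt} {R : κ → Pt}
  {A : κ → Finset ι} {a : ι × κ → Pt} {M P : Finset Pt}

theorem Host.mono {M' P' : Finset Pt} (h : Host s v I J L R A a M P) (hM : M ⊆ M')
    (hP : P ⊆ P') : Host s v I J L R A a M' P' := by
  refine ⟨h.hA, h.hv, ?_, h.hinj, ?_, h.hrow, h.hcol, h.htri⟩
  · intro j hj i hi
    obtain ⟨h1, h2⟩ := h.ha j hj i hi
    exact ⟨hM h1, h2⟩
  · intro i hi
    obtain ⟨e, he, f, hf, r⟩ := h.hprot i hi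
    exact ⟨e, hP he, f, hP hf, r⟩

open Classical in
/-- a new point touches at most two rows -/
theorem Host.touch (h : Host s v I J L R A a M P) (P' : Finset Pt) (hPP : P ⊆ P')
    (hg : GenPos P') (r : Pt) (hr : r ∈ P') (Fr : Finset κ) (hFr : Fr ⊆ J) :
    (Fr.filter fun j => ∃ i ∈ A j, cr (L i) (R j) r = 0).card ≤ 2 := by
  by_contra hcon
  push Not at hcon
  obtain ⟨j₁, j₂, j₃, h1, h2, h3, h12, h13, h23⟩ := Finset.two_lt_card_iff.1 hcon
  rw [Finset.mem_filter] at h1 h2 h3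
  obtain ⟨hj1, i₁, hi1, e1⟩ := h1
  obtain ⟨hj2, i₂, hi2, e2⟩ := h2
  obtain ⟨hj3, i₃, hi3, e3⟩ := h3
  have hrL : ∀ i ∈ I, r ≠ L i := by
    intro i hi hrl
    obtain ⟨e, he, f, hf, hef, heL, hfL, h0⟩ := h.hprot i hi
    rw [← hrl] at heL hfL h0
    exact hg.cr_ne (hPP he) (hPP hf) hr hef heL hfL h0
  by_cases hc : i₁ = i₂ ∧ i₂ = i₃
  · obtain ⟨rfl, rfl⟩ := hc
    have hi : i₁ ∈ I := (h.hA j₁ (hFr hj1)).1 hi1
    exact hrL i₁ hi (two_lines e1 e2 (h.hcol i₁ hi j₁ (hFr hj1) j₂ (hFr hj2) h12))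
  · exact h.htri i₁ i₂ i₃ j₁ (hFr hj1) j₂ (hFr hj2) j₃ (hFr hj3) hi1 hi2 hi3
      (fun hh => h12 (congrArg Prod.snd hh)) (fun hh => h13 (congrArg Prod.snd hh))
      (fun hh => h23 (congrArg Prod.snd hh)) hc (fun hh => h12 hh.1) ⟨r, e1, e2, e3⟩

theorem Host.ne (h : Host s v I J L R A a M P) {i : ι} {j : κ} (hi : i ∈ I) (hj : j ∈ J) :
    L i ≠ R j := by
  intro hLR
  have := h.hv i hi j hj
  rw [hLR] at this
  simp [dt] at this

/-- a good completing point -/
theorem Host.point (h : Host s v I J L R A a M P) (hMP : M ⊆ P) (hg : GenPos P) {i : ι} {j : κ}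
    (hj : j ∈ J) (hi : i ∈ A j) (hal : Alive L R a P i j) :
    ∃ b : Pt, b ∉ P ∧ (∀ p ∈ P, ∀ q ∈ P, p ≠ q → cr p q b ≠ 0) ∧
      (∃ α β : ℝ, 0 < α ∧ α < β ∧ β < 1 ∧ a (i, j) = L i + α • (R j - L i) ∧
        b = L i + β • (R j - L i)) ∧
      ∀ i' : ι, ∀ j' ∈ J, i' ∈ A j' → Alive L R a P i' j' → (i', j') ≠ (i, j) →
        cr (L i') (R j') b ≠ 0 := by
  obtain ⟨haM, α, hα0, hα1, ha⟩ := h.ha j hj i hi
  have hiI : i ∈ I := (h.hA j hj).1 hi
  have e1 := line_legal P hg (L i) (R j) (a (i, j)) α (h.ne hiI hj) (hMP haM) hα1 ha hal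
  have e2 : ∀ᶠ t : ℝ in 𝓝[>] 0, ∀ e ∈ I ×ˢ J, e.1 ∈ A e.2 → Alive L R a P e.1 e.2 →
      e ≠ (i, j) → cr (L e.1) (R e.2) (a (i, j) + t • (R j - a (i, j))) ≠ 0 := by
    rw [Filter.eventually_all_finset]
    rintro ⟨i', j'⟩ he
    rw [Finset.mem_product] at he
    by_cases hc : i' ∈ A j' ∧ Alive L R a P i' j' ∧ (i', j') ≠ (i, j)
    · obtain ⟨c1, c2, c3⟩ := hc
      have hne : cr (L i') (R j') (a (i, j)) ≠ 0 := by
        apply c2 _ (hMP haM)
        intro heq
        obtain ⟨q1, q2⟩ := h.hinj j hj i hi j' he.2 i' c1 heq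
        exact c3 (by rw [q1, q2])
      have hcont : Continuous fun t : ℝ =>
          cr (L i') (R j') (a (i, j) + t • (R j - a (i, j))) := by
        unfold cr
        fun_prop
      have : ∀ᶠ t : ℝ in 𝓝 0, cr (L i') (R j') (a (i, j) + t • (R j - a (i, j))) ≠ 0 := by
        apply hcont.continuousAt.eventually_ne
        simpa using hne
      filter_upwards [this.filter_mono nhdsWithin_le_nhds] with t ht _ _ _
      exact ht
    · exact Eventually.of_forall fun t h1 h2 h3 => absurd ⟨h1, h2, h3⟩ hc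
  have hlt1 : ∀ᶠ t : ℝ in 𝓝[>] 0, t < 1 :=
    (eventually_lt_nhds (zero_lt_one)).filter_mono nhdsWithin_le_nhds
  have hpos : ∀ᶠ t : ℝ in 𝓝[>] 0, (0 : ℝ) < t := self_mem_nhdsWithin
  obtain ⟨t, ⟨⟨⟨hb1, hb2⟩, hb3⟩, ht1⟩, ht0⟩ := (((e1.and e2).and hlt1).and hpos).exists
  refine ⟨a (i, j) + t • (R j - a (i, j)), hb1, hb2, ⟨α, α + t * (1 - α), hα0, ?_, ?_, ha, ?_⟩, ?_⟩
  · have := mul_pos ht0 (sub_pos.2 hα1)
    linarith
  · nlinarith
  · rw [ha]
    apply Prod.ext
    · simp only [Prod.fst_add, Prod.smul_fst, Prod.fst_sub, smul_eq_mul]; ring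
    · simp only [Prod.snd_add, Prod.smul_snd, Prod.snd_sub, smul_eq_mul]; ring
  · intro i' j' hj' hi' hal' hne
    exact hb3 (i', j') (Finset.mem_product.2 ⟨(h.hA j' hj').1 hi', hj'⟩) hi' hal' hne

/-- every line of the rows of `Fr` is alive -/
def Fresh (L : ι → Pt) (R : κ → Pt) (A : κ → Finset ι) (a : ι × κ → Pt) (P : Finset Pt)
    (Fr : Finset κ) : Prop := ∀ j ∈ Fr, ∀ i ∈ A j, Alive L R a P i j

/-- the row `j` is finished -/
def DoneRow (s : ℕ) (L : ι → Pt) (R : κ → Pt) (A : κ → Finset ι) (a : ι × κ → Pt) (M : Finset Pt)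
    (j : κ) : Prop := ∃ C ⊆ A j, C.card = s + 1 ∧ ∀ i ∈ C, Compl L R a M i j

open Classical in
theorem inner (r m : ℕ)
    (K : ∀ (M P : Finset Pt) (Dn Fr : Finset κ), Host s v I J L R A a M P → M ⊆ P → GenPos P →
      Dn ⊆ J → Dn.card = m + 1 → (∀ j ∈ Dn, DoneRow s L R A a M j) → Fr ⊆ J →
      (∀ j ∈ Fr, j ∉ Dn) → Fresh L R A a P Fr → r * (1 + 2 * s * (s + 1)) ≤ Fr.card →
      MW 5 s M P) :
    ∀ (u : ℕ) (M P : Finset Pt) (Dn Fr : Finset κ) (j : κ) (C Al : Finset ι),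
      Host s v I J L R A a M P → M ⊆ P → GenPos P → Dn ⊆ J → Dn.card = m →
      (∀ j ∈ Dn, DoneRow s L R A a M j) → j ∈ J → j ∉ Dn → C ⊆ A j → C.card + u = s + 1 →
      (∀ i ∈ C, Compl L R a M i j) → Al ⊆ A j → (∀ i ∈ Al, i ∉ C) →
      (∀ i ∈ Al, Alive L R a P i j) → u * (s + 1) ≤ Al.card → Fr ⊆ J →
      (∀ j' ∈ Fr, j' ∉ Dn ∧ j' ≠ j) → Fresh L R A a P Fr →
      r * (1 + 2 * s * (s + 1)) + 2 * s * u ≤ Fr.card → MW 5 s M P := by
  intro u
  induction u with
  | zero =>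
    intro M P Dn Fr j C Al h hMP hg hDn hDc hDone hj hjD hC hCc hCompl _ _ _ _ hFr hFrD hfresh hcard
    apply K M P (insert j Dn) Fr h hMP hg _ _ _ hFr _ hfresh (by omega)
    · intro x hx
      rw [Finset.mem_insert] at hx
      rcases hx with rfl | hx
      · exact hj
      · exact hDn hx
    · rw [Finset.card_insert_of_notMem hjD, hDc]
    · intro x hx
      rw [Finset.mem_insert] at hx
      rcases hx with rfl | hx
      · exact ⟨C, hC, by omega, hCompl⟩
      · exact hDone x hx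
    · intro x hx
      rw [Finset.mem_insert]
      rintro (h1 | h1)
      · exact (hFrD x hx).2 h1
      · exact (hFrD x hx).1 h1
  | succ u ih =>
    intro M P Dn Fr j C Al h hMP hg hDn hDc hDone hj hjD hC hCc hCompl hAl hAlC hAlive hAlc hFr
      hFrD hfresh hcard
    have hAlne : Al.Nonempty := by
      rw [← Finset.card_pos]
      have : 1 ≤ (u + 1) * (s + 1) := Nat.succ_le_of_lt (by positivity)
      omega
    obtain ⟨i, hi⟩ := hAlne
    obtain ⟨b, hbP, hbleg, hbline, hbother⟩ := h.point hMP hg hj (hAl hi) (hAlive i hi)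
    refine MW.later M P b hbP (hg.insert hbleg) ?_
    intro Rr hRr hdisj hgR
    set P' := insert b P ∪ Rr with hP'
    have hPP' : P ⊆ P' := fun y hy => Finset.mem_union_left _ (Finset.mem_insert_of_mem hy)
    have hMM' : M ⊆ insert b M := Finset.subset_insert _ _
    have hMP' : insert b M ⊆ P' := by
      intro y hy
      rw [Finset.mem_insert] at hy
      rcases hy with rfl | hy
      · exact Finset.mem_union_left _ (Finset.mem_insert_self _ _)
      · exact hPP' (hMP hy)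
    have hRP' : Rr ⊆ P' := Finset.subset_union_right
    have h' : Host s v I J L R A a (insert b M) P' := h.mono hMM' hPP'
    have hLi : L i ≠ R j := h.ne ((h.hA j hj).1 (hAl hi)) hj
    have hcomp : Compl L R a (insert b M) i j := ⟨b, Finset.mem_insert_self _ _, hbline⟩
    have hprot : ∀ r ∈ Rr, r ≠ R j := by
      intro r hr
      obtain ⟨α, β, h1, h2, h3, h4, h5⟩ := hbline
      exact protect hgR hLi h2 h3 h4 h5 (hPP' (hMP (h.ha j hj i (hAl hi)).1))
        (hMP' (Finset.mem_insert_self _ _)) (hRP' hr)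
    -- new points do not lie on alive lines except the killers
    have hkeep : ∀ (i' : ι) (j' : κ), j' ∈ J → i' ∈ A j' → Alive L R a P i' j' →
        (i', j') ≠ (i, j) → (∀ r ∈ Rr, cr (L i') (R j') r ≠ 0) → Alive L R a P' i' j' := by
      intro i' j' hj' hi' hal hne hr x hx hxa
      rw [hP', Finset.mem_union, Finset.mem_insert] at hx
      rcases hx with (rfl | hx) | hx
      · exact hbother i' j' hj' hi' hal hne
      · exact hal x hx hxa
      · exact hr x hx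
    -- the columns which survive
    set Al' := (Al.erase i).filter (fun i' => ∀ r ∈ Rr, cr (L i') (R j) r ≠ 0) with hAl'
    have hAl'c : u * (s + 1) ≤ Al'.card := by
      have hbad : ((Al.erase i).filter
          (fun i' => ¬ ∀ r ∈ Rr, cr (L i') (R j) r ≠ 0)).card ≤ s := by
        refine le_trans ?_ hRr
        have hch : ∀ i' ∈ (Al.erase i).filter (fun i' => ¬ ∀ r ∈ Rr, cr (L i') (R j) r ≠ 0),
            ∃ r ∈ Rr, cr (L i') (R j) r = 0 := by
          intro i' hi'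
          have := (Finset.mem_filter.1 hi').2
          push Not at this
          exact this
        choose! f hfR hf0 using hch
        apply Finset.card_le_card_of_injOn f (fun i' hi' => hfR i' hi')
        intro x hx y hy hxy
        by_contra hne
        have hx0 := hf0 x hx
        have hy0 := hf0 y hy
        rw [← hxy] at hy0
        have hxA := hAl (Finset.mem_of_mem_erase (Finset.mem_filter.1 hx).1)
        have hyA := hAl (Finset.mem_of_mem_erase (Finset.mem_filter.1 hy).1)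
        have hc := h.hrow j hj x ((h.hA j hj).1 hxA) y ((h.hA j hj).1 hyA) hne
        apply hprot (f x) (hfR x hx)
        rw [← neg_eq_zero, ← cr_swap12] at hx0 hy0
        exact two_lines hx0 hy0 hc
      have h1 : (Al.erase i).card = Al.card - 1 := Finset.card_erase_of_mem hi
      have h2 := Finset.card_filter_add_card_filter_not (s := Al.erase i)
        (p := fun i' => ∀ r ∈ Rr, cr (L i') (R j) r ≠ 0)
      have h3 : (u + 1) * (s + 1) = u * (s + 1) + (s + 1) := by ring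
      have h4 : Al'.card + ((Al.erase i).filter
          (fun i' => ¬ ∀ r ∈ Rr, cr (L i') (R j) r ≠ 0)).card = (Al.erase i).card := by rw [← h2]
      omega
    -- the rows which stay fresh
    set Fr' := Fr.filter (fun j' => ∀ r ∈ Rr, ¬ ∃ i' ∈ A j', cr (L i') (R j') r = 0) with hFr'
    have hFr'c : r * (1 + 2 * s * (s + 1)) + 2 * s * u ≤ Fr'.card := by
      have hbad : (Fr.filter
          (fun j' => ¬ ∀ r ∈ Rr, ¬ ∃ i' ∈ A j', cr (L i') (R j') r = 0)).card ≤ 2 * s := by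
        have hsub : Fr.filter (fun j' => ¬ ∀ r ∈ Rr, ¬ ∃ i' ∈ A j', cr (L i') (R j') r = 0) ⊆
            Rr.biUnion (fun r => Fr.filter fun j' => ∃ i' ∈ A j', cr (L i') (R j') r = 0) := by
          intro x hx
          rw [Finset.mem_filter] at hx
          obtain ⟨hx1, hx2⟩ := hx
          push Not at hx2
          obtain ⟨r, hr, hx3⟩ := hx2
          rw [Finset.mem_biUnion]
          exact ⟨r, hr, Finset.mem_filter.2 ⟨hx1, hx3⟩⟩
        refine (Finset.card_le_card hsub).trans ?_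
        refine (Finset.card_biUnion_le_card_mul _ _ 2 ?_).trans ?_
        · intro r hr
          exact h.touch P' hPP' hgR r (hRP' hr) Fr hFr
        · rw [mul_comm]
          exact Nat.mul_le_mul_left _ hRr
      have h2 := Finset.card_filter_add_card_filter_not (s := Fr)
        (p := fun j' => ∀ r ∈ Rr, ¬ ∃ i' ∈ A j', cr (L i') (R j') r = 0)
      have h3 : 2 * s * (u + 1) = 2 * s * u + 2 * s := by ring
      have h4 : Fr'.card + (Fr.filter
          (fun j' => ¬ ∀ r ∈ Rr, ¬ ∃ i' ∈ A j', cr (L i') (R j') r = 0)).card = Fr.card := by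
        rw [← h2]
      omega
    apply ih (insert b M) P' Dn Fr' j (insert i C) Al' h' hMP' hgR hDn hDc
      ?_ hj hjD ?_ ?_ ?_ ?_ ?_ ?_ hAl'c ((Finset.filter_subset _ _).trans hFr) ?_ ?_
      hFr'c
    · intro x hx
      obtain ⟨C', h1, h2, h3⟩ := hDone x hx
      exact ⟨C', h1, h2, fun k hk => (h3 k hk).mono hMM'⟩
    · intro x hx
      rw [Finset.mem_insert] at hx
      rcases hx with rfl | hx
      · exact hAl hi
      · exact hC hx
    · rw [Finset.card_insert_of_notMem (hAlC i hi)]; omega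
    · intro x hx
      rw [Finset.mem_insert] at hx
      rcases hx with rfl | hx
      · exact hcomp
      · exact (hCompl x hx).mono hMM'
    · intro x hx
      exact hAl (Finset.mem_of_mem_erase (Finset.mem_filter.1 hx).1)
    · intro x hx
      have hx1 := Finset.mem_erase.1 (Finset.mem_filter.1 hx).1
      rw [Finset.mem_insert]
      rintro (h1 | h1)
      · exact hx1.1 h1
      · exact hAlC x hx1.2 h1
    · intro x hx
      have hx1 := Finset.mem_erase.1 (Finset.mem_filter.1 hx).1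
      exact hkeep x j hj (hAl hx1.2) (hAlive x hx1.2) (fun hh => hx1.1 (congrArg Prod.fst hh))
        (Finset.mem_filter.1 hx).2
    · intro x hx
      exact hFrD x (Finset.mem_filter.1 hx).1
    · intro x hx i' hi'
      obtain ⟨hx1, hx2⟩ := Finset.mem_filter.1 hx
      refine hkeep i' x (hFr hx1) hi' (hfresh x hx1 i' hi') ?_ ?_
      · intro hh
        exact (hFrD x hx1).2 (congrArg Prod.snd hh)
      · intro r hr h0
        exact hx2 r hr ⟨i', hi', h0⟩

theorem outer : ∀ (r m : ℕ) (M P : Finset Pt) (Dn Fr : Finset κ),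
    m + r = 2 * s * I.card + 1 → Host s v I J L R A a M P → M ⊆ P → GenPos P →
    Dn ⊆ J → Dn.card = m → (∀ j ∈ Dn, DoneRow s L R A a M j) → Fr ⊆ J →
    (∀ j ∈ Fr, j ∉ Dn) → Fresh L R A a P Fr → r * (1 + 2 * s * (s + 1)) ≤ Fr.card →
    MW 5 s M P := by
  intro r
  induction r with
  | zero =>
    intro m M P Dn Fr hm h hMP hg hDn hDc hDone hFr hFrD hfresh hcard
    -- all rows are done: the c-phase
    have hch : ∀ j ∈ Dn, ∃ C : Finset ι, C ⊆ A j ∧ C.card = s + 1 ∧ ∀ i ∈ C, Compl L R a M i j :=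
      fun j hj => hDone j hj
    choose! C hCA hCc hCC using hch
    set E : Finset (ι × κ) := Dn.biUnion fun j => (C j).image fun i => (i, j) with hE
    have hEmem : ∀ e : ι × κ, e ∈ E ↔ e.2 ∈ Dn ∧ e.1 ∈ C e.2 := by
      rintro ⟨i, j⟩
      rw [hE, Finset.mem_biUnion]
      constructor
      · rintro ⟨j', hj', h1⟩
        rw [Finset.mem_image] at h1
        obtain ⟨i', hi', h2⟩ := h1
        simp only [Prod.mk.injEq] at h2
        obtain ⟨rfl, rfl⟩ := h2
        exact ⟨hj', hi'⟩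
      · rintro ⟨h1, h2⟩
        exact ⟨j, h1, Finset.mem_image.2 ⟨i, h2, rfl⟩⟩
    have hEcard : E.card = Dn.card * (s + 1) := by
      rw [hE, Finset.card_biUnion]
      · rw [Finset.sum_const_nat (m := s + 1)]
        intro j hj
        rw [Finset.card_image_of_injective _ (fun x y hxy => congrArg Prod.fst hxy), hCc j hj]
      · intro j hj j' hj' hne
        rw [Function.onFun, Finset.disjoint_left]
        intro e he he'
        rw [Finset.mem_image] at he he'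
        obtain ⟨x, _, rfl⟩ := he
        obtain ⟨y, _, h2⟩ := he'
        exact hne (congrArg Prod.snd h2).symm
    have hcomp : ∀ e ∈ E, Compl L R a M e.1 e.2 := by
      intro e he
      obtain ⟨h1, h2⟩ := (hEmem e).1 he
      exact hCC e.2 h1 e.1 h2
    unfold Compl at hcomp
    choose! b hbM hb using hcomp
    apply cphase s v I Dn L R E ?_ a b M P hMP hg (fun i hi j hj => h.hv i hi j (hDn hj)) ?_
      (fun j hj => h.hrow j (hDn hj)) (fun i hi j hj j' hj' => h.hcol i hi j (hDn hj) j' (hDn hj'))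
      ?_ ?_
    · intro e he
      obtain ⟨h1, h2⟩ := (hEmem e).1 he
      exact Finset.mem_product.2 ⟨(h.hA e.2 (hDn h1)).1 (hCA e.2 h1 h2), h1⟩
    · intro e he
      obtain ⟨h1, h2⟩ := (hEmem e).1 he
      exact ⟨(h.ha e.2 (hDn h1) e.1 (hCA e.2 h1 h2)).1, hbM e he, hb e he⟩
    · intro e₁ he1 e₂ he2 e₃ he3 h12 h13 h23 h4 h5
      obtain ⟨k1, l1⟩ := (hEmem e₁).1 he1
      obtain ⟨k2, l2⟩ := (hEmem e₂).1 he2
      obtain ⟨k3, l3⟩ := (hEmem e₃).1 he3
      exact h.htri e₁.1 e₂.1 e₃.1 e₁.2 (hDn k1) e₂.2 (hDn k2) e₃.2 (hDn k3) (hCA _ k1 l1)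
        (hCA _ k2 l2) (hCA _ k3 l3) h12 h13 h23 h4 h5
    · rw [hEcard]
      have : Dn.card = 2 * s * I.card + 1 := by omega
      nlinarith
  | succ r ih =>
    intro m M P Dn Fr hm h hMP hg hDn hDc hDone hFr hFrD hfresh hcard
    have hne : Fr.Nonempty := by
      rw [← Finset.card_pos]
      have : 1 ≤ (r + 1) * (1 + 2 * s * (s + 1)) := Nat.succ_le_of_lt (by positivity)
      omega
    obtain ⟨j, hj⟩ := hne
    apply inner r m (fun M P Dn Fr h1 h2 h3 h4 h5 h6 h7 h8 h9 h10 =>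
      ih (m + 1) M P Dn Fr (by omega) h1 h2 h3 h4 h5 h6 h7 h8 h9 h10) (s + 1) M P Dn (Fr.erase j) j
      ∅ (A j) h hMP hg hDn hDc hDone (hFr hj) (hFrD j hj) (Finset.empty_subset _) (by simp)
      (by simp) (Finset.Subset.refl _) (by simp) (hfresh j hj) ?_
      ((Finset.erase_subset _ _).trans hFr) ?_ ?_ ?_
    · rw [(h.hA j (hFr hj)).2]; ring_nf; omega
    · intro x hx
      rw [Finset.mem_erase] at hx
      exact ⟨hFrD x hx.2, hx.1⟩
    · intro x hx
      exact hfresh x (Finset.mem_of_mem_erase hx)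
    · rw [Finset.card_erase_of_mem hj]
      have : (r + 1) * (1 + 2 * s * (s + 1)) = r * (1 + 2 * s * (s + 1)) + 1 + 2 * s * (s + 1) := by
        ring
      omega

/-- **The b-phase.** -/
theorem bphase (h : Host s v I J L R A a M P) (hMP : M ⊆ P) (hg : GenPos P)
    (halive : ∀ j ∈ J, ∀ i ∈ A j, ∀ x ∈ P, x ≠ a (i, j) → cr (L i) (R j) x ≠ 0)
    (hcard : (2 * s * I.card + 1) * (1 + 2 * s * (s + 1)) ≤ J.card) : MW 5 s M P :=
  outer (2 * s * I.card + 1) 0 M P ∅ J (by omega) h hMP hg (Finset.empty_subset _) (by simp)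
    (by simp) (Finset.Subset.refl _) (by simp) halive hcard

end

end Pool.Agent.T2H87.K5
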