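import Mathlib

/-!
# A covering lemma for families with few large sets
-/

set_option autoImplicit false

namespace Pool.Agent.T2H87.K5

theorem cornering (s : ℕ) : ∀ B α ε : ℝ, 0 < B → 0 < α → 0 < ε → ∃ η : ℝ, 0 < η ∧
    ∀ {V : Type} [DecidableEq V] (n : ℕ) (F : Finset (Finset V)),
      (∀ x : ℝ, 0 < x → ((F.filter fun I => x ≤ (I.card : ℝ)).card : ℝ) * x ^ 2 ≤ B * (n : ℝ) ^ 2) →
      ∀ A : Finset V, α * n ≤ A.card → ∃ X ⊆ A, (X.card : ℝ) ≤ ε * A.card ∧
        ∀ j ∈ A, j ∉ X → ∀ l : List (Finset V), l.length ≤ s → (∀ I ∈ l, I ∈ F ∧ j ∉ I) →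
          η * n ≤ ((A.filter fun x => ∀ I ∈ l, x ∉ I).card : ℝ) := by
  induction s with
  | zero =>
    intro B α ε _ hα hε
    refine ⟨α, hα, ?_⟩
    intro V _ n F _ A hA
    refine ⟨∅, Finset.empty_subset _, by simp; positivity, ?_⟩
    intro j _ _ l hl _
    have : l = [] := List.length_eq_zero_iff.1 (Nat.le_zero.1 hl)
    subst this
    simpa using hA
  | succ s ih =>
    intro B α ε hB hα hε
    set δ : ℝ := 1 / (2 * ((s : ℝ) + 1)) with hδ
    have hδ0 : 0 < δ := by positivity
    set N : ℝ := B / (δ * α) ^ 2 + 1 with hN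
    have hN0 : 0 < N := by positivity
    obtain ⟨η', hη', H⟩ := ih B (ε * α / (2 * N)) (ε / (2 * N)) hB (by positivity) (by positivity)
    refine ⟨min η' (α / 2), lt_min hη' (by positivity), ?_⟩
    intro V _ n F hF A hA
    rcases Nat.eq_zero_or_pos n with hn | hn
    · refine ⟨∅, Finset.empty_subset _, by simp; positivity, ?_⟩
      intro j _ _ l _ _
      rw [hn]; simp
    have hn' : (0 : ℝ) < n := by exact_mod_cast hn
    set big := F.filter (fun I => δ * A.card ≤ ((I ∩ A).card : ℝ)) with hbig
    have hbigc : (big.card : ℝ) ≤ N := by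
      have h1 := hF (δ * (α * n)) (by positivity)
      have h2 : big.card ≤ (F.filter fun I => δ * (α * n) ≤ (I.card : ℝ)).card := by
        apply Finset.card_le_card
        intro I hI
        rw [hbig, Finset.mem_filter] at hI
        rw [Finset.mem_filter]
        refine ⟨hI.1, ?_⟩
        calc δ * (α * n) ≤ δ * A.card := by gcongr
          _ ≤ ((I ∩ A).card : ℝ) := hI.2
          _ ≤ (I.card : ℝ) := by exact_mod_cast Finset.card_le_card Finset.inter_subset_left
      have h3 : (big.card : ℝ) * (δ * (α * n)) ^ 2 ≤ B * (n : ℝ) ^ 2 := by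
        refine le_trans ?_ h1
        have : (big.card : ℝ) ≤ ((F.filter fun I => δ * (α * n) ≤ (I.card : ℝ)).card : ℝ) := by
          exact_mod_cast h2
        gcongr
      have h4 : (big.card : ℝ) * (δ * α) ^ 2 ≤ B := by
        have h5 : ((big.card : ℝ) * (δ * α) ^ 2) * (n : ℝ) ^ 2 ≤ B * (n : ℝ) ^ 2 := by
          calc ((big.card : ℝ) * (δ * α) ^ 2) * (n : ℝ) ^ 2
              = (big.card : ℝ) * (δ * (α * n)) ^ 2 := by ring
            _ ≤ _ := h3
        exact le_of_mul_le_mul_right h5 (by positivity)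
      have h6 : (big.card : ℝ) ≤ B / (δ * α) ^ 2 := by
        rw [le_div_iff₀ (by positivity)]; exact h4
      linarith
    have hX : ∀ I : Finset V, ∃ X ⊆ A \ I, (X.card : ℝ) ≤ ε / (2 * N) * A.card ∧
        ∀ j ∈ A \ I, j ∉ X → ∀ l : List (Finset V), l.length ≤ s → (∀ I' ∈ l, I' ∈ F ∧ j ∉ I') →
          η' * n ≤ (((A \ I).filter fun x => ∀ I' ∈ l, x ∉ I').card : ℝ) := by
      intro I
      by_cases hI : ε * α / (2 * N) * n ≤ ((A \ I).card : ℝ)
      · obtain ⟨X, h1, h2, h3⟩ := H n F hF (A \ I) hI
        refine ⟨X, h1, h2.trans ?_, h3⟩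
        have : ((A \ I).card : ℝ) ≤ A.card := by
          exact_mod_cast Finset.card_le_card Finset.sdiff_subset
        gcongr
      · refine ⟨A \ I, Finset.Subset.refl _, ?_, fun j hj hj' => absurd hj hj'⟩
        push Not at hI
        calc ((A \ I).card : ℝ) ≤ ε * α / (2 * N) * n := hI.le
          _ = ε / (2 * N) * (α * n) := by ring
          _ ≤ ε / (2 * N) * A.card := by gcongr
    choose X hXs hXc hXp using hX
    refine ⟨big.biUnion X, ?_, ?_, ?_⟩
    · intro x hx
      rw [Finset.mem_biUnion] at hx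
      obtain ⟨I, _, hx⟩ := hx
      exact (Finset.mem_sdiff.1 (hXs I hx)).1
    · have h1 : ((big.biUnion X).card : ℝ) ≤ ∑ I ∈ big, ((X I).card : ℝ) := by
        exact_mod_cast Finset.card_biUnion_le
      have h2 : ∑ I ∈ big, ((X I).card : ℝ) ≤ big.card * (ε / (2 * N) * A.card) := by
        rw [← nsmul_eq_mul]
        exact Finset.sum_le_card_nsmul _ _ _ (fun I _ => hXc I)
      have h3 : (big.card : ℝ) * (ε / (2 * N) * A.card) ≤ N * (ε / (2 * N) * A.card) := by
        gcongr
      have h4 : N * (ε / (2 * N) * A.card) = ε * A.card / 2 := by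
        field_simp
      have h5 : 0 ≤ ε * A.card := by positivity
      linarith
    · intro j hj hjX l hl hlF
      by_cases hb : ∃ I ∈ l, I ∈ big
      · obtain ⟨I, hIl, hIb⟩ := hb
        have hjI : j ∈ A \ I := Finset.mem_sdiff.2 ⟨hj, (hlF I hIl).2⟩
        have hjXI : j ∉ X I := fun h => hjX (Finset.mem_biUnion.2 ⟨I, hIb, h⟩)
        have h1 := hXp I j hjI hjXI (l.erase I) (by
          rw [List.length_erase_of_mem hIl]; omega)
          (fun I' hI' => hlF I' (List.mem_of_mem_erase hI'))
        have h2 : ((A \ I).filter fun x => ∀ I' ∈ l.erase I, x ∉ I') ⊆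
            A.filter fun x => ∀ I' ∈ l, x ∉ I' := by
          intro x hx
          rw [Finset.mem_filter, Finset.mem_sdiff] at hx
          rw [Finset.mem_filter]
          refine ⟨hx.1.1, fun I' hI' => ?_⟩
          by_cases h : I' = I
          · rw [h]; exact hx.1.2
          · exact hx.2 I' ((List.mem_erase_of_ne h).2 hI')
        have h3 : (((A \ I).filter fun x => ∀ I' ∈ l.erase I, x ∉ I').card : ℝ) ≤
            ((A.filter fun x => ∀ I' ∈ l, x ∉ I').card : ℝ) := by
          exact_mod_cast Finset.card_le_card h2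
        calc min η' (α / 2) * n ≤ η' * n := by gcongr; exact min_le_left _ _
          _ ≤ _ := h1
          _ ≤ _ := h3
      · push Not at hb
        have h1 : A ⊆ (A.filter fun x => ∀ I ∈ l, x ∉ I) ∪ l.toFinset.biUnion (fun I => I ∩ A) := by
          intro x hx
          rw [Finset.mem_union, Finset.mem_filter, Finset.mem_biUnion]
          by_cases h : ∀ I ∈ l, x ∉ I
          · exact Or.inl ⟨hx, h⟩
          · push Not at h
            obtain ⟨I, hI, hxI⟩ := h
            exact Or.inr ⟨I, List.mem_toFinset.2 hI, Finset.mem_inter.2 ⟨hxI, hx⟩⟩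
        have h2 : (A.card : ℝ) ≤ ((A.filter fun x => ∀ I ∈ l, x ∉ I).card : ℝ) +
            ∑ I ∈ l.toFinset, ((I ∩ A).card : ℝ) := by
          have h3 := (Finset.card_le_card h1).trans (Finset.card_union_le _ _)
          have h4 : (l.toFinset.biUnion (fun I => I ∩ A)).card ≤
              ∑ I ∈ l.toFinset, (I ∩ A).card := Finset.card_biUnion_le
          exact_mod_cast h3.trans (Nat.add_le_add_left h4 _)
        have h5 : ∑ I ∈ l.toFinset, ((I ∩ A).card : ℝ) ≤ ((s : ℝ) + 1) * (δ * A.card) := by
          have h6 : ∑ I ∈ l.toFinset, ((I ∩ A).card : ℝ) ≤ l.toFinset.card • (δ * A.card) := by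
            apply Finset.sum_le_card_nsmul
            intro I hI
            have hIl := List.mem_toFinset.1 hI
            have : I ∉ big := hb I hIl
            rw [hbig, Finset.mem_filter] at this
            by_contra hcon
            push Not at hcon
            exact this ⟨(hlF I hIl).1, hcon.le⟩
          refine h6.trans ?_
          rw [nsmul_eq_mul]
          have h7 : (l.toFinset.card : ℝ) ≤ (s : ℝ) + 1 := by
            have := (List.toFinset_card_le l).trans hl
            exact_mod_cast this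
          gcongr
        have h8 : ((s : ℝ) + 1) * (δ * A.card) = A.card / 2 := by
          rw [hδ]; field_simp
        have h9 : min η' (α / 2) * n ≤ α / 2 * n := by gcongr; exact min_le_right _ _
        linarith

end Pool.Agent.T2H87.K5
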