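import Pool.Agent.T2H87.K5.Basic
import Pool.Agent.T2H87.K5.Lines

/-!
# The end of the game
-/

set_option autoImplicit false

namespace Pool.Agent.T2H87.K5

open Pool.Agent.R183.HoleGame Filter Topology

theorem cr_comb (p q x y : Pt) (α β : ℝ) (h : α + β = 1) :
    cr p q (α • x + β • y) = α * cr p q x + β * cr p q y := by
  have hβ : β = 1 - α := by linarith
  subst hβ
  simp only [cr, Prod.fst_add, Prod.snd_add, Prod.smul_fst, Prod.smul_snd, smul_eq_mul]
  ring

theorem convex_side (p q : Pt) (σ : ℝ) : Convex ℝ {x : Pt | 0 ≤ σ * cr p q x} := by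
  intro x hx y hy α β hα hβ hαβ
  have hx' : 0 ≤ σ * cr p q x := hx
  have hy' : 0 ≤ σ * cr p q y := hy
  show 0 ≤ σ * cr p q (α • x + β • y)
  rw [cr_comb p q x y α β hαβ]
  have h1 := mul_nonneg hα hx'
  have h2 := mul_nonneg hβ hy'
  nlinarith

theorem convex_line (p q : Pt) : Convex ℝ {x : Pt | cr p q x = 0} := by
  intro x hx y hy α β hα hβ hαβ
  have hx' : cr p q x = 0 := hx
  have hy' : cr p q y = 0 := hy
  show cr p q (α • x + β • y) = 0
  rw [cr_comb p q x y α β hαβ, hx', hy']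
  ring

theorem isHole_of (k : ℕ) (P H : Finset Pt) (hsub : H ⊆ P) (hcard : H.card = k) (hk : 2 ≤ k)
    (h1 : ∀ x ∈ H, x ∉ convexHull ℝ ((H : Set Pt) \ {x}))
    (h2 : ∀ x ∈ P, x ∉ H → x ∉ convexHull ℝ (H : Set Pt)) : IsHole k P H := by
  refine ⟨hsub, hcard, ?_, ?_⟩
  · have := (convexIndependent_set_iff_notMem_convexHull_sdiff (𝕜 := ℝ) (s := (H : Set Pt))).2
      (fun x hx => h1 x hx)
    exact this
  · intro x hx hint
    by_cases hxH : x ∈ H
    · have hne : ∃ y ∈ (H : Set Pt), y ≠ x := by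
        obtain ⟨y, hy, hyx⟩ := Finset.exists_mem_ne (by omega : 1 < H.card) x
        exact ⟨y, hy, hyx⟩
      exact vertex_notMem_interior (H : Set Pt) H.finite_toSet x hxH hne (h1 x hxH) hint
    · exact h2 x hx hxH (interior_subset hint)

/-- an extreme point `u` of the hull of `S ∪ {u}` stays out of the hull when the midpoint of
`p, q ∈ S ∪ {u}` is added -/
theorem add_mid (S : Finset Pt) (u p q : Pt) (hu : u ∉ convexHull ℝ (S : Set Pt))
    (hp : p = u ∨ p ∈ S) (hq : q ∈ S) :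
    u ∉ convexHull ℝ (insert ((1 / 2 : ℝ) • p + (1 / 2 : ℝ) • q) (S : Set Pt)) := by
  have hclosed : IsClosed (convexHull ℝ (S : Set Pt)) :=
    (Set.Finite.isCompact_convexHull ℝ S.finite_toSet).isClosed
  obtain ⟨f, c, h1, h2⟩ := geometric_hahn_banach_point_closed (convex_convexHull ℝ _) hclosed hu
  intro hcon
  have hS : ∀ y ∈ S, f u < f y := fun y hy => h1.trans (h2 y (subset_convexHull ℝ _ hy))
  have hsub : convexHull ℝ (insert ((1 / 2 : ℝ) • p + (1 / 2 : ℝ) • q) (S : Set Pt)) ⊆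
      {y | f u < f y} := by
    apply convexHull_min
    · intro y hy
      rcases hy with rfl | hy
      · show f u < f ((1 / 2 : ℝ) • p + (1 / 2 : ℝ) • q)
        rw [map_add, map_smul, map_smul, smul_eq_mul, smul_eq_mul]
        have h3 : f u ≤ f p := by
          rcases hp with rfl | hp
          · exact le_refl _
          · exact (hS p hp).le
        have h4 := hS q hq
        linarith
      · exact hS y hy
    · exact convex_halfSpace_gt f.isLinear _
  have h5 : f u < f u := hsub hcon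
  exact lt_irrefl _ h5

theorem finish5 (s : ℕ) (M P : Finset Pt) (hMP : M ⊆ P) (hg : GenPos P) (a b c y : Pt)
    (ha : a ∈ M) (hb : b ∈ M) (hc : c ∈ M) (hy : y ∈ M) (hab : a ≠ b) (hac : a ≠ c)
    (hay : a ≠ y) (hbc : b ≠ c) (hby : b ≠ y) (hcy : c ≠ y)
    (h1 : a ∉ convexHull ℝ ({b, c, y} : Set Pt)) (h2 : b ∉ convexHull ℝ ({a, c, y} : Set Pt))
    (h3 : c ∉ convexHull ℝ ({a, b, y} : Set Pt)) (h4 : y ∉ convexHull ℝ ({a, b, c} : Set Pt))
    (hc' : 0 < cr a b c) (hy' : 0 < cr a b y)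
    (he : ∀ x ∈ P, x ≠ a → x ≠ b → x ≠ c → x ≠ y → x ∉ convexHull ℝ ({a, b, c, y} : Set Pt)) :
    MW 5 s M P := by
  set m : Pt := (1 / 2 : ℝ) • a + (1 / 2 : ℝ) • b with hm
  set v : Pt := m - c with hv
  set w : Pt := b - a with hw
  have hvw : v.1 * w.2 - v.2 * w.1 = cr a b c := by
    simp only [hv, hw, hm, cr, Prod.fst_add, Prod.snd_add, Prod.smul_fst, Prod.smul_snd,
      Prod.fst_sub, Prod.snd_sub, smul_eq_mul]
    ring
  have hvw0 : v.1 * w.2 - v.2 * w.1 ≠ 0 := by rw [hvw]; exact hc'.ne'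
  -- stability near `m`
  have e1 : ∀ᶠ d in 𝓝 m, a ∉ convexHull ℝ (insert d (({b, c, y} : Finset Pt) : Set Pt)) := by
    apply hull_stable
    rw [hm]
    apply add_mid _ _ _ _ _ (Or.inl rfl) (by simp)
    simpa using h1
  have e2 : ∀ᶠ d in 𝓝 m, b ∉ convexHull ℝ (insert d (({a, c, y} : Finset Pt) : Set Pt)) := by
    apply hull_stable
    rw [hm, add_comm]
    apply add_mid _ _ _ _ _ (Or.inl rfl) (by simp)
    simpa using h2
  have e3 : ∀ᶠ d in 𝓝 m, c ∉ convexHull ℝ (insert d (({a, b, y} : Finset Pt) : Set Pt)) := by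
    apply hull_stable
    rw [hm]
    apply add_mid _ _ _ _ _ (Or.inr (by simp)) (by simp)
    simpa using h3
  have e4 : ∀ᶠ d in 𝓝 m, y ∉ convexHull ℝ (insert d (({a, b, c} : Finset Pt) : Set Pt)) := by
    apply hull_stable
    rw [hm]
    apply add_mid _ _ _ _ _ (Or.inr (by simp)) (by simp)
    simpa using h4
  have e5 : ∀ᶠ d in 𝓝 m, ∀ x ∈ P, x ≠ a → x ≠ b → x ≠ c → x ≠ y →
      x ∉ convexHull ℝ (insert d (({a, b, c, y} : Finset Pt) : Set Pt)) := by
    rw [Filter.eventually_all_finset]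
    intro x hx
    by_cases hxx : x ≠ a ∧ x ≠ b ∧ x ≠ c ∧ x ≠ y
    · obtain ⟨k1, k2, k3, k4⟩ := hxx
      have := hull_stable ({a, b, c, y} : Finset Pt) m x (by
        rw [hm]
        apply add_mid _ _ _ _ _ (Or.inr (by simp)) (by simp)
        simpa using he x hx k1 k2 k3 k4)
      filter_upwards [this] with d hd _ _ _ _
      exact hd
    · exact Eventually.of_forall fun d k1 k2 k3 k4 => absurd ⟨k1, k2, k3, k4⟩ hxx
  have e6 : ∀ᶠ t : ℝ in 𝓝[>] 0, (0 : ℝ) < t := self_mem_nhdsWithin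
  have hcurve := curve_tendsto m v w
  obtain ⟨t, ⟨⟨⟨⟨hdP, hgen⟩, f1, f2, f3, f4⟩, f5⟩, ht⟩⟩ :=
    ((((curve_legal P m v w hvw0).and ((hcurve.eventually e1).and ((hcurve.eventually e2).and
      ((hcurve.eventually e3).and (hcurve.eventually e4))))).and (hcurve.eventually e5)).and
      e6).exists
  set d : Pt := m + t • v + t ^ 2 • w with hd
  have hcrd : cr a b d = - (t * cr a b c) := by
    simp only [hd, hv, hw, hm, cr, Prod.fst_add, Prod.snd_add, Prod.smul_fst, Prod.smul_snd,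
      Prod.fst_sub, Prod.snd_sub, smul_eq_mul]
    ring
  have h5 : d ∉ convexHull ℝ ({a, b, c, y} : Set Pt) := by
    intro hcon
    have hsub : convexHull ℝ ({a, b, c, y} : Set Pt) ⊆ {x | 0 ≤ 1 * cr a b x} := by
      apply convexHull_min _ (convex_side a b _)
      intro z hz
      simp only [Set.mem_insert_iff, Set.mem_singleton_iff] at hz
      rcases hz with rfl | rfl | rfl | rfl
      · show 0 ≤ 1 * cr z b z
        rw [cr_mid]; simp
      · show 0 ≤ 1 * cr a z z
        rw [cr_right]; simp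
      · show 0 ≤ 1 * cr a b z
        linarith
      · show 0 ≤ 1 * cr a b z
        linarith
    have : 0 ≤ 1 * cr a b d := hsub hcon
    rw [hcrd] at this
    nlinarith
  have haP := hMP ha
  have hbP := hMP hb
  have hcP := hMP hc
  have hyP := hMP hy
  have hda : d ≠ a := fun h => hdP (h ▸ haP)
  have hdb : d ≠ b := fun h => hdP (h ▸ hbP)
  have hdc : d ≠ c := fun h => hdP (h ▸ hcP)
  have hdy : d ≠ y := fun h => hdP (h ▸ hyP)
  refine MW.now M P d (insert d {a, b, c, y}) hdP (hg.insert hgen) ?_ ?_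
  · intro z hz
    simp only [Finset.mem_insert, Finset.mem_singleton] at hz ⊢
    rcases hz with rfl | rfl | rfl | rfl | rfl
    · exact Or.inl rfl
    · exact Or.inr ha
    · exact Or.inr hb
    · exact Or.inr hc
    · exact Or.inr hy
  · apply isHole_of 5 _ _ _ _ (by norm_num)
    · intro x hx
      have hx' : x = d ∨ x = a ∨ x = b ∨ x = c ∨ x = y := by simpa using hx
      intro hcon
      rcases hx' with h | h | h | h | h
      · subst h
        apply h5
        refine convexHull_mono ?_ hcon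
        rintro z ⟨hz, hzx⟩
        simp only [Finset.coe_insert, Finset.coe_singleton, Set.mem_insert_iff,
          Set.mem_singleton_iff] at hz hzx ⊢
        rcases hz with h | h | h | h | h
        all_goals first | exact absurd h hzx | simp only [h, true_or, or_true]
      · subst h
        apply f1
        refine convexHull_mono ?_ hcon
        rintro z ⟨hz, hzx⟩
        simp only [Finset.coe_insert, Finset.coe_singleton, Set.mem_insert_iff,
          Set.mem_singleton_iff] at hz hzx ⊢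
        rcases hz with h | h | h | h | h
        all_goals first | exact absurd h hzx | simp only [h, true_or, or_true]
      · subst h
        apply f2
        refine convexHull_mono ?_ hcon
        rintro z ⟨hz, hzx⟩
        simp only [Finset.coe_insert, Finset.coe_singleton, Set.mem_insert_iff,
          Set.mem_singleton_iff] at hz hzx ⊢
        rcases hz with h | h | h | h | h
        all_goals first | exact absurd h hzx | simp only [h, true_or, or_true]
      · subst h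
        apply f3
        refine convexHull_mono ?_ hcon
        rintro z ⟨hz, hzx⟩
        simp only [Finset.coe_insert, Finset.coe_singleton, Set.mem_insert_iff,
          Set.mem_singleton_iff] at hz hzx ⊢
        rcases hz with h | h | h | h | h
        all_goals first | exact absurd h hzx | simp only [h, true_or, or_true]
      · subst h
        apply f4
        refine convexHull_mono ?_ hcon
        rintro z ⟨hz, hzx⟩
        simp only [Finset.coe_insert, Finset.coe_singleton, Set.mem_insert_iff,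
          Set.mem_singleton_iff] at hz hzx ⊢
        rcases hz with h | h | h | h | h
        all_goals first | exact absurd h hzx | simp only [h, true_or, or_true]
    · intro x hx hxH hcon
      simp only [Finset.mem_insert, Finset.mem_singleton, not_or] at hx hxH
      rcases hx with rfl | hx
      · exact hxH.1 rfl
      · apply f5 x hx hxH.2.1 hxH.2.2.1 hxH.2.2.2.1 hxH.2.2.2.2
        simpa only [Finset.coe_insert] using hcon
    · intro z hz
      simp only [Finset.mem_insert, Finset.mem_singleton] at hz ⊢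
      rcases hz with rfl | rfl | rfl | rfl | rfl
      · exact Or.inl rfl
      · exact Or.inr haP
      · exact Or.inr hbP
      · exact Or.inr hcP
      · exact Or.inr hyP
    · rw [Finset.card_insert_of_notMem (by simp [hda, hdb, hdc, hdy]),
        Finset.card_insert_of_notMem (by simp [hab, hac, hay]),
        Finset.card_insert_of_notMem (by simp [hbc, hby]),
        Finset.card_insert_of_notMem (by simp [hcy])]
      simp

theorem tri_mem (p q r x : Pt) (h : x ∈ convexHull ℝ ({p, q, r} : Set Pt)) :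
    ∃ α β : ℝ, 0 ≤ α ∧ 0 ≤ β ∧ α + β ≤ 1 ∧ x = p + α • (q - p) + β • (r - p) := by
  have hconv : Convex ℝ {x : Pt | ∃ α β : ℝ, 0 ≤ α ∧ 0 ≤ β ∧ α + β ≤ 1 ∧
      x = p + α • (q - p) + β • (r - p)} := by
    rintro x ⟨α, β, hα, hβ, hs, rfl⟩ y ⟨α', β', hα', hβ', hs', rfl⟩ a b ha hb hab
    refine ⟨a * α + b * α', a * β + b * β', by positivity, by positivity, ?_, ?_⟩
    · nlinarith
    · have hb' : b = 1 - a := by linarith
      subst hb'
      apply Prod.ext
      · simp only [Prod.fst_add, Prod.smul_fst, Prod.fst_sub, smul_eq_mul]; ring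
      · simp only [Prod.snd_add, Prod.smul_snd, Prod.snd_sub, smul_eq_mul]; ring
  have hsub : convexHull ℝ ({p, q, r} : Set Pt) ⊆
      {x : Pt | ∃ α β : ℝ, 0 ≤ α ∧ 0 ≤ β ∧ α + β ≤ 1 ∧ x = p + α • (q - p) + β • (r - p)} := by
    apply convexHull_min _ hconv
    rintro y (rfl | rfl | rfl)
    · exact ⟨0, 0, le_rfl, le_rfl, by norm_num, by simp⟩
    · exact ⟨1, 0, zero_le_one, le_rfl, by norm_num, by simp⟩
    · exact ⟨0, 1, le_rfl, zero_le_one, by norm_num, by simp⟩
  exact hsub h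

theorem quad_cone (p q r u x : Pt) (h : x ∈ convexHull ℝ ({p, q, r, u} : Set Pt)) :
    ∃ α β γ : ℝ, 0 ≤ α ∧ 0 ≤ β ∧ 0 ≤ γ ∧
      x = p + (α • (q - p) + β • (r - p) + γ • (u - p)) := by
  have hconv : Convex ℝ {x : Pt | ∃ α β γ : ℝ, 0 ≤ α ∧ 0 ≤ β ∧ 0 ≤ γ ∧
      x = p + (α • (q - p) + β • (r - p) + γ • (u - p))} := by
    rintro x ⟨α, β, γ, hα, hβ, hγ, rfl⟩ y ⟨α', β', γ', hα', hβ', hγ', rfl⟩ a b ha hb hab
    refine ⟨a * α + b * α', a * β + b * β', a * γ + b * γ', by positivity, by positivity,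
      by positivity, ?_⟩
    have hb' : b = 1 - a := by linarith
    subst hb'
    apply Prod.ext
    · simp only [Prod.fst_add, Prod.smul_fst, Prod.fst_sub, smul_eq_mul]; ring
    · simp only [Prod.snd_add, Prod.smul_snd, Prod.snd_sub, smul_eq_mul]; ring
  have hsub : convexHull ℝ ({p, q, r, u} : Set Pt) ⊆
      {x : Pt | ∃ α β γ : ℝ, 0 ≤ α ∧ 0 ≤ β ∧ 0 ≤ γ ∧
        x = p + (α • (q - p) + β • (r - p) + γ • (u - p))} := by
    apply convexHull_min _ hconv
    rintro y (rfl | rfl | rfl | rfl)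
    · exact ⟨0, 0, 0, le_rfl, le_rfl, le_rfl, by simp⟩
    · exact ⟨1, 0, 0, zero_le_one, le_rfl, le_rfl, by simp⟩
    · exact ⟨0, 1, 0, le_rfl, zero_le_one, le_rfl, by simp⟩
    · exact ⟨0, 0, 1, le_rfl, le_rfl, zero_le_one, by simp⟩
  exact hsub h

theorem pos_of_three {β₁ β₂ β₃ c₁ c₂ c₃ : ℝ} (h1 : 0 ≤ β₁) (h2 : 0 ≤ β₂) (h3 : 0 ≤ β₃)
    (h : 0 < β₁ ∨ 0 < β₂ ∨ 0 < β₃) (k1 : 0 < c₁) (k2 : 0 < c₂) (k3 : 0 < c₃) :
    0 < β₁ * c₁ + β₂ * c₂ + β₃ * c₃ := by
  rcases h with h | h | h <;> positivity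

/-- separated cones with apex `y` meet only in `y` -/
theorem quad_disjoint (y u₁ u₂ u₃ w₁ w₂ w₃ x : Pt) (σ : ℝ)
    (h11 : 0 < σ * cr y u₁ w₁) (h12 : 0 < σ * cr y u₁ w₂) (h13 : 0 < σ * cr y u₁ w₃)
    (h21 : 0 < σ * cr y u₂ w₁) (h22 : 0 < σ * cr y u₂ w₂) (h23 : 0 < σ * cr y u₂ w₃)
    (h31 : 0 < σ * cr y u₃ w₁) (h32 : 0 < σ * cr y u₃ w₂) (h33 : 0 < σ * cr y u₃ w₃)
    (hx : x ∈ convexHull ℝ ({y, u₁, u₂, u₃} : Set Pt))
    (hx' : x ∈ convexHull ℝ ({y, w₁, w₂, w₃} : Set Pt)) : x = y := by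
  obtain ⟨α₁, α₂, α₃, a1, a2, a3, e⟩ := quad_cone y u₁ u₂ u₃ x hx
  obtain ⟨β₁, β₂, β₃, b1, b2, b3, e'⟩ := quad_cone y w₁ w₂ w₃ x hx'
  by_cases hβ : 0 < β₁ ∨ 0 < β₂ ∨ 0 < β₃
  · have g1 := pos_of_three b1 b2 b3 hβ h11 h12 h13
    have g2 := pos_of_three b1 b2 b3 hβ h21 h22 h23
    have g3 := pos_of_three b1 b2 b3 hβ h31 h32 h33
    have key : α₁ * (β₁ * (σ * cr y u₁ w₁) + β₂ * (σ * cr y u₁ w₂) + β₃ * (σ * cr y u₁ w₃)) +
        α₂ * (β₁ * (σ * cr y u₂ w₁) + β₂ * (σ * cr y u₂ w₂) + β₃ * (σ * cr y u₂ w₃)) +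
        α₃ * (β₁ * (σ * cr y u₃ w₁) + β₂ * (σ * cr y u₃ w₂) + β₃ * (σ * cr y u₃ w₃)) = 0 := by
      have f1 : x.1 - y.1 = α₁ * (u₁.1 - y.1) + α₂ * (u₂.1 - y.1) + α₃ * (u₃.1 - y.1) := by
        have := congrArg Prod.fst e
        simp only [Prod.fst_add, Prod.smul_fst, Prod.fst_sub, smul_eq_mul] at this
        linarith
      have f2 : x.2 - y.2 = α₁ * (u₁.2 - y.2) + α₂ * (u₂.2 - y.2) + α₃ * (u₃.2 - y.2) := by
        have := congrArg Prod.snd e
        simp only [Prod.snd_add, Prod.smul_snd, Prod.snd_sub, smul_eq_mul] at this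
        linarith
      have f3 : x.1 - y.1 = β₁ * (w₁.1 - y.1) + β₂ * (w₂.1 - y.1) + β₃ * (w₃.1 - y.1) := by
        have := congrArg Prod.fst e'
        simp only [Prod.fst_add, Prod.smul_fst, Prod.fst_sub, smul_eq_mul] at this
        linarith
      have f4 : x.2 - y.2 = β₁ * (w₁.2 - y.2) + β₂ * (w₂.2 - y.2) + β₃ * (w₃.2 - y.2) := by
        have := congrArg Prod.snd e'
        simp only [Prod.snd_add, Prod.smul_snd, Prod.snd_sub, smul_eq_mul] at this
        linarith
      have : σ * ((x.1 - y.1) * (x.2 - y.2) - (x.2 - y.2) * (x.1 - y.1)) = 0 := by ring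
      rw [show (x.1 - y.1) * (x.2 - y.2) - (x.2 - y.2) * (x.1 - y.1) =
        (α₁ * (u₁.1 - y.1) + α₂ * (u₂.1 - y.1) + α₃ * (u₃.1 - y.1)) *
          (β₁ * (w₁.2 - y.2) + β₂ * (w₂.2 - y.2) + β₃ * (w₃.2 - y.2)) -
        (α₁ * (u₁.2 - y.2) + α₂ * (u₂.2 - y.2) + α₃ * (u₃.2 - y.2)) *
          (β₁ * (w₁.1 - y.1) + β₂ * (w₂.1 - y.1) + β₃ * (w₃.1 - y.1)) from by
          rw [← f1, ← f2, ← f3, ← f4]] at this
      unfold cr
      linarith
    have p1 := mul_nonneg a1 g1.le
    have p2 := mul_nonneg a2 g2.le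
    have p3 := mul_nonneg a3 g3.le
    have z1 : α₁ = 0 := (mul_eq_zero.1 (by linarith : α₁ * (β₁ * (σ * cr y u₁ w₁) +
      β₂ * (σ * cr y u₁ w₂) + β₃ * (σ * cr y u₁ w₃)) = 0)).resolve_right g1.ne'
    have z2 : α₂ = 0 := (mul_eq_zero.1 (by linarith : α₂ * (β₁ * (σ * cr y u₂ w₁) +
      β₂ * (σ * cr y u₂ w₂) + β₃ * (σ * cr y u₂ w₃)) = 0)).resolve_right g2.ne'
    have z3 : α₃ = 0 := (mul_eq_zero.1 (by linarith : α₃ * (β₁ * (σ * cr y u₃ w₁) +
      β₂ * (σ * cr y u₃ w₂) + β₃ * (σ * cr y u₃ w₃)) = 0)).resolve_right g3.ne'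
    rw [e, z1, z2, z3]; simp
  · push Not at hβ
    have z1 : β₁ = 0 := le_antisymm hβ.1 b1
    have z2 : β₂ = 0 := le_antisymm hβ.2.1 b2
    have z3 : β₃ = 0 := le_antisymm hβ.2.2 b3
    rw [e', z1, z2, z3]; simp

theorem cr_cont (u w : Pt) : Continuous fun q : Pt => cr q u w := by
  unfold cr
  fun_prop

theorem g1 {a b c Q : Pt} {β : ℝ} (hβ0 : 0 < β) (hβ1 : β < 1) (hb : b = Q + β • (a - Q))
    (hc : 0 < cr a Q c) : a ∉ convexHull ℝ ({Q, b, c} : Set Pt) := by
  intro hcon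
  obtain ⟨α, γ, h1, h2, h3, h4⟩ := tri_mem _ _ _ _ hcon
  have f1 := congrArg Prod.fst h4
  have f2 := congrArg Prod.snd h4
  subst hb
  simp only [Prod.fst_add, Prod.smul_fst, Prod.fst_sub, smul_eq_mul, Prod.snd_add, Prod.smul_snd,
    Prod.snd_sub] at f1 f2
  have h5 : (1 - α * β) * cr a Q c = 0 := by
    unfold cr
    linear_combination (-(c.2 - Q.2)) * f1 + (c.1 - Q.1) * f2
  have h6 : α * β < 1 := by nlinarith
  nlinarith

theorem g2 {a b c Q : Pt} {β : ℝ} (hb : b = Q + β • (a - Q))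
    (hc : 0 < cr a Q c) : c ∉ convexHull ℝ ({Q, a, b} : Set Pt) := by
  intro hcon
  have hsub : convexHull ℝ ({Q, a, b} : Set Pt) ⊆ {x | cr a Q x = 0} := by
    apply convexHull_min _ (convex_line a Q)
    intro y hy
    simp only [Set.mem_insert_iff, Set.mem_singleton_iff] at hy
    rcases hy with rfl | rfl | rfl
    · exact cr_right _ _
    · exact cr_mid _ _
    · show cr a Q y = 0
      rw [hb]; unfold cr; simp; ring
  have : cr a Q c = 0 := hsub hcon
  linarith

theorem g3 {a b c Q : Pt} {β : ℝ} (hβ0 : 0 < β) (hβ1 : β < 1) (hb : b = Q + β • (a - Q))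
    (hc : 0 < cr a Q c) : Q ∉ convexHull ℝ ({a, b, c} : Set Pt) := by
  intro hcon
  obtain ⟨α, γ, h1, h2, h3, h4⟩ := tri_mem _ _ _ _ hcon
  have f1 := congrArg Prod.fst h4
  have f2 := congrArg Prod.snd h4
  subst hb
  simp only [Prod.fst_add, Prod.smul_fst, Prod.fst_sub, smul_eq_mul, Prod.snd_add, Prod.smul_snd,
    Prod.snd_sub] at f1 f2
  have h5 : (1 - α * (1 - β)) * cr a Q c = 0 := by
    unfold cr
    linear_combination (c.2 - a.2) * f1 - (c.1 - a.1) * f2
  have h6 : α * (1 - β) < 1 := by nlinarith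
  nlinarith

theorem g4 {a b c Q : Pt} {β : ℝ} (hβ0 : 0 < β) (hβ1 : β < 1) (hb : b = Q + β • (a - Q)) :
    convexHull ℝ ({Q, a, b, c} : Set Pt) ⊆ convexHull ℝ ({c, a, Q} : Set Pt) := by
  apply convexHull_min _ (convex_convexHull ℝ _)
  intro y hy
  simp only [Set.mem_insert_iff, Set.mem_singleton_iff] at hy
  have hQ : Q ∈ convexHull ℝ ({c, a, Q} : Set Pt) := subset_convexHull ℝ _ (by simp)
  have ha : a ∈ convexHull ℝ ({c, a, Q} : Set Pt) := subset_convexHull ℝ _ (by simp)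
  rcases hy with rfl | rfl | rfl | rfl
  · exact hQ
  · exact ha
  · have := (convex_convexHull ℝ ({c, a, Q} : Set Pt)) hQ ha (by linarith : (0 : ℝ) ≤ 1 - β)
      hβ0.le (by ring)
    have h2 : y = (1 - β) • Q + β • a := by
      rw [hb, smul_sub, sub_smul, one_smul]; abel
    rw [h2]; exact this
  · exact subset_convexHull ℝ _ (by simp)

theorem yphase {ι : Type} [DecidableEq ι] (s : ℕ) (Q v : Pt) (G : Finset ι)
    (hG : G.card = s + 1) (a b c : ι → Pt) (M P : Finset Pt) (hMP : M ⊆ P) (hg : GenPos P)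
    (ha : ∀ g ∈ G, a g ∈ M) (hb : ∀ g ∈ G, b g ∈ M) (hc : ∀ g ∈ G, c g ∈ M)
    (hβ : ∀ g ∈ G, ∃ β : ℝ, 0 < β ∧ β < 1 ∧ b g = Q + β • (a g - Q))
    (hv : ∀ g ∈ G, 0 < dt (Q - a g) v) (hca : ∀ g ∈ G, 0 < cr (a g) Q (c g))
    (hT : ∀ g ∈ G, ∀ x ∈ P, x ≠ a g → x ≠ b g → x ≠ c g →
      x ∉ convexHull ℝ ({c g, a g, Q} : Set Pt))
    (hw : ∀ g ∈ G, ∀ g' ∈ G, g ≠ g' → ∃ σ : ℝ, 0 < σ * cr Q (a g) (a g') ∧
      0 < σ * cr Q (a g) (c g') ∧ 0 < σ * cr Q (c g) (a g') ∧ 0 < σ * cr Q (c g) (c g')) :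
    MW 5 s M P := by
  classical
  have hGne : G.Nonempty := by rw [← Finset.card_pos]; omega
  choose! β hβ0 hβ1 hβ using hβ
  -- a transversal direction
  set w : Pt := (-v.2, v.1) with hw'
  have hvw : v.1 * w.2 - v.2 * w.1 ≠ 0 := by
    obtain ⟨g, hg'⟩ := hGne
    intro h0
    have h1 : v.1 ^ 2 + v.2 ^ 2 = 0 := by
      simp only [hw'] at h0; nlinarith
    have h2 : v.1 = 0 := by nlinarith [sq_nonneg v.1, sq_nonneg v.2]
    have h3 : v.2 = 0 := by nlinarith [sq_nonneg v.1, sq_nonneg v.2]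
    have := hv g hg'
    unfold dt at this
    rw [h2, h3] at this
    simp at this
  have haQ : ∀ g ∈ G, a g ≠ Q := by
    intro g hg' h
    have := hca g hg'
    rw [h, cr_left] at this
    exact lt_irrefl _ this
  have hcrb : ∀ g ∈ G, cr (a g) Q (b g) = 0 := by
    intro g hg'
    rw [hβ g hg']
    unfold cr; simp; ring
  have hac : ∀ g ∈ G, a g ≠ c g := by
    intro g hg' h
    have := hca g hg'
    rw [← h, cr_mid] at this
    exact lt_irrefl _ this
  have hbc : ∀ g ∈ G, b g ≠ c g := by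
    intro g hg' h
    have := hca g hg'
    rw [← h, hcrb g hg'] at this
    exact lt_irrefl _ this
  have hab : ∀ g ∈ G, a g ≠ b g := by
    intro g hg' h
    have h1 : (1 - β g) • (a g - Q) = 0 := by
      have h2 := hβ g hg'
      rw [← h] at h2
      have h3 : a g - Q = β g • (a g - Q) := by
        nth_rewrite 1 [h2]; simp
      rw [sub_smul, one_smul]
      nth_rewrite 1 [h3]
      simp
    rcases smul_eq_zero.1 h1 with h2 | h2
    · linarith [hβ1 g hg']
    · exact haQ g hg' (sub_eq_zero.1 h2)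
  -- conditions near `Q`
  have e1 : ∀ᶠ y in 𝓝 Q, ∀ g ∈ G,
      a g ∉ convexHull ℝ (insert y (({b g, c g} : Finset Pt) : Set Pt)) := by
    rw [Filter.eventually_all_finset]
    intro g hg'
    apply hull_stable
    have := g1 (hβ0 g hg') (hβ1 g hg') (hβ g hg') (hca g hg')
    simpa using this
  have e2 : ∀ᶠ y in 𝓝 Q, ∀ g ∈ G,
      c g ∉ convexHull ℝ (insert y (({a g, b g} : Finset Pt) : Set Pt)) := by
    rw [Filter.eventually_all_finset]
    intro g hg'
    apply hull_stable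
    have := g2 (hβ g hg') (hca g hg')
    simpa using this
  have e3 : ∀ᶠ y in 𝓝 Q, ∀ g ∈ G, y ∉ convexHull ℝ ({a g, b g, c g} : Set Pt) := by
    rw [Filter.eventually_all_finset]
    intro g hg'
    have hcl : IsClosed (convexHull ℝ ({a g, b g, c g} : Set Pt)) :=
      (Set.Finite.isCompact_convexHull ℝ (by simp)).isClosed
    exact hcl.isOpen_compl.mem_nhds (g3 (hβ0 g hg') (hβ1 g hg') (hβ g hg') (hca g hg'))
  have e4 : ∀ᶠ y in 𝓝 Q, ∀ g ∈ G, ∀ x ∈ P, x ≠ a g → x ≠ b g → x ≠ c g →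
      x ∉ convexHull ℝ (insert y (({a g, b g, c g} : Finset Pt) : Set Pt)) := by
    rw [Filter.eventually_all_finset]
    intro g hg'
    rw [Filter.eventually_all_finset]
    intro x hx
    by_cases hxx : x ≠ a g ∧ x ≠ b g ∧ x ≠ c g
    · obtain ⟨k1, k2, k3⟩ := hxx
      have := hull_stable ({a g, b g, c g} : Finset Pt) Q x (by
        intro hcon
        apply hT g hg' x hx k1 k2 k3
        apply g4 (hβ0 g hg') (hβ1 g hg') (hβ g hg')
        simpa using hcon)
      filter_upwards [this] with d hd _ _ _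
      exact hd
    · exact Eventually.of_forall fun d k1 k2 k3 => absurd ⟨k1, k2, k3⟩ hxx
  have e5 : ∀ᶠ y in 𝓝 Q, ∀ g ∈ G, 0 < cr (a g) y (c g) := by
    rw [Filter.eventually_all_finset]
    intro g hg'
    have hcont : Continuous fun y : Pt => cr (a g) y (c g) := by
      unfold cr; fun_prop
    exact (hcont.tendsto Q).eventually_const_lt (hca g hg')
  choose! σ hw1 hw2 hw3 hw4 using hw
  have hpos : ∀ u v : Pt, ∀ σ : ℝ, 0 < σ * cr Q u v → ∀ᶠ q in 𝓝 Q, 0 < σ * cr q u v := by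
    intro u v σ h
    exact (((cr_cont u v).const_mul σ).tendsto Q).eventually_const_lt h
  have hbQ : ∀ g ∈ G, ∀ u : Pt, cr Q (b g) u = β g * cr Q (a g) u := by
    intro g hg' u
    rw [hβ g hg']; unfold cr; simp; ring
  have hbQ' : ∀ g ∈ G, ∀ u : Pt, cr Q u (b g) = β g * cr Q u (a g) := by
    intro g hg' u
    rw [hβ g hg']; unfold cr; simp; ring
  have e6 : ∀ᶠ y in 𝓝 Q, ∀ g ∈ G, ∀ g' ∈ G, g ≠ g' →
      ((0 < σ g g' * cr y (a g) (a g') ∧ 0 < σ g g' * cr y (a g) (b g') ∧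
        0 < σ g g' * cr y (a g) (c g')) ∧
      (0 < σ g g' * cr y (b g) (a g') ∧ 0 < σ g g' * cr y (b g) (b g') ∧
        0 < σ g g' * cr y (b g) (c g')) ∧
      (0 < σ g g' * cr y (c g) (a g') ∧ 0 < σ g g' * cr y (c g) (b g') ∧
        0 < σ g g' * cr y (c g) (c g'))) := by
    rw [Filter.eventually_all_finset]
    intro g hg'
    rw [Filter.eventually_all_finset]
    intro g' hg''
    by_cases hgg : g = g'
    · exact Eventually.of_forall fun _ h => absurd hgg h
    have p1 := hw1 g hg' g' hg'' hgg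
    have p2 := hw2 g hg' g' hg'' hgg
    have p3 := hw3 g hg' g' hg'' hgg
    have p4 := hw4 g hg' g' hg'' hgg
    have b0 := hβ0 g hg'
    have b0' := hβ0 g' hg''
    have q1 := hpos (a g) (a g') (σ g g') p1
    have q2 := hpos (a g) (b g') (σ g g') (by
      rw [hbQ' g' hg'']; have := mul_pos b0' p1; linarith)
    have q3 := hpos (a g) (c g') (σ g g') p2
    have q4 := hpos (b g) (a g') (σ g g') (by
      rw [hbQ g hg']; have := mul_pos b0 p1; linarith)
    have q5 := hpos (b g) (b g') (σ g g') (by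
      rw [hbQ g hg', hbQ' g' hg'']
      have := mul_pos b0 (mul_pos b0' p1)
      linarith)
    have q6 := hpos (b g) (c g') (σ g g') (by
      rw [hbQ g hg']; have := mul_pos b0 p2; linarith)
    have q7 := hpos (c g) (a g') (σ g g') p3
    have q8 := hpos (c g) (b g') (σ g g') (by
      rw [hbQ' g' hg'']; have := mul_pos b0' p3; linarith)
    have q9 := hpos (c g) (c g') (σ g g') p4
    filter_upwards [q1, q2, q3, q4, q5, q6, q7, q8, q9] with y r1 r2 r3 r4 r5 r6 r7 r8 r9 _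
    exact ⟨⟨r1, r2, r3⟩, ⟨r4, r5, r6⟩, ⟨r7, r8, r9⟩⟩
  -- above the lines
  have e7 : ∀ᶠ t : ℝ in 𝓝[>] 0, ∀ g ∈ G, 0 < cr (a g) (b g) (Q + t • v + t ^ 2 • w) := by
    rw [Filter.eventually_all_finset]
    intro g hg'
    have hform : ∀ t : ℝ, cr (a g) (b g) (Q + t • v + t ^ 2 • w) =
        (1 - β g) * (t * (dt (Q - a g) v + t * dt (Q - a g) w)) := by
      intro t
      rw [hβ g hg']
      unfold cr dt; simp; ring
    have hcont : Continuous fun t : ℝ => dt (Q - a g) v + t * dt (Q - a g) w := by fun_prop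
    have h1 : ∀ᶠ t : ℝ in 𝓝 0, 0 < dt (Q - a g) v + t * dt (Q - a g) w := by
      apply (hcont.tendsto 0).eventually_const_lt
      simpa using hv g hg'
    filter_upwards [self_mem_nhdsWithin, h1.filter_mono nhdsWithin_le_nhds] with t ht h2
    have ht' : (0 : ℝ) < t := ht
    rw [hform]
    have := hβ1 g hg'
    exact mul_pos (by linarith) (mul_pos ht' h2)
  have hcurve := curve_tendsto Q v w
  obtain ⟨t, ⟨⟨⟨hyP, hygen⟩, f1, f2, f3, f4, f5, f6⟩, f7⟩⟩ :=
    (((curve_legal P Q v w hvw).and ((hcurve.eventually e1).and ((hcurve.eventually e2).and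
      ((hcurve.eventually e3).and ((hcurve.eventually e4).and ((hcurve.eventually e5).and
        (hcurve.eventually e6))))))).and e7).exists
  set y : Pt := Q + t • v + t ^ 2 • w with hy
  refine MW.later M P y hyP (hg.insert hygen) ?_
  intro R hR hdisj hgR
  have hfree : ∃ g ∈ G, ∀ r ∈ R, r ∉ convexHull ℝ ({y, a g, b g, c g} : Set Pt) := by
    by_contra hcon
    push Not at hcon
    choose! r hrR hrc using hcon
    obtain ⟨g, hg', g', hg'', hgg, hrr⟩ :=
      Finset.exists_ne_map_eq_of_card_lt_of_maps_to (s := G) (t := R) (by omega)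
        (f := r) (fun c hc => hrR c hc)
    obtain ⟨⟨r1, r2, r3⟩, ⟨r4, r5, r6⟩, ⟨r7, r8, r9⟩⟩ := f6 g hg' g' hg'' hgg
    have hx' : r g ∈ convexHull ℝ ({y, a g', b g', c g'} : Set Pt) := by
      rw [hrr]; exact hrc g' hg''
    have := quad_disjoint y (a g) (b g) (c g) (a g') (b g') (c g') (r g) _ r1 r2 r3 r4 r5 r6 r7 r8 r9
      (hrc g hg') hx'
    have hmem := hrR g hg'
    rw [this] at hmem
    exact Finset.disjoint_left.1 hdisj hmem (Finset.mem_insert_self _ _)
  obtain ⟨g, hg', hfree⟩ := hfree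
  have hsubM : M ⊆ insert y M := Finset.subset_insert _ _
  have hsubP : P ⊆ insert y P ∪ R := fun z hz =>
    Finset.mem_union_left _ (Finset.mem_insert_of_mem hz)
  have hyM : ∀ z ∈ M, z ≠ y := fun z hz h => hyP (h ▸ hMP hz)
  have hset : ({a g, b g, c g, y} : Set Pt) = {y, a g, b g, c g} := by
    ext z; simp only [Set.mem_insert_iff, Set.mem_singleton_iff]; tauto
  have hcrab : ∀ u : Pt, cr (a g) (b g) u = (1 - β g) * cr (a g) Q u := by
    intro u
    nth_rewrite 1 [hβ g hg']; unfold cr; simp; ring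
  have hβ1' := hβ1 g hg'
  apply finish5 s (insert y M) (insert y P ∪ R) _ hgR (a g) (b g) (c g) y (hsubM (ha g hg'))
    (hsubM (hb g hg')) (hsubM (hc g hg')) (Finset.mem_insert_self _ _) (hab g hg') (hac g hg')
    (hyM _ (ha g hg')) (hbc g hg') (hyM _ (hb g hg')) (hyM _ (hc g hg'))
  · intro hcon
    apply f1 g hg'
    have : (insert y (({b g, c g} : Finset Pt) : Set Pt)) = {b g, c g, y} := by
      ext z; simp only [Finset.coe_insert, Finset.coe_singleton, Set.mem_insert_iff,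
        Set.mem_singleton_iff]; tauto
    rw [this]; exact hcon
  · intro hcon
    have hsub : convexHull ℝ ({a g, c g, y} : Set Pt) ⊆ {x | 0 ≤ 1 * cr (a g) y x} := by
      apply convexHull_min _ (convex_side (a g) y _)
      intro z hz
      simp only [Set.mem_insert_iff, Set.mem_singleton_iff] at hz
      rcases hz with rfl | rfl | rfl
      · show 0 ≤ 1 * cr (a g) y (a g)
        rw [cr_mid]; simp
      · show 0 ≤ 1 * cr (a g) y (c g)
        linarith [f5 g hg']
      · show 0 ≤ 1 * cr (a g) y y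
        rw [cr_right]; simp
    have h1 : 0 ≤ 1 * cr (a g) y (b g) := hsub hcon
    have h2 := f7 g hg'
    rw [cr_swap] at h1
    linarith
  · intro hcon
    apply f2 g hg'
    have : (insert y (({a g, b g} : Finset Pt) : Set Pt)) = {a g, b g, y} := by
      ext z; simp only [Finset.coe_insert, Finset.coe_singleton, Set.mem_insert_iff,
        Set.mem_singleton_iff]; tauto
    rw [this]; exact hcon
  · exact f3 g hg'
  · rw [hcrab]
    exact mul_pos (by linarith) (hca g hg')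
  · exact f7 g hg'
  · intro x hx hxa hxb hxc hxy
    rw [hset]
    rw [Finset.mem_union, Finset.mem_insert] at hx
    rcases hx with (hx | hx) | hx
    · exact absurd hx hxy
    · have := f4 g hg' x hx hxa hxb hxc
      simpa only [Finset.coe_insert, Finset.coe_singleton] using this
    · exact hfree x hx
  · intro z hz
    rw [Finset.mem_insert] at hz
    rw [Finset.mem_union, Finset.mem_insert]
    rcases hz with h | h
    · exact Or.inl (Or.inl h)
    · exact Or.inl (Or.inr (hMP h))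

end Pool.Agent.T2H87.K5
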