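import Pool.Agent.T2H87.K5.Lines

/-!
# Generic points
-/

set_option autoImplicit false

namespace Pool.Agent.T2H87.K5

open Pool.Agent.R183.HoleGame Filter Topology

theorem an_fst0 {q : Pt} : AnalyticAt ℝ (fun q : Pt => q.1) q := analyticAt_fst

theorem an_snd0 {q : Pt} : AnalyticAt ℝ (fun q : Pt => q.2) q := analyticAt_snd

attribute [local fun_prop] an_fst0 an_snd0

/-- a nonzero analytic function is nonzero at generic points -/
theorem ev_ne {f : Pt → ℝ} (hf : ∀ q, AnalyticAt ℝ f q) (q₀ : Pt) (h : f q₀ ≠ 0) :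
    ∀ᶠ q in residual Pt, f q ≠ 0 := by
  have hcont : Continuous f := continuous_iff_continuousAt.2 fun q => (hf q).continuousAt
  have hset : {q : Pt | f q ≠ 0} = {q : Pt | f q = 0}ᶜ := rfl
  apply residual_of_dense_open
  · exact isOpen_ne_fun hcont continuous_const
  · rw [hset, ← interior_eq_empty_iff_dense_compl]
    by_contra hne
    rw [← Ne, ← Set.nonempty_iff_ne_empty] at hne
    obtain ⟨z₀, hz₀⟩ := hne
    have h1 : f =ᶠ[𝓝 z₀] 0 := mem_interior_iff_mem_nhds.1 hz₀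
    have h2 : AnalyticOnNhd ℝ f Set.univ := fun q _ => hf q
    exact h (h2.eqOn_zero_of_preconnected_of_eventuallyEq_zero isPreconnected_univ
      (Set.mem_univ z₀) h1 (Set.mem_univ q₀))

theorem gen_exists {φ : Pt → Prop} (h : ∀ᶠ q in residual Pt, φ q) {U : Set Pt} (hU : IsOpen U)
    (hne : U.Nonempty) : ∃ q ∈ U, φ q := by
  obtain ⟨q, hq1, hq2⟩ := (dense_of_mem_residual h).inter_open_nonempty U hU hne
  exact ⟨q, hq1, hq2⟩

/-- rotation by a right angle -/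
def rot (u : Pt) : Pt := (-u.2, u.1)

theorem rot_fst (u : Pt) : (rot u).1 = -u.2 := rfl

theorem rot_snd (u : Pt) : (rot u).2 = u.1 := rfl

theorem sq_pos {u : Pt} (hu : u ≠ 0) : 0 < u.1 * u.1 + u.2 * u.2 := by
  rcases (add_nonneg (mul_self_nonneg u.1) (mul_self_nonneg u.2)).lt_or_eq with h | h
  · exact h
  · exfalso
    apply hu
    have h1 : u.1 * u.1 = 0 := by nlinarith [mul_self_nonneg u.1, mul_self_nonneg u.2]
    have h2 : u.2 * u.2 = 0 := by nlinarith [mul_self_nonneg u.1, mul_self_nonneg u.2]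
    exact Prod.ext (mul_self_eq_zero.1 h1) (mul_self_eq_zero.1 h2)

theorem ev_cr {x y : Pt} (hxy : x ≠ y) : ∀ᶠ q in residual Pt, cr x y q ≠ 0 := by
  apply ev_ne (f := fun q => cr x y q) (fun q => by unfold cr; fun_prop) (x + rot (y - x))
  have h := sq_pos (sub_ne_zero.2 hxy.symm)
  have : cr x y (x + rot (y - x)) = (y - x).1 * (y - x).1 + (y - x).2 * (y - x).2 := by
    unfold cr
    simp only [Prod.fst_add, Prod.snd_add, rot_fst, rot_snd, Prod.fst_sub, Prod.snd_sub]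
    ring
  rw [this]
  exact h.ne'

theorem ev_cr_mid {x y : Pt} (hxy : x ≠ y) (e : Pt) :
    ∀ᶠ q in residual Pt, cr x y (mid q e) ≠ 0 := by
  apply ev_ne (f := fun q => cr x y (mid q e))
    (fun q => by unfold cr; simp only [mid_fst, mid_snd]; fun_prop)
    ((2 : ℝ) • (x + rot (y - x)) - e)
  have h := sq_pos (sub_ne_zero.2 hxy.symm)
  have : cr x y (mid ((2 : ℝ) • (x + rot (y - x)) - e) e) =
      (y - x).1 * (y - x).1 + (y - x).2 * (y - x).2 := by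
    unfold cr
    simp only [mid_fst, mid_snd, Prod.fst_add, Prod.snd_add, rot_fst, rot_snd, Prod.fst_sub,
      Prod.snd_sub, Prod.smul_fst, Prod.smul_snd, smul_eq_mul]
    ring
  rw [this]
  exact h.ne'

theorem ev_mem (P : Finset Pt) : ∀ᶠ q in residual Pt, q ∉ P := by
  have : ∀ᶠ q in residual Pt, ∀ x ∈ P, cr x (x + (1, 0)) q ≠ 0 := by
    rw [Filter.eventually_all_finset]
    intro x _
    apply ev_cr
    intro h
    have := congrArg Prod.fst h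
    simp at this
  filter_upwards [this] with q hq hmem
  exact hq q hmem (cr_mid _ _)

theorem ev_mem_mid (P : Finset Pt) (e : Pt) : ∀ᶠ q in residual Pt, mid q e ∉ P := by
  have : ∀ᶠ q in residual Pt, ∀ x ∈ P, cr x (x + (1, 0)) (mid q e) ≠ 0 := by
    rw [Filter.eventually_all_finset]
    intro x _
    apply ev_cr_mid
    intro h
    have := congrArg Prod.fst h
    simp at this
  filter_upwards [this] with q hq hmem
  exact hq _ hmem (cr_mid _ _)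

theorem ev_pair (z : Pt) {e e' : Pt} (hee : e ≠ e') :
    ∀ᶠ q in residual Pt, cr z (mid q e) (mid q e') ≠ 0 := by
  apply ev_ne (f := fun q => cr z (mid q e) (mid q e'))
    (fun q => by unfold cr; simp only [mid_fst, mid_snd]; fun_prop)
    ((2 : ℝ) • (z + rot (e' - e)) - e)
  have h := sq_pos (sub_ne_zero.2 hee.symm)
  have : cr z (mid ((2 : ℝ) • (z + rot (e' - e)) - e) e)
      (mid ((2 : ℝ) • (z + rot (e' - e)) - e) e') =
      - (((e' - e).1 * (e' - e).1 + (e' - e).2 * (e' - e).2) / 2) := by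
    unfold cr
    simp only [mid_fst, mid_snd, Prod.fst_add, Prod.snd_add, rot_fst, rot_snd, Prod.fst_sub,
      Prod.snd_sub, Prod.smul_fst, Prod.smul_snd, smul_eq_mul]
    ring
  rw [this]
  linarith

theorem ev_dt (q' : Pt) {v : Pt} (hv : v ≠ 0) : ∀ᶠ q in residual Pt, dt (q - q') v ≠ 0 := by
  apply ev_ne (f := fun q => dt (q - q') v)
    (fun q => by unfold dt; simp only [Prod.fst_sub, Prod.snd_sub]; fun_prop) (q' + rot v)
  have h := sq_pos hv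
  have : dt (q' + rot v - q') v = - (v.1 * v.1 + v.2 * v.2) := by
    unfold dt
    simp only [Prod.fst_add, Prod.snd_add, rot_fst, rot_snd, Prod.fst_sub, Prod.snd_sub]
    ring
  rw [this]
  linarith

theorem ev_aff {v : Pt} (hv : v ≠ 0) (c d : ℝ) (hc : c ≠ 0) :
    ∀ᶠ q in residual Pt, d + dt q v * c ≠ 0 := by
  have han : ∀ q : Pt, AnalyticAt ℝ (fun q => d + dt q v * c) q := by
    intro q; unfold dt; fun_prop
  by_cases hd : d = 0
  · apply ev_ne han (rot v)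
    have h := sq_pos hv
    have : dt (rot v) v = - (v.1 * v.1 + v.2 * v.2) := by
      unfold dt
      simp only [rot_fst, rot_snd]
      ring
    rw [this, hd, zero_add]
    exact mul_ne_zero (by linarith) hc
  · apply ev_ne han 0
    simpa [dt] using hd

/-- the determinant of three lines -/
def G3 (z₁ p₁ z₂ p₂ z₃ p₃ : Pt) : ℝ :=
  -(p₁.2 - z₁.2) * ((p₂.1 - z₂.1) * ((p₃.2 - z₃.2) * z₃.1 - (p₃.1 - z₃.1) * z₃.2) -
    (p₃.1 - z₃.1) * ((p₂.2 - z₂.2) * z₂.1 - (p₂.1 - z₂.1) * z₂.2)) -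
  (p₁.1 - z₁.1) * (-(p₂.2 - z₂.2) * ((p₃.2 - z₃.2) * z₃.1 - (p₃.1 - z₃.1) * z₃.2) -
    -(p₃.2 - z₃.2) * ((p₂.2 - z₂.2) * z₂.1 - (p₂.1 - z₂.1) * z₂.2)) +
  ((p₁.2 - z₁.2) * z₁.1 - (p₁.1 - z₁.1) * z₁.2) *
    (-(p₂.2 - z₂.2) * (p₃.1 - z₃.1) - -(p₃.2 - z₃.2) * (p₂.1 - z₂.1))

theorem G3_zero {z₁ p₁ z₂ p₂ z₃ p₃ w : Pt} (h1 : cr z₁ p₁ w = 0) (h2 : cr z₂ p₂ w = 0)
    (h3 : cr z₃ p₃ w = 0) : G3 z₁ p₁ z₂ p₂ z₃ p₃ = 0 := by
  have key : G3 z₁ p₁ z₂ p₂ z₃ p₃ = cr z₁ p₁ w * dt (p₂ - z₂) (p₃ - z₃) -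
      cr z₂ p₂ w * dt (p₁ - z₁) (p₃ - z₃) + cr z₃ p₃ w * dt (p₁ - z₁) (p₂ - z₂) := by
    unfold G3 cr dt
    simp only [Prod.fst_sub, Prod.snd_sub]
    ring
  rw [key, h1, h2, h3]
  ring

theorem ev_triple {z₁ z₂ z₃ e₁ e₂ e₃ : Pt} (hz : dt (z₂ - z₁) (z₂ - z₃) ≠ 0)
    (h12 : dt (z₁ - z₂) (e₁ - e₂) ≠ 0) : ∀ᶠ q in residual Pt,
      ¬ ∃ w : Pt, cr z₁ (mid q e₁) w = 0 ∧ cr z₂ (mid q e₂) w = 0 ∧ cr z₃ (mid q e₃) w = 0 := by
  have hval : ∀ t : ℝ, G3 z₁ (mid ((2 : ℝ) • (z₁ + t • (z₂ - z₁)) - e₁) e₁)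
      z₂ (mid ((2 : ℝ) • (z₁ + t • (z₂ - z₁)) - e₁) e₂)
      z₃ (mid ((2 : ℝ) • (z₁ + t • (z₂ - z₁)) - e₁) e₃) =
      (t * dt (z₂ - z₁) (z₂ - z₃) + dt (z₁ + (1 / 2 : ℝ) • (e₃ - e₁) - z₃) (z₂ - z₃)) *
        (t * (dt (z₁ - z₂) (e₁ - e₂) / 2)) := by
    intro t
    unfold G3 dt
    simp only [mid_fst, mid_snd, Prod.fst_add, Prod.snd_add, Prod.fst_sub,
      Prod.snd_sub, Prod.smul_fst, Prod.smul_snd, smul_eq_mul]
    ring
  have hex : ∃ t : ℝ, t ≠ 0 ∧ t * dt (z₂ - z₁) (z₂ - z₃) +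
      dt (z₁ + (1 / 2 : ℝ) • (e₃ - e₁) - z₃) (z₂ - z₃) ≠ 0 := by
    by_cases h : (1 : ℝ) * dt (z₂ - z₁) (z₂ - z₃) +
      dt (z₁ + (1 / 2 : ℝ) • (e₃ - e₁) - z₃) (z₂ - z₃) = 0
    · refine ⟨2, two_ne_zero, ?_⟩
      intro h'
      apply hz
      linarith
    · exact ⟨1, one_ne_zero, h⟩
  obtain ⟨t, ht0, ht⟩ := hex
  have hev : ∀ᶠ q in residual Pt, G3 z₁ (mid q e₁) z₂ (mid q e₂) z₃ (mid q e₃) ≠ 0 := by
    apply ev_ne (f := fun q => G3 z₁ (mid q e₁) z₂ (mid q e₂) z₃ (mid q e₃))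
      (fun q => by unfold G3; simp only [mid_fst, mid_snd]; fun_prop)
      ((2 : ℝ) • (z₁ + t • (z₂ - z₁)) - e₁)
    show G3 _ _ _ _ _ _ ≠ 0
    rw [hval]
    exact mul_ne_zero ht (mul_ne_zero ht0 (div_ne_zero h12 two_ne_zero))
  filter_upwards [hev] with q hq
  rintro ⟨w, h1, h2, h3⟩
  exact hq (G3_zero h1 h2 h3)

theorem ev_goodRow (E P : Finset Pt) (hg : GenPos P) : ∀ᶠ q in residual Pt, GoodRow E P q := by
  have H1 : ∀ᶠ q in residual Pt, ∀ e ∈ E, mid q e ∉ P ∧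
      ∀ x ∈ P, ∀ y ∈ P, x ≠ y → cr x y (mid q e) ≠ 0 := by
    rw [Filter.eventually_all_finset]
    intro e _
    refine (ev_mem_mid P e).and ?_
    rw [Filter.eventually_all_finset]
    intro x _
    rw [Filter.eventually_all_finset]
    intro y _
    by_cases hxy : x = y
    · exact Eventually.of_forall fun q h => absurd hxy h
    · filter_upwards [ev_cr_mid hxy e] with q hq _
      exact hq
  have H2 : ∀ᶠ q in residual Pt, ∀ z ∈ P, ∀ e ∈ E, ∀ e' ∈ E, e ≠ e' →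
      cr z (mid q e) (mid q e') ≠ 0 := by
    rw [Filter.eventually_all_finset]
    intro z _
    rw [Filter.eventually_all_finset]
    intro e _
    rw [Filter.eventually_all_finset]
    intro e' _
    by_cases hee : e = e'
    · exact Eventually.of_forall fun q h => absurd hee h
    · filter_upwards [ev_pair z hee] with q hq _
      exact hq
  have H3 : ∀ᶠ q in residual Pt, ∀ z₁ ∈ P, ∀ z₂ ∈ P, ∀ z₃ ∈ P, ∀ e₁ ∈ E, ∀ e₂ ∈ E, ∀ e₃ ∈ E,
      z₁ ≠ z₂ → z₁ ≠ z₃ → z₂ ≠ z₃ → e₁ ≠ e₂ → e₁ ≠ e₃ → e₂ ≠ e₃ →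
      ¬ (dt (z₁ - z₂) (e₁ - e₂) = 0 ∧ dt (z₂ - z₃) (e₂ - e₃) = 0 ∧ dt (z₁ - z₃) (e₁ - e₃) = 0) →
      ¬ ∃ w : Pt, cr z₁ (mid q e₁) w = 0 ∧ cr z₂ (mid q e₂) w = 0 ∧ cr z₃ (mid q e₃) w = 0 := by
    rw [Filter.eventually_all_finset]
    intro z₁ hz1
    rw [Filter.eventually_all_finset]
    intro z₂ hz2
    rw [Filter.eventually_all_finset]
    intro z₃ hz3
    rw [Filter.eventually_all_finset]
    intro e₁ _
    rw [Filter.eventually_all_finset]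
    intro e₂ _
    rw [Filter.eventually_all_finset]
    intro e₃ _
    by_cases hc : z₁ ≠ z₂ ∧ z₁ ≠ z₃ ∧ z₂ ≠ z₃
    swap
    · exact Eventually.of_forall fun q h1 h2 h3 => absurd ⟨h1, h2, h3⟩ hc
    obtain ⟨c1, c2, c3⟩ := hc
    have hcol := hg.cr_ne hz1 hz2 hz3 c1 c2 c3
    by_cases h12 : dt (z₁ - z₂) (e₁ - e₂) = 0
    · by_cases h23 : dt (z₂ - z₃) (e₂ - e₃) = 0
      · by_cases h13 : dt (z₁ - z₃) (e₁ - e₃) = 0
        · exact Eventually.of_forall fun q _ _ _ _ _ _ h => absurd ⟨h12, h23, h13⟩ h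
        · have hz : dt (z₃ - z₁) (z₃ - z₂) ≠ 0 := by
            intro h
            apply hcol
            unfold cr; unfold dt at h
            simp only [Prod.fst_sub, Prod.snd_sub] at h
            linarith
          filter_upwards [ev_triple (e₃ := e₂) hz h13] with q hq _ _ _ _ _ _ _
          rintro ⟨w, k1, k2, k3⟩
          exact hq ⟨w, k1, k3, k2⟩
      · have hz : dt (z₃ - z₂) (z₃ - z₁) ≠ 0 := by
          intro h
          apply hcol
          unfold cr; unfold dt at h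
          simp only [Prod.fst_sub, Prod.snd_sub] at h
          linarith
        filter_upwards [ev_triple (e₃ := e₁) hz h23] with q hq _ _ _ _ _ _ _
        rintro ⟨w, k1, k2, k3⟩
        exact hq ⟨w, k2, k3, k1⟩
    · have hz : dt (z₂ - z₁) (z₂ - z₃) ≠ 0 := by
        intro h
        apply hcol
        unfold cr; unfold dt at h
        simp only [Prod.fst_sub, Prod.snd_sub] at h
        linarith
      filter_upwards [ev_triple (e₃ := e₃) hz h12] with q hq _ _ _ _ _ _ _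
      rintro ⟨w, k1, k2, k3⟩
      exact hq ⟨w, k1, k2, k3⟩
  filter_upwards [H1, H2, H3] with q h1 h2 h3
  refine ⟨h1, h2, ?_⟩
  intro z₁ hz1 z₂ hz2 z₃ hz3 c1 c2 c3 e₁ he1 e₂ he2 e₃ he3 d1 d2 d3
  exact h3 z₁ hz1 z₂ hz2 z₃ hz3 e₁ he1 e₂ he2 e₃ he3 c1 c2 c3 d1 d2 d3

end Pool.Agent.T2H87.K5
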