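import Pool.Agent.T2H87.K5.Res

/-!
# Maker wins the 5-hole game
-/

set_option autoImplicit false

namespace Pool.Agent.T2H87.K5

open Pool.Agent.R183.HoleGame Filter Topology

theorem Slopes.mono {E E' : Finset Pt} (h : Slopes E') (hE : E ⊆ E') : Slopes E :=
  fun e₁ h1 e₂ h2 e₃ h3 e₄ h4 => h e₁ (hE h1) e₂ (hE h2) e₃ (hE h3) e₄ (hE h4)

theorem Slopes.insert {E : Finset Pt} (h : Slopes E) {x : Pt}
    (hA : ∀ e ∈ E, ∀ e₂ ∈ E, ∀ e₃ ∈ E, e₂ ≠ e₃ → dt (x - e) (e₂ - e₃) ≠ 0)
    (hB : ∀ e ∈ E, ∀ e' ∈ E, e ≠ e' → dt (x - e) (x - e') ≠ 0) : Slopes (insert x E) := by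
  have neg1 : ∀ u w t : Pt, dt (u - w) t = - dt (w - u) t := by
    intro u w t; unfold dt; simp only [Prod.fst_sub, Prod.snd_sub]; ring
  have neg2 : ∀ u w t : Pt, dt t (u - w) = - dt t (w - u) := by
    intro u w t; unfold dt; simp only [Prod.fst_sub, Prod.snd_sub]; ring
  intro e₁ h1 e₂ h2 e₃ h3 e₄ h4 h12 h34 h0
  rw [Finset.mem_insert] at h1 h2 h3 h4
  rcases h1 with h1 | h1
  · have k2 := h2.resolve_left (fun hh => h12 (h1.trans hh.symm))
    rcases h3 with h3 | h3
    · have k4 := h4.resolve_left (fun hh => h34 (h3.trans hh.symm))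
      by_cases hc : e₂ = e₄
      · exact Or.inl ⟨h1.trans h3.symm, hc⟩
      · rw [h1, h3] at h0
        exact absurd h0 (hB _ k2 _ k4 hc)
    · rcases h4 with h4 | h4
      · by_cases hc : e₂ = e₃
        · exact Or.inr ⟨h1.trans h4.symm, hc⟩
        · rw [h1, h4, neg2, neg_eq_zero] at h0
          exact absurd h0 (hB _ k2 _ h3 hc)
      · rw [h1] at h0
        exact absurd h0 (hA _ k2 _ h3 _ h4 h34)
  · rcases h2 with h2 | h2
    · rw [h2, neg1, neg_eq_zero] at h0
      rcases h3 with h3 | h3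
      · have k4 := h4.resolve_left (fun hh => h34 (h3.trans hh.symm))
        by_cases hc : e₁ = e₄
        · exact Or.inr ⟨hc, h2.trans h3.symm⟩
        · rw [h3] at h0
          exact absurd h0 (hB _ h1 _ k4 hc)
      · rcases h4 with h4 | h4
        · by_cases hc : e₁ = e₃
          · exact Or.inl ⟨hc, h2.trans h4.symm⟩
          · rw [h4, neg2, neg_eq_zero] at h0
            exact absurd h0 (hB _ h1 _ h3 hc)
        · exact absurd h0 (hA _ h1 _ h3 _ h4 h34)
    · rcases h3 with h3 | h3
      · have k4 := h4.resolve_left (fun hh => h34 (h3.trans hh.symm))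
        rw [dt_swap, neg_eq_zero, h3] at h0
        exact absurd h0 (hA _ k4 _ h1 _ h2 h12)
      · rcases h4 with h4 | h4
        · rw [dt_swap, neg_eq_zero, neg1, neg_eq_zero, h4] at h0
          exact absurd h0 (hA _ h3 _ h1 _ h2 h12)
        · exact h _ h1 _ h2 _ h3 _ h4 h12 h34 h0

/-- **Stage 1**: Maker places many points with pairwise different directions. -/
theorem stage1 (s n₁ : ℕ)
    (K : ∀ E M P : Finset Pt, E ⊆ M → M ⊆ P → GenPos P → Slopes E → E.card = n₁ →
      P.card ≤ (s + 1) * n₁ → MW 5 s M P) :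
    ∀ (r : ℕ) (E M P : Finset Pt), E.card + r = n₁ → E ⊆ M → M ⊆ P → GenPos P → Slopes E →
      P.card ≤ (s + 1) * E.card → MW 5 s M P := by
  intro r
  induction r with
  | zero =>
    intro E M P hE hEM hMP hg hS hPc
    have : E.card = n₁ := by omega
    exact K E M P hEM hMP hg hS this (this ▸ hPc)
  | succ r ih =>
    intro E M P hE hEM hMP hg hS hPc
    have H1 : ∀ᶠ q in residual Pt, ∀ x ∈ P, ∀ y ∈ P, x ≠ y → cr x y q ≠ 0 := by
      rw [Filter.eventually_all_finset]
      intro x _
      rw [Filter.eventually_all_finset]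
      intro y _
      by_cases hxy : x = y
      · exact Eventually.of_forall fun q h => absurd hxy h
      · filter_upwards [ev_cr hxy] with q hq _
        exact hq
    have H2 : ∀ᶠ q in residual Pt, ∀ e ∈ E, ∀ e₂ ∈ E, ∀ e₃ ∈ E, e₂ ≠ e₃ →
        dt (q - e) (e₂ - e₃) ≠ 0 := by
      rw [Filter.eventually_all_finset]
      intro e _
      rw [Filter.eventually_all_finset]
      intro e₂ _
      rw [Filter.eventually_all_finset]
      intro e₃ _
      by_cases hxy : e₂ = e₃
      · exact Eventually.of_forall fun q h => absurd hxy h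
      · filter_upwards [ev_dt e (sub_ne_zero.2 hxy)] with q hq _
        exact hq
    obtain ⟨x, _, hx1, hx2, hx3⟩ := gen_exists ((ev_mem P).and (H1.and H2)) isOpen_univ
      Set.univ_nonempty
    refine MW.later M P x hx1 (hg.insert hx2) ?_
    intro Rr hRr hdisj hgR
    have hxE : x ∉ E := fun h => hx1 (hMP (hEM h))
    apply ih (insert x E) (insert x M) (insert x P ∪ Rr)
    · rw [Finset.card_insert_of_notMem hxE]; omega
    · exact Finset.insert_subset_insert _ hEM
    · exact (Finset.insert_subset_insert _ hMP).trans Finset.subset_union_left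
    · exact hgR
    · apply hS.insert hx3
      intro e he e' he' hne h0
      apply hx2 e (hMP (hEM he)) e' (hMP (hEM he')) hne
      rw [← h0]
      unfold cr dt
      simp only [Prod.fst_sub, Prod.snd_sub]
      ring
    · rw [Finset.card_insert_of_notMem hxE]
      have h1 := Finset.card_union_le (insert x P) Rr
      have h2 := Finset.card_insert_le x P
      have h3 : (s + 1) * (E.card + 1) = (s + 1) * E.card + (s + 1) := by ring
      omega

/-- **Stage 2**: a direction which is not spanned by two placed points. -/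
theorem stage2 (P : Finset Pt) : ∃ v : Pt, v ≠ 0 ∧ ∀ x ∈ P, ∀ y ∈ P, x ≠ y → dt (x - y) v ≠ 0 := by
  have H1 : ∀ᶠ v in residual Pt, ∀ x ∈ P, ∀ y ∈ P, x ≠ y → dt (x - y) v ≠ 0 := by
    rw [Filter.eventually_all_finset]
    intro x _
    rw [Filter.eventually_all_finset]
    intro y _
    by_cases hxy : x = y
    · exact Eventually.of_forall fun q h => absurd hxy h
    · filter_upwards [ev_dt 0 (sub_ne_zero.2 hxy)] with v hv _ h0
      apply hv
      rw [sub_zero, dt_swap, h0, neg_zero]
  obtain ⟨v, _, hv1, hv2⟩ := gen_exists ((ev_mem {0}).and H1) isOpen_univ Set.univ_nonempty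
  exact ⟨v, by simpa using hv1, hv2⟩

/-- the column `e` is protected -/
def Prot (P : Finset Pt) (v e : Pt) : Prop := e ∈ P ∧ ∃ f ∈ P, f ≠ e ∧ dt (f - e) v = 0

theorem Prot.mono {P P' : Finset Pt} {v e : Pt} (h : Prot P v e) (hP : P ⊆ P') : Prot P' v e := by
  obtain ⟨h1, f, h2, h3⟩ := h
  exact ⟨hP h1, f, hP h2, h3⟩

open Classical in
/-- **Stage 3**: Maker protects many columns. -/
theorem stage3 (s n p₀ : ℕ) (E₁ : Finset Pt) (v : Pt) (hv : v ≠ 0)
    (hEv : ∀ e ∈ E₁, ∀ e' ∈ E₁, e ≠ e' → dt (e - e') v ≠ 0)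
    (K : ∀ E M P : Finset Pt, E ⊆ E₁ → E.card = n → (∀ e ∈ E, Prot P v e) → M ⊆ P → GenPos P →
      P.card ≤ p₀ + (s + 1) * n → MW 5 s M P) :
    ∀ (u : ℕ) (Dn Al M P : Finset Pt), Dn ⊆ E₁ → Dn.card + u = n → (∀ e ∈ Dn, Prot P v e) →
      Al ⊆ E₁ → (∀ e ∈ Al, e ∉ Dn) → (∀ e ∈ Al, e ∈ P ∧ ∀ x ∈ P, x ≠ e → dt (x - e) v ≠ 0) →
      u * (s + 1) ≤ Al.card → M ⊆ P → GenPos P → P.card ≤ p₀ + (s + 1) * Dn.card →
      MW 5 s M P := by
  intro u
  induction u with
  | zero =>
    intro Dn Al M P hDn hDc hprot _ _ _ _ hMP hg hPc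
    have : Dn.card = n := by omega
    exact K Dn M P hDn this hprot hMP hg (this ▸ hPc)
  | succ u ih =>
    intro Dn Al M P hDn hDc hprot hAl hAlD halive hAlc hMP hg hPc
    have hAlne : Al.Nonempty := by
      rw [← Finset.card_pos]
      have : 1 ≤ (u + 1) * (s + 1) := Nat.succ_le_of_lt (by positivity)
      omega
    obtain ⟨e, he⟩ := hAlne
    obtain ⟨heP, heal⟩ := halive e he
    have T0 : ∀ᶠ τ : ℝ in atTop, (0 : ℝ) < τ := eventually_gt_atTop 0
    have T1 : ∀ᶠ τ : ℝ in atTop, ∀ p ∈ P, ∀ q ∈ P, p ≠ q → cr p q (e + τ • v) ≠ 0 := by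
      rw [Filter.eventually_all_finset]
      intro p hp
      rw [Filter.eventually_all_finset]
      intro q hq
      by_cases hpq : p = q
      · exact Eventually.of_forall fun t h => absurd hpq h
      have hor : cr p q e ≠ 0 ∨ dt (q - p) v ≠ 0 := by
        by_cases hpe : p = e
        · right
          subst hpe
          exact heal q hq (Ne.symm hpq)
        by_cases hqe : q = e
        · right
          subst hqe
          intro h0
          apply heal p hp hpq
          rw [dt_sub_left] at h0 ⊢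
          linarith
        · left
          exact hg.cr_ne hp hq heP hpq hpe hqe
      filter_upwards [ev_lin (cr p q e) (dt (q - p) v) hor] with τ hτ _ h0
      apply hτ
      rw [← h0]
      unfold cr dt
      simp only [Prod.fst_add, Prod.snd_add, Prod.fst_sub, Prod.snd_sub, Prod.smul_fst,
        Prod.smul_snd, smul_eq_mul]
      ring
    obtain ⟨τ, hτ0, hτ1⟩ := (T0.and T1).exists
    set f : Pt := e + τ • v with hf
    have hfv : dt (f - e) v = 0 := by
      rw [hf]; unfold dt
      simp only [Prod.fst_add, Prod.snd_add, Prod.fst_sub, Prod.snd_sub, Prod.smul_fst,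
        Prod.smul_snd, smul_eq_mul]
      ring
    have hfe : f ≠ e := by
      intro h
      have h3 : τ • v = 0 := by
        rw [hf] at h
        simpa using h
      rcases smul_eq_zero.1 h3 with h4 | h4
      · exact hτ0.ne' h4
      · exact hv h4
    have hfP : f ∉ P := fun h => heal f h hfe hfv
    refine MW.later M P f hfP (hg.insert hτ1) ?_
    intro Rr hRr hdisj hgR
    set P' := insert f P ∪ Rr with hP'
    have hPP' : P ⊆ P' := fun y hy => Finset.mem_union_left _ (Finset.mem_insert_of_mem hy)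
    have hfP' : f ∈ P' := Finset.mem_union_left _ (Finset.mem_insert_self _ _)
    set Al' := (Al.erase e).filter (fun e' => ∀ r ∈ Rr, dt (r - e') v ≠ 0) with hAl'
    have hAl'c : u * (s + 1) ≤ Al'.card := by
      have hbad : ((Al.erase e).filter
          (fun e' => ¬ ∀ r ∈ Rr, dt (r - e') v ≠ 0)).card ≤ s := by
        refine le_trans ?_ hRr
        have hch : ∀ e' ∈ (Al.erase e).filter (fun e' => ¬ ∀ r ∈ Rr, dt (r - e') v ≠ 0),
            ∃ r ∈ Rr, dt (r - e') v = 0 := by
          intro i' hi'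
          have := (Finset.mem_filter.1 hi').2
          push Not at this
          exact this
        choose! g hgR' hg0 using hch
        apply Finset.card_le_card_of_injOn g (fun i' hi' => hgR' i' hi')
        intro x hx y hy hxy
        by_contra hne
        have hx0 := hg0 x hx
        have hy0 := hg0 y hy
        rw [← hxy] at hy0
        have hxA := hAl (Finset.mem_of_mem_erase (Finset.mem_filter.1 hx).1)
        have hyA := hAl (Finset.mem_of_mem_erase (Finset.mem_filter.1 hy).1)
        apply hEv x hxA y hyA hne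
        rw [dt_sub_left] at hx0 hy0 ⊢
        linarith
      have h1 : (Al.erase e).card = Al.card - 1 := Finset.card_erase_of_mem he
      have h2 := Finset.card_filter_add_card_filter_not (s := Al.erase e)
        (p := fun e' => ∀ r ∈ Rr, dt (r - e') v ≠ 0)
      have h3 : (u + 1) * (s + 1) = u * (s + 1) + (s + 1) := by ring
      have h4 : Al'.card + ((Al.erase e).filter
          (fun e' => ¬ ∀ r ∈ Rr, dt (r - e') v ≠ 0)).card = (Al.erase e).card := by rw [← h2]
      omega
    have heD : e ∉ Dn := hAlD e he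
    apply ih (insert e Dn) Al' (insert f M) P' ?_ ?_ ?_ ?_ ?_ ?_ hAl'c ?_ hgR ?_
    · intro x hx
      rw [Finset.mem_insert] at hx
      rcases hx with rfl | hx
      · exact hAl he
      · exact hDn hx
    · rw [Finset.card_insert_of_notMem heD]; omega
    · intro x hx
      rw [Finset.mem_insert] at hx
      rcases hx with rfl | hx
      · exact ⟨hPP' heP, f, hfP', hfe, hfv⟩
      · exact (hprot x hx).mono hPP'
    · exact (Finset.filter_subset _ _).trans ((Finset.erase_subset _ _).trans hAl)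
    · intro x hx
      obtain ⟨hx1, _⟩ := Finset.mem_filter.1 hx
      rw [Finset.mem_erase] at hx1
      rw [Finset.mem_insert]
      rintro (h1 | h1)
      · exact hx1.1 h1
      · exact hAlD x hx1.2 h1
    · intro x hx
      obtain ⟨hx1, hx2⟩ := Finset.mem_filter.1 hx
      rw [Finset.mem_erase] at hx1
      obtain ⟨hxP, hxal⟩ := halive x hx1.2
      refine ⟨hPP' hxP, ?_⟩
      intro y hy hyx
      rw [hP', Finset.mem_union, Finset.mem_insert] at hy
      rcases hy with (rfl | hy) | hy
      · intro h0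
        apply hEv x (hAl hx1.2) e (hAl he) hx1.1
        rw [dt_sub_left] at h0 hfv ⊢
        linarith
      · exact hxal y hy hyx
      · exact hx2 y hy
    · exact (Finset.insert_subset_insert _ hMP).trans Finset.subset_union_left
    · rw [Finset.card_insert_of_notMem heD]
      have h1 := Finset.card_union_le (insert f P) Rr
      rw [← hP'] at h1
      have h2 := Finset.card_insert_le f P
      have h3 : (s + 1) * (Dn.card + 1) = (s + 1) * Dn.card + (s + 1) := by ring
      omega

/-- **Maker wins the 5-hole game against every bias.** -/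
theorem maker_five (s : ℕ) : MW 5 s ∅ ∅ := by
  classical
  set F : ℝ := (((s + 1) * (s + 2) + (s + 1) ^ 3 * ((2 * s + 1) * (1 + 2 * s * (s + 1))) : ℕ) : ℝ)
    with hF
  obtain ⟨n₀, hn₀⟩ := reserve_loop s F
  set n : ℕ := max n₀ 1 with hn
  have hn1 : 1 ≤ n := le_max_right _ _
  set D : ℕ := (2 * s * n + 1) * (1 + 2 * s * (s + 1)) with hD
  have hslopes0 : Slopes ∅ := by intro e h; simp at h
  have hgen0 : GenPos ∅ := by intro e h; simp at h
  refine stage1 s ((s + 1) * n) ?_ ((s + 1) * n) ∅ ∅ ∅ (by simp) (Finset.Subset.refl _)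
    (Finset.Subset.refl _) hgen0 hslopes0 (by simp)
  intro E₁ M₁ P₁ hEM₁ hMP₁ hg₁ hS₁ hE₁c hP₁c
  obtain ⟨v, hv, hv1⟩ := stage2 P₁
  have hEv₁ : ∀ e ∈ E₁, ∀ e' ∈ E₁, e ≠ e' → dt (e - e') v ≠ 0 :=
    fun e he e' he' hne => hv1 e (hMP₁ (hEM₁ he)) e' (hMP₁ (hEM₁ he')) hne
  refine stage3 s n ((s + 1) * ((s + 1) * n)) E₁ v hv hEv₁ ?_ n ∅ E₁ M₁ P₁ (Finset.empty_subset _)
    (by simp) (by simp) (Finset.Subset.refl _) (by simp) ?_ ?_ hMP₁ hg₁ (by simpa using hP₁c)
  · intro E M₂ P₂ hEE₁ hEc hprot hMP₂ hg₂ hP₂c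
    have hEv : ∀ e ∈ E, ∀ e' ∈ E, e ≠ e' → dt (e - e') v ≠ 0 :=
      fun e he e' he' hne => hEv₁ e (hEE₁ he) e' (hEE₁ he') hne
    have hres0 : Reserve s v E ∅ (fun _ => ∅) M₂ :=
      ⟨fun q hq => absurd hq (Finset.notMem_empty _), fun q hq => absurd hq (Finset.notMem_empty _),
        fun q hq => absurd hq (Finset.notMem_empty _),
        fun _ _ _ _ _ _ _ _ _ q hq => absurd hq (Finset.notMem_empty _),
        fun q hq => absurd hq (Finset.notMem_empty _)⟩
    have hp₀ : (s + 1) * ((s + 1) * n) + (s + 1) * n = (s + 1) * (s + 2) * n := by ring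
    rw [hp₀] at hP₂c
    apply hn₀ E P₂ v D ((s + 1) * (s + 2) * n) (by rw [hEc]; exact le_max_left _ _)
      (hS₁.mono hEE₁) hv hEv ?_ ?_ D ∅ M₂ P₂ (fun _ => ∅) (by simp) hres0
      (Finset.Subset.refl _) hMP₂ hg₂ (by simpa using hP₂c)
    · rw [hEc, hF]
      have h1 : (s + 1) * (s + 2) * n + (s + 1) ^ 3 * D ≤
          ((s + 1) * (s + 2) + (s + 1) ^ 3 * ((2 * s + 1) * (1 + 2 * s * (s + 1)))) * n := by
        have h2 : 2 * s * n + 1 ≤ (2 * s + 1) * n := by nlinarith
        have h3 : D ≤ (2 * s + 1) * n * (1 + 2 * s * (s + 1)) := by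
          rw [hD]; exact Nat.mul_le_mul_right _ h2
        calc (s + 1) * (s + 2) * n + (s + 1) ^ 3 * D
            ≤ (s + 1) * (s + 2) * n + (s + 1) ^ 3 * ((2 * s + 1) * n * (1 + 2 * s * (s + 1))) :=
              Nat.add_le_add_left (Nat.mul_le_mul_left _ h3) _
          _ = _ := by ring
      exact_mod_cast h1
    · intro J M P A hJc hRes hP₀ hMP hg
      apply tau hRes hMP hg hv hEv
      · intro e he
        exact (hprot e he).mono hP₀
      · rw [hJc, hEc]
  · intro e he
    exact ⟨hMP₁ (hEM₁ he), fun x hx hxe => hv1 x hx e (hMP₁ (hEM₁ he)) hxe⟩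
  · rw [hE₁c, mul_comm]

/-- **Breaker does not win the 5-hole game, whatever the bias.** -/
theorem not_breaker_five (s : ℕ) : ¬ BreakerWins 5 s := (maker_five s).main

end Pool.Agent.T2H87.K5
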