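import Pool.Agent.T2H87.K5.Basic
import Pool.Agent.T2H87.K5.Corn
import Pool.Agent.T2H87.K5.Lines

/-!
# The row game
-/

set_option autoImplicit false

namespace Pool.Agent.T2H87.K5

open Pool.Agent.R183.HoleGame

/-! ### Homothetic copies -/

open Classical in
/-- the sets of columns which are homothetic to a part of `Z` -/
noncomputable def fam (E Z : Finset Pt) : Finset (Finset Pt) :=
  E.powerset.filter fun I => 2 ≤ I.card ∧ ∃ (κ : Pt) (l : ℝ), l ≠ 0 ∧
    ∀ e, e ∈ I ↔ e ∈ E ∧ κ + l • e ∈ Z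

theorem mem_fam {E Z I : Finset Pt} : I ∈ fam E Z ↔ I ⊆ E ∧ 2 ≤ I.card ∧
    ∃ (κ : Pt) (l : ℝ), l ≠ 0 ∧ ∀ e, e ∈ I ↔ e ∈ E ∧ κ + l • e ∈ Z := by
  classical
  simp only [fam, Finset.mem_filter, Finset.mem_powerset]

theorem dt_smul_smul (a b : ℝ) (u w : Pt) : dt (a • u) (b • w) = a * b * dt u w := by
  unfold dt
  simp only [Prod.smul_fst, Prod.smul_snd, smul_eq_mul]
  ring

theorem dt_smul_left (a : ℝ) (u w : Pt) : dt (a • u) w = a * dt u w := by
  unfold dt
  simp only [Prod.smul_fst, Prod.smul_snd, smul_eq_mul]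
  ring

theorem par {u w : Pt} (hw : w ≠ 0) (h : dt u w = 0) : ∃ l : ℝ, u = l • w := by
  unfold dt at h
  by_cases h1 : w.1 = 0
  · have h2 : w.2 ≠ 0 := fun h2 => hw (Prod.ext h1 h2)
    rw [h1, mul_zero, sub_zero] at h
    have h3 : u.1 = 0 := (mul_eq_zero.1 h).resolve_right h2
    refine ⟨u.2 / w.2, Prod.ext ?_ ?_⟩
    · rw [Prod.smul_fst, smul_eq_mul, h1, mul_zero, h3]
    · rw [Prod.smul_snd, smul_eq_mul, div_mul_cancel₀ _ h2]
  · refine ⟨u.1 / w.1, Prod.ext ?_ ?_⟩
    · rw [Prod.smul_fst, smul_eq_mul, div_mul_cancel₀ _ h1]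
    · rw [Prod.smul_snd, smul_eq_mul, div_mul_eq_mul_div, eq_div_iff h1]
      linarith

theorem fam_bound {E Z : Finset Pt} (hS : Slopes E) (x : ℝ) (hx : 0 < x) :
    (((fam E Z).filter fun I => x ≤ (I.card : ℝ)).card : ℝ) * x ^ 2 ≤ 4 * (Z.card : ℝ) ^ 2 := by
  classical
  have hex : ∀ I ∈ fam E Z, ∃ (κ : Pt) (l : ℝ), l ≠ 0 ∧ ∀ e, e ∈ I ↔ e ∈ E ∧ κ + l • e ∈ Z :=
    fun I hI => (mem_fam.1 hI).2.2
  choose! κ l hl hκ using hex
  set Fx := (fam E Z).filter fun I => x ≤ (I.card : ℝ) with hFx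
  set S : Finset (Σ _ : Finset Pt, Pt × Pt) := Fx.sigma fun I => I.offDiag with hS'
  have hcard : S.card ≤ (Z ×ˢ (Z ×ˢ (Finset.univ : Finset Bool))).card := by
    apply Finset.card_le_card_of_injOn
      (fun t => (κ t.1 + l t.1 • t.2.1, κ t.1 + l t.1 • t.2.2, decide (0 < l t.1)))
    · rintro ⟨I, e, e'⟩ ht
      rw [Finset.mem_coe, hS', Finset.mem_sigma, Finset.mem_offDiag] at ht
      obtain ⟨hI, he, he', hne⟩ := ht
      have hIf := (Finset.mem_filter.1 hI).1
      simp only [Finset.coe_product, Set.mem_prod, Finset.mem_coe, Finset.mem_univ, and_true]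
      exact ⟨((hκ I hIf e).1 he).2, ((hκ I hIf e').1 he').2⟩
    · rintro ⟨I, e, e'⟩ ht ⟨I', e₁, e₁'⟩ ht' heq
      rw [Finset.mem_coe, hS', Finset.mem_sigma, Finset.mem_offDiag] at ht ht'
      obtain ⟨hI, he, he', hne⟩ := ht
      obtain ⟨hI', he1, he1', hne1⟩ := ht'
      simp only [Prod.mk.injEq] at heq hI he he' hne hI' he1 he1' hne1
      obtain ⟨h1, h2, h3⟩ := heq
      have hIf := (Finset.mem_filter.1 hI).1
      have hIf' := (Finset.mem_filter.1 hI').1
      have h4 : l I • (e - e') = l I' • (e₁ - e₁') := by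
        have : (κ I + l I • e) - (κ I + l I • e') = (κ I' + l I' • e₁) - (κ I' + l I' • e₁') := by
          rw [h1, h2]
        rw [smul_sub, smul_sub]
        simpa using this
      have h5 : dt (e - e') (e₁ - e₁') = 0 := by
        have h6 : l I * l I' * dt (e - e') (e₁ - e₁') = 0 := by
          rw [← dt_smul_smul, h4, dt_self]
        rcases mul_eq_zero.1 h6 with h7 | h7
        · exact absurd h7 (mul_ne_zero (hl I hIf) (hl I' hIf'))
        · exact h7
      have hEI := (mem_fam.1 hIf).1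
      have hEI' := (mem_fam.1 hIf').1
      have hsub : e - e' ≠ 0 := sub_ne_zero.2 hne
      rcases hS e (hEI he) e' (hEI he') e₁ (hEI' he1) e₁' (hEI' he1') hne hne1 h5 with
        ⟨rfl, rfl⟩ | ⟨rfl, rfl⟩
      · have h8 : l I = l I' := by
          have : (l I - l I') • (e - e') = 0 := by rw [sub_smul, h4, sub_self]
          rcases smul_eq_zero.1 this with h9 | h9
          · linarith
          · exact absurd h9 hsub
        have h9 : κ I = κ I' := by
          rw [h8] at h1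
          exact add_right_cancel h1
        have h10 : I = I' := by
          ext y
          rw [hκ I hIf, hκ I' hIf', h8, h9]
        subst h10
        rfl
      · exfalso
        have h8 : l I = - l I' := by
          have : (l I + l I') • (e - e') = 0 := by
            rw [add_smul, h4, ← smul_add]
            have : e' - e + (e - e') = 0 := by abel
            rw [this, smul_zero]
          rcases smul_eq_zero.1 this with h9 | h9
          · linarith
          · exact absurd h9 hsub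
        have h9 := hl I' hIf'
        have h10 : (0 < l I) ↔ (0 < l I') := by
          have := decide_eq_decide.1 h3
          exact this
        rcases lt_or_gt_of_ne h9 with h11 | h11
        · have : 0 < l I := by linarith
          linarith [h10.1 this]
        · have := h10.2 h11
          linarith
  have hS2 : (S.card : ℝ) ≤ 2 * (Z.card : ℝ) ^ 2 := by
    have h1 : (Z ×ˢ (Z ×ˢ (Finset.univ : Finset Bool))).card = 2 * Z.card ^ 2 := by
      rw [Finset.card_product, Finset.card_product, Finset.card_univ, Fintype.card_bool]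
      ring
    rw [h1] at hcard
    exact_mod_cast hcard
  have hS3 : (Fx.card : ℝ) * (x ^ 2 / 2) ≤ (S.card : ℝ) := by
    rw [hS', Finset.card_sigma]
    push_cast
    rw [← nsmul_eq_mul, ← Finset.sum_const]
    apply Finset.sum_le_sum
    intro I hI
    obtain ⟨h1, h2⟩ := Finset.mem_filter.1 hI
    have h3 := (mem_fam.1 h1).2.1
    rw [Finset.offDiag_card, Nat.cast_sub (Nat.le_mul_self _)]
    push_cast
    have h4 : (2 : ℝ) ≤ I.card := by exact_mod_cast h3
    nlinarith
  linarith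

/-! ### The centre of a homothety -/

theorem cr_collapse {z r p p' : Pt} (hzr : z ≠ r) (h1 : cr z r p = 0) (h2 : cr z r p' = 0) :
    cr z p p' = 0 := by
  unfold cr at h1 h2 ⊢
  have e1 : (r.1 - z.1) * ((p.1 - z.1) * (p'.2 - z.2) - (p.2 - z.2) * (p'.1 - z.1)) = 0 := by
    linear_combination (p.1 - z.1) * h2 - (p'.1 - z.1) * h1
  have e2 : (r.2 - z.2) * ((p.1 - z.1) * (p'.2 - z.2) - (p.2 - z.2) * (p'.1 - z.1)) = 0 := by
    linear_combination (p.2 - z.2) * h2 - (p'.2 - z.2) * h1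
  by_contra hne
  have h3 := (mul_eq_zero.1 e1).resolve_right hne
  have h4 := (mul_eq_zero.1 e2).resolve_right hne
  exact hzr (Prod.ext (by linarith) (by linarith))

/-- the affine function attached to a homothety -/
theorem affine_three (κ q r e₁ e₂ e₃ h : Pt) (l : ℝ) (hD : dt (e₁ - e₃) (e₂ - e₃) ≠ 0)
    (h1 : cr (κ + l • e₁) (mid q e₁) r = 0) (h2 : cr (κ + l • e₂) (mid q e₂) r = 0)
    (h3 : cr (κ + l • e₃) (mid q e₃) r = 0) : cr (κ + l • h) (mid q h) r = 0 := by
  have key : dt (e₁ - e₃) (e₂ - e₃) * cr (κ + l • h) (mid q h) r =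
      (dt (e₁ - e₃) (e₂ - e₃) - dt (h - e₃) (e₂ - e₃) - dt (e₁ - e₃) (h - e₃)) *
        cr (κ + l • e₃) (mid q e₃) r + dt (h - e₃) (e₂ - e₃) * cr (κ + l • e₁) (mid q e₁) r +
        dt (e₁ - e₃) (h - e₃) * cr (κ + l • e₂) (mid q e₂) r := by
    unfold cr dt
    simp only [mid_fst, mid_snd, Prod.fst_add, Prod.snd_add, Prod.smul_fst, Prod.smul_snd,
      smul_eq_mul, Prod.fst_sub, Prod.snd_sub]
    ring
  rw [h1, h2, h3, mul_zero, mul_zero, mul_zero, add_zero, add_zero] at key
  exact (mul_eq_zero.1 key).resolve_left hD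

theorem Slopes.ne {E : Finset Pt} (hS : Slopes E) {e₁ e₂ e₃ : Pt} (h1 : e₁ ∈ E) (h2 : e₂ ∈ E)
    (h3 : e₃ ∈ E) (h12 : e₁ ≠ e₂) (h13 : e₁ ≠ e₃) (h23 : e₂ ≠ e₃) :
    dt (e₁ - e₃) (e₂ - e₃) ≠ 0 := by
  intro h
  rcases hS e₁ h1 e₃ h3 e₂ h2 e₃ h3 h13 h23 h with ⟨h4, _⟩ | ⟨h4, _⟩
  · exact h12 h4
  · exact h13 h4

theorem host_of_three {E Z : Finset Pt} {q : Pt} (hS : Slopes E) (hgood : GoodRow E Z q)
    {r : Pt} (hr : r ∉ Z) {W : Finset Pt} (hWE : W ⊆ E)
    (hW : ∀ e ∈ W, ∃ z ∈ Z, cr z r (mid q e) = 0) (hc : 2 < W.card) :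
    ∃ I ∈ fam E Z, W ⊆ I ∧ ∀ h ∈ I, ∃ z ∈ Z, cr z (mid q h) r = 0 := by
  classical
  choose! z hzZ hz using hW
  have hzr : ∀ e ∈ W, z e ≠ r := fun e he h => hr (h ▸ hzZ e he)
  have hzne : ∀ e ∈ W, ∀ e' ∈ W, e ≠ e' → z e ≠ z e' := by
    intro e he e' he' hne heq
    have h1 := hz e he
    have h2 := hz e' he'
    rw [← heq] at h2
    exact hgood.pair (z e) (hzZ e he) e (hWE he) e' (hWE he') hne
      (cr_collapse (hzr e he) h1 h2)
  have hcr : ∀ e ∈ W, cr (z e) (mid q e) r = 0 := by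
    intro e he
    rw [cr_swap, hz e he, neg_zero]
  have hpar : ∀ e₁ ∈ W, ∀ e₂ ∈ W, ∀ e₃ ∈ W, e₁ ≠ e₂ → e₁ ≠ e₃ → e₂ ≠ e₃ →
      dt (z e₁ - z e₂) (e₁ - e₂) = 0 ∧ dt (z e₂ - z e₃) (e₂ - e₃) = 0 ∧
        dt (z e₁ - z e₃) (e₁ - e₃) = 0 := by
    intro e₁ h1 e₂ h2 e₃ h3 h12 h13 h23
    by_contra hcon
    exact hgood.triple (z e₁) (hzZ _ h1) (z e₂) (hzZ _ h2) (z e₃) (hzZ _ h3)
      (hzne _ h1 _ h2 h12) (hzne _ h1 _ h3 h13) (hzne _ h2 _ h3 h23) e₁ (hWE h1) e₂ (hWE h2)
      e₃ (hWE h3) h12 h13 h23 hcon ⟨r, hcr _ h1, hcr _ h2, hcr _ h3⟩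
  obtain ⟨e₁, e₂, e₃, h1, h2, h3, h12, h13, h23⟩ := Finset.two_lt_card_iff.1 hc
  obtain ⟨l, hl⟩ := par (sub_ne_zero.2 h12) (hpar e₁ h1 e₂ h2 e₃ h3 h12 h13 h23).1
  have hl0 : l ≠ 0 := by
    rintro rfl
    rw [zero_smul] at hl
    exact hzne _ h1 _ h2 h12 (sub_eq_zero.1 hl)
  set κ : Pt := z e₁ - l • e₁ with hκ
  have hform : ∀ e ∈ W, z e = κ + l • e := by
    intro e he
    by_cases he1 : e = e₁
    · subst he1; rw [hκ]; abel
    by_cases he2 : e = e₂
    · subst he2
      have : z e = z e₁ - (z e₁ - z e) := by abel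
      rw [this, hl, hκ, smul_sub]; abel
    obtain ⟨p1, p2, p3⟩ := hpar e₁ h1 e₂ h2 e he h12 (Ne.symm he1) (Ne.symm he2)
    obtain ⟨b, hb⟩ := par (sub_ne_zero.2 (Ne.symm he2)) p2
    obtain ⟨c, hc'⟩ := par (sub_ne_zero.2 (Ne.symm he1)) p3
    have hD := hS.ne (hWE h1) (hWE h2) (hWE he) h12 (Ne.symm he1) (Ne.symm he2)
    have hvec : (c - l) • (e₁ - e) = (b - l) • (e₂ - e) := by
      have h4 : c • (e₁ - e) - b • (e₂ - e) = l • (e₁ - e₂) := by
        rw [← hb, ← hc', ← hl]; abel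
      have h5 : l • (e₁ - e₂) = l • (e₁ - e) - l • (e₂ - e) := by
        rw [← smul_sub]; congr 1; abel
      rw [h5] at h4
      rw [sub_smul, sub_smul]
      rw [sub_eq_sub_iff_add_eq_add] at h4 ⊢
      rw [h4]; abel
    have hcl : c = l := by
      have h6 : (c - l) * dt (e₁ - e) (e₂ - e) = 0 := by
        rw [← dt_smul_left, hvec, dt_smul_left, dt_self, mul_zero]
      rcases mul_eq_zero.1 h6 with h7 | h7
      · linarith
      · exact absurd h7 hD
    have : z e = z e₁ - (z e₁ - z e) := by abel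
    rw [this, hc', hcl, hκ, smul_sub]; abel
  refine ⟨E.filter fun e => κ + l • e ∈ Z, ?_, ?_, ?_⟩
  · rw [mem_fam]
    refine ⟨Finset.filter_subset _ _, ?_, κ, l, hl0, fun e => Finset.mem_filter⟩
    have hsub : W ⊆ E.filter fun e => κ + l • e ∈ Z := by
      intro e he
      rw [Finset.mem_filter]
      exact ⟨hWE he, hform e he ▸ hzZ e he⟩
    exact hc.le.trans (Finset.card_le_card hsub)
  · intro e he
    rw [Finset.mem_filter]
    exact ⟨hWE he, hform e he ▸ hzZ e he⟩
  · intro h hh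
    obtain ⟨_, hh2⟩ := Finset.mem_filter.1 hh
    refine ⟨κ + l • h, hh2, ?_⟩
    apply affine_three κ q r e₁ e₂ e₃ h l
      (hS.ne (hWE h1) (hWE h2) (hWE h3) h12 h13 h23)
    · rw [← hform _ h1]; exact hcr _ h1
    · rw [← hform _ h2]; exact hcr _ h2
    · rw [← hform _ h3]; exact hcr _ h3

/-! ### One step -/

/-- the position of the column `e` is a legal move -/
def Leg (P : Finset Pt) (q e : Pt) : Prop :=
  mid q e ∉ P ∧ ∀ x ∈ P, ∀ y ∈ P, x ≠ y → cr x y (mid q e) ≠ 0

theorem mid_inj {q e e' : Pt} (h : mid q e = mid q e') : e = e' := by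
  have h1 := congrArg Prod.fst h
  have h2 := congrArg Prod.snd h
  rw [mid_fst, mid_fst] at h1
  rw [mid_snd, mid_snd] at h2
  exact Prod.ext (by linarith) (by linarith)

/-- a line contains at most two positions -/
theorem line_two {E : Finset Pt} (hS : Slopes E) {q x y : Pt} (hxy : x ≠ y) {T : Finset Pt}
    (hT : T ⊆ E) (h : ∀ e ∈ T, cr x y (mid q e) = 0) : T.card ≤ 2 := by
  by_contra hcon
  push Not at hcon
  obtain ⟨e₁, e₂, e₃, h1, h2, h3, h12, h13, h23⟩ := Finset.two_lt_card_iff.1 hcon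
  apply hS.ne (hT h1) (hT h2) (hT h3) h12 h13 h23
  have k1 := h _ h1
  have k2 := h _ h2
  have k3 := h _ h3
  unfold cr at k1 k2 k3
  rw [mid_fst, mid_snd] at k1 k2 k3
  unfold dt
  simp only [Prod.fst_sub, Prod.snd_sub]
  have g1 : (y.1 - x.1) * (e₁.2 - e₃.2) - (y.2 - x.2) * (e₁.1 - e₃.1) = 0 := by linarith
  have g2 : (y.1 - x.1) * (e₂.2 - e₃.2) - (y.2 - x.2) * (e₂.1 - e₃.1) = 0 := by linarith
  have f1 : (y.1 - x.1) *
      ((e₁.1 - e₃.1) * (e₂.2 - e₃.2) - (e₁.2 - e₃.2) * (e₂.1 - e₃.1)) = 0 := by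
    linear_combination (e₁.1 - e₃.1) * g2 - (e₂.1 - e₃.1) * g1
  have f2 : (y.2 - x.2) *
      ((e₁.1 - e₃.1) * (e₂.2 - e₃.2) - (e₁.2 - e₃.2) * (e₂.1 - e₃.1)) = 0 := by
    linear_combination (e₁.2 - e₃.2) * g2 - (e₂.2 - e₃.2) * g1
  by_contra hne
  have f3 := (mul_eq_zero.1 f1).resolve_right hne
  have f4 := (mul_eq_zero.1 f2).resolve_right hne
  exact hxy (Prod.ext (by linarith) (by linarith))

open Classical in
theorem row_step (s m : ℕ) {E Z P : Finset Pt} {q : Pt} (hS : Slopes E) (hgood : GoodRow E Z q)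
    (hZP : Z ⊆ P) (hN : (P \ Z).card ≤ m) {e₁ : Pt} (he1 : e₁ ∈ E)
    {Rr : Finset Pt} (hRr : Rr.card ≤ s) (hdisj : Disjoint Rr (insert (mid q e₁) P))
    (hgR : GenPos (insert (mid q e₁) P ∪ Rr)) {Al : Finset Pt} (hAl : Al ⊆ E)
    (hleg : ∀ e ∈ Al, Leg P q e) :
    ∃ l : List (Finset Pt), l.length ≤ s ∧ (∀ I ∈ l, I ∈ fam E Z ∧ e₁ ∉ I) ∧
      ((Al.filter fun x => ∀ I ∈ l, x ∉ I).filter
        (fun e => ¬ (e ≠ e₁ ∧ Leg (insert (mid q e₁) P ∪ Rr) q e))).card ≤
          1 + s + 2 * ((m + 1 + s) * (1 + s)) + 2 * s := by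
  set p₁ := mid q e₁ with hp₁
  set P' := insert p₁ P ∪ Rr with hP'
  have hRZ : ∀ r ∈ Rr, r ∉ Z := fun r hr hrZ =>
    Finset.disjoint_left.1 hdisj hr (Finset.mem_insert_of_mem (hZP hrZ))
  have hRp : ∀ r ∈ Rr, r ≠ p₁ := fun r hr hrp =>
    Finset.disjoint_left.1 hdisj hr (hrp ▸ Finset.mem_insert_self _ _)
  set W : Pt → Finset Pt := fun r => E.filter fun e => ∃ z ∈ Z, cr z r (mid q e) = 0 with hW
  have hWE : ∀ r, W r ⊆ E := fun r => Finset.filter_subset _ _
  -- the big ones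
  have hbig : ∀ r ∈ Rr.filter (fun r => 2 < (W r).card), ∃ I, I ∈ fam E Z ∧ W r ⊆ I ∧ e₁ ∉ I := by
    intro r hr
    obtain ⟨hr1, hr2⟩ := Finset.mem_filter.1 hr
    obtain ⟨I, hI1, hI2, hI3⟩ := host_of_three hS hgood (hRZ r hr1) (hWE r)
      (fun e he => (Finset.mem_filter.1 he).2) hr2
    refine ⟨I, hI1, hI2, fun h => ?_⟩
    obtain ⟨z, hz, hz0⟩ := hI3 e₁ h
    have hzP' : z ∈ P' := Finset.mem_union_left _ (Finset.mem_insert_of_mem (hZP hz))
    have hpP' : p₁ ∈ P' := Finset.mem_union_left _ (Finset.mem_insert_self _ _)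
    have hrP' : r ∈ P' := Finset.mem_union_right _ hr1
    refine hgR.cr_ne hzP' hpP' hrP' ?_ ?_ (hRp r hr1).symm hz0
    · intro h4
      exact (hgood.legal e₁ he1).1 (hp₁ ▸ h4 ▸ hz)
    · intro h4
      exact hRZ r hr1 (h4 ▸ hz)
  choose! Ir hI1 hI2 hI3 using hbig
  refine ⟨(Rr.filter (fun r => 2 < (W r).card)).toList.map Ir, ?_, ?_, ?_⟩
  · rw [List.length_map, Finset.length_toList]
    exact (Finset.card_filter_le _ _).trans hRr
  · intro I hI
    obtain ⟨r, hr, rfl⟩ := List.mem_map.1 hI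
    rw [Finset.mem_toList] at hr
    exact ⟨hI1 r hr, hI3 r hr⟩
  · -- the four sources of losses
    set T₂ := Al.filter fun e => mid q e ∈ Rr with hT₂
    set X : Finset Pt := (P \ Z) ∪ {p₁} ∪ Rr with hX
    set Y : Finset Pt := {p₁} ∪ Rr with hY
    set T₃ := (X ×ˢ Y).biUnion fun xy => Al.filter fun e => xy.1 ≠ xy.2 ∧
      cr xy.1 xy.2 (mid q e) = 0 with hT₃
    set T₄ := (Rr.filter (fun r => ¬ 2 < (W r).card)).biUnion W with hT₄
    have c2 : T₂.card ≤ s := by
      refine le_trans ?_ hRr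
      apply Finset.card_le_card_of_injOn (fun e => mid q e)
      · intro e he
        exact (Finset.mem_filter.1 he).2
      · intro e _ e' _ h
        exact mid_inj h
    have c3 : T₃.card ≤ 2 * ((m + 1 + s) * (1 + s)) := by
      have hle : T₃.card ≤ (X ×ˢ Y).card * 2 := by
        apply Finset.card_biUnion_le_card_mul
        intro xy _
        by_cases hxy : xy.1 = xy.2
        · rw [Finset.filter_false_of_mem]
          · simp
          · intro e _ h
            exact h.1 hxy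
        · exact line_two hS hxy ((Finset.filter_subset _ _).trans hAl)
            (fun e he => (Finset.mem_filter.1 he).2.2)
      have hXc : X.card ≤ m + 1 + s := by
        refine (Finset.card_union_le _ _).trans ?_
        refine Nat.add_le_add ?_ hRr
        refine (Finset.card_union_le _ _).trans ?_
        rw [Finset.card_singleton]
        exact Nat.add_le_add_right hN 1
      have hYc : Y.card ≤ 1 + s := by
        refine (Finset.card_union_le _ _).trans ?_
        rw [Finset.card_singleton]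
        exact Nat.add_le_add_left hRr 1
      rw [Finset.card_product] at hle
      have := Nat.mul_le_mul hXc hYc
      omega
    have c4 : T₄.card ≤ 2 * s := by
      have hle : T₄.card ≤ (Rr.filter (fun r => ¬ 2 < (W r).card)).card * 2 := by
        apply Finset.card_biUnion_le_card_mul
        intro r hr
        have := (Finset.mem_filter.1 hr).2
        omega
      have := (Finset.card_filter_le Rr (fun r => ¬ 2 < (W r).card)).trans hRr
      omega
    have hsub : ((Al.filter fun x => ∀ I ∈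
        (Rr.filter (fun r => 2 < (W r).card)).toList.map Ir, x ∉ I).filter
        (fun e => ¬ (e ≠ e₁ ∧ Leg P' q e))) ⊆ ({e₁} ∪ T₂) ∪ T₃ ∪ T₄ := by
      intro e he
      obtain ⟨he', hbad⟩ := Finset.mem_filter.1 he
      obtain ⟨heAl, heI⟩ := Finset.mem_filter.1 he'
      by_cases hee : e = e₁
      · rw [hee]; simp
      have hnl : ¬ Leg P' q e := fun h => hbad ⟨hee, h⟩
      have hlegP := hleg e heAl
      by_cases hR : mid q e ∈ Rr
      · have : e ∈ T₂ := Finset.mem_filter.2 ⟨heAl, hR⟩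
        simp [this]
      have hnP' : mid q e ∉ P' := by
        rw [hP', Finset.mem_union, Finset.mem_insert]
        rintro ((h | h) | h)
        · exact hee (mid_inj h)
        · exact hlegP.1 h
        · exact hR h
      have key : ∀ x ∈ P', ∀ y ∈ P', y ∉ P → x ≠ y → cr x y (mid q e) = 0 →
          e ∈ ({e₁} ∪ T₂) ∪ T₃ ∪ T₄ := by
        intro x hx y hy hyP hxy h0
        have hyY : y ∈ Y := by
          rw [hP', Finset.mem_union, Finset.mem_insert] at hy
          rw [hY, Finset.mem_union, Finset.mem_singleton]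
          rcases hy with (h | h) | h
          · exact Or.inl h
          · exact absurd h hyP
          · exact Or.inr h
        by_cases hxZ : x ∈ Z
        · rw [hY, Finset.mem_union, Finset.mem_singleton] at hyY
          rcases hyY with hyp | hyR
          · exfalso
            subst hyp
            exact hgood.pair x hxZ e₁ he1 e (hAl heAl) (Ne.symm hee) h0
          · have heW : e ∈ W y := Finset.mem_filter.2 ⟨hAl heAl, x, hxZ, h0⟩
            by_cases hb : 2 < (W y).card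
            · exfalso
              have hyf : y ∈ Rr.filter (fun r => 2 < (W r).card) :=
                Finset.mem_filter.2 ⟨hyR, hb⟩
              apply heI (Ir y) _ (hI2 y hyf heW)
              rw [List.mem_map]
              exact ⟨y, Finset.mem_toList.2 hyf, rfl⟩
            · apply Finset.mem_union_right
              rw [hT₄, Finset.mem_biUnion]
              exact ⟨y, Finset.mem_filter.2 ⟨hyR, hb⟩, heW⟩
        · have hxX : x ∈ X := by
            rw [hP', Finset.mem_union, Finset.mem_insert] at hx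
            rw [hX, Finset.mem_union, Finset.mem_union, Finset.mem_singleton, Finset.mem_sdiff]
            rcases hx with (h | h) | h
            · exact Or.inl (Or.inr h)
            · exact Or.inl (Or.inl ⟨h, hxZ⟩)
            · exact Or.inr h
          apply Finset.mem_union_left
          apply Finset.mem_union_right
          rw [hT₃, Finset.mem_biUnion]
          exact ⟨(x, y), Finset.mem_product.2 ⟨hxX, hyY⟩, Finset.mem_filter.2 ⟨heAl, hxy, h0⟩⟩
      unfold Leg at hnl
      push Not at hnl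
      obtain ⟨x, hx, y, hy, hxy, h0⟩ := hnl hnP'
      by_cases hyP : y ∈ P
      · by_cases hxP : x ∈ P
        · exact absurd h0 (hlegP.2 x hxP y hyP hxy)
        · exact key y hy x hx hxP hxy.symm (by rw [cr_swap12, h0, neg_zero])
      · exact key x hx y hy hyP hxy h0
    refine (Finset.card_le_card hsub).trans ?_
    refine (Finset.card_union_le _ _).trans ?_
    refine Nat.add_le_add ?_ c4
    refine (Finset.card_union_le _ _).trans ?_
    refine Nat.add_le_add ?_ c3
    refine (Finset.card_union_le _ _).trans ?_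
    rw [Finset.card_singleton]
    exact Nat.add_le_add_left c2 1

/-! ### The induction -/

theorem row_ind (s ρ : ℕ) (F : ℝ) : ∀ (k : ℕ) (α : ℝ), 0 < α → ∃ n₀ : ℕ,
    ∀ (E M P : Finset Pt) (q : Pt), n₀ ≤ E.card →
    Slopes E → (P.card : ℝ) ≤ F * E.card → GoodRow E P q →
    (∀ M' P' A : Finset Pt, M ⊆ M' → P ⊆ P' → M' ⊆ P' → GenPos P' →
      P'.card ≤ P.card + (s + 1) * ρ → A ⊆ E → A.card = ρ → (∀ e ∈ A, mid q e ∈ M') →
      MW 5 s M' P') →
    ∀ (i : ℕ) (M' P' A Al : Finset Pt), i + k = ρ → M ⊆ M' → P ⊆ P' → M' ⊆ P' → GenPos P' →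
      P'.card ≤ P.card + (s + 1) * i → A ⊆ E → A.card = i → (∀ e ∈ A, mid q e ∈ M') →
      Al ⊆ E → (∀ e ∈ Al, e ∉ A) → (∀ e ∈ Al, Leg P' q e) → α * E.card ≤ Al.card →
      MW 5 s M' P' := by
  classical
  intro k
  induction k with
  | zero =>
    intro α hα
    refine ⟨0, ?_⟩
    intro E M P q _ hS hPF hgood K i M' P' A Al hi hM hP hMP hg hPc hA hAc hAM _ _ _ _
    have hi' : i = ρ := by omega
    subst hi'
    exact K M' P' A hM hP hMP hg hPc hA hAc hAM
  | succ k ih =>
    intro α hα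
    obtain ⟨η, hη, hcorn⟩ := cornering s (4 * F ^ 2 + 1) α (1 / 2) (by positivity) hα (by norm_num)
    obtain ⟨n₁, hn₁⟩ := ih (η / 2) (by positivity)
    set C : ℕ := 1 + s + 2 * (((s + 1) * ρ + 1 + s) * (1 + s)) + 2 * s with hC
    obtain ⟨n₂, hn₂⟩ := exists_nat_ge (2 * (C : ℝ) / η)
    refine ⟨max (max n₁ n₂) 1, ?_⟩
    intro E M P q hEc hS hPF hgood K i M' P' A Al hi hM hP hMP hg hPc hA hAc hAM hAlE hAlA hleg hAlc
    have hn1 : n₁ ≤ E.card := le_trans (le_trans (le_max_left _ _) (le_max_left _ _)) hEc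
    have hn2 : n₂ ≤ E.card := le_trans (le_trans (le_max_right _ _) (le_max_left _ _)) hEc
    have hn3 : 1 ≤ E.card := le_trans (le_max_right _ _) hEc
    have hbound : ∀ x : ℝ, 0 < x → (((fam E P).filter fun I => x ≤ (I.card : ℝ)).card : ℝ) * x ^ 2 ≤
        (4 * F ^ 2 + 1) * (E.card : ℝ) ^ 2 := by
      intro x hx
      refine (fam_bound hS x hx).trans ?_
      have h1 : (P.card : ℝ) ^ 2 ≤ (F * E.card) ^ 2 :=
        pow_le_pow_left₀ (Nat.cast_nonneg _) hPF 2
      have h2 : 0 ≤ (E.card : ℝ) ^ 2 := by positivity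
      nlinarith
    obtain ⟨X, hXA, hXc, hX⟩ := hcorn E.card (fam E P) hbound Al hAlc
    -- the chosen column
    have hAlpos : (0 : ℝ) < Al.card := by
      have : (1 : ℝ) ≤ E.card := by exact_mod_cast hn3
      have : 0 < α * E.card := by positivity
      linarith
    obtain ⟨e₁, he1A, he1X⟩ : ∃ e ∈ Al, e ∉ X := by
      by_contra hcon
      push Not at hcon
      have h1 : Al.card ≤ X.card := Finset.card_le_card hcon
      have h2 : (Al.card : ℝ) ≤ X.card := by exact_mod_cast h1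
      linarith
    have he1E : e₁ ∈ E := hAlE he1A
    have hl1 := hleg e₁ he1A
    refine MW.later M' P' (mid q e₁) hl1.1 (hg.insert hl1.2) ?_
    intro Rr hRr hdisj hgR
    have hN : (P' \ P).card ≤ (s + 1) * ρ := by
      rw [Finset.card_sdiff_of_subset hP]
      have h1 : (s + 1) * i ≤ (s + 1) * ρ := Nat.mul_le_mul_left _ (by omega)
      omega
    obtain ⟨l, hl1', hl2, hl3⟩ := row_step s ((s + 1) * ρ) hS hgood hP hN he1E hRr hdisj hgR
      hAlE hleg
    have hη' := hX e₁ he1A he1X l hl1' hl2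
    set P'' := insert (mid q e₁) P' ∪ Rr with hP''
    have hPP'' : P' ⊆ P'' := fun y hy => Finset.mem_union_left _ (Finset.mem_insert_of_mem hy)
    set B₁ := Al.filter fun x => ∀ I ∈ l, x ∉ I with hB₁
    set Al' := B₁.filter (fun e => e ≠ e₁ ∧ Leg P'' q e) with hAl'
    have hcardAl' : (η / 2) * E.card ≤ (Al'.card : ℝ) := by
      have h1 := Finset.card_filter_add_card_filter_not (s := B₁)
        (p := fun e => e ≠ e₁ ∧ Leg P'' q e)
      have h2 : B₁.card ≤ Al'.card + C := by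
        rw [← h1]
        exact Nat.add_le_add_left hl3 _
      have h3 : (B₁.card : ℝ) ≤ Al'.card + C := by exact_mod_cast h2
      have h4 : η * (E.card : ℝ) ≤ (B₁.card : ℝ) := hη'
      have h5 : 2 * (C : ℝ) / η ≤ E.card := hn₂.trans (by exact_mod_cast hn2)
      rw [div_le_iff₀ hη] at h5
      linarith
    apply hn₁ E M P q hn1 hS hPF hgood K (i + 1) (insert (mid q e₁) M') P'' (insert e₁ A) Al'
      (by omega) (hM.trans (Finset.subset_insert _ _)) (hP.trans hPP'') ?_ hgR ?_ ?_ ?_ ?_ ?_ ?_ ?_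
      hcardAl'
    · intro y hy
      rw [Finset.mem_insert] at hy
      rcases hy with rfl | hy
      · exact Finset.mem_union_left _ (Finset.mem_insert_self _ _)
      · exact hPP'' (hMP hy)
    · refine (Finset.card_union_le _ _).trans ?_
      have h1 := Finset.card_insert_le (mid q e₁) P'
      have h2 : (s + 1) * (i + 1) = (s + 1) * i + (s + 1) := by ring
      omega
    · intro y hy
      rw [Finset.mem_insert] at hy
      rcases hy with rfl | hy
      · exact he1E
      · exact hA hy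
    · rw [Finset.card_insert_of_notMem (hAlA e₁ he1A), hAc]
    · intro y hy
      rw [Finset.mem_insert] at hy
      rcases hy with rfl | hy
      · exact Finset.mem_insert_self _ _
      · exact Finset.mem_insert_of_mem (hAM y hy)
    · exact (Finset.filter_subset _ _).trans ((Finset.filter_subset _ _).trans hAlE)
    · intro e he
      obtain ⟨he1, he2⟩ := Finset.mem_filter.1 he
      rw [Finset.mem_insert]
      rintro (h1 | h1)
      · exact he2.1 h1
      · exact hAlA e (Finset.mem_filter.1 he1).1 h1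
    · intro e he
      exact (Finset.mem_filter.1 he).2.2

/-- **The row game.** -/
theorem row_game (s ρ : ℕ) (F : ℝ) : ∃ n₀ : ℕ, ∀ (E M P : Finset Pt) (q : Pt), n₀ ≤ E.card →
    Slopes E → M ⊆ P → GenPos P → (P.card : ℝ) ≤ F * E.card → GoodRow E P q →
    (∀ M' P' A : Finset Pt, M ⊆ M' → P ⊆ P' → M' ⊆ P' → GenPos P' →
      P'.card ≤ P.card + (s + 1) * ρ → A ⊆ E → A.card = ρ → (∀ e ∈ A, mid q e ∈ M') →
      MW 5 s M' P') → MW 5 s M P := by
  obtain ⟨n₀, h⟩ := row_ind s ρ F ρ 1 one_pos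
  refine ⟨n₀, ?_⟩
  intro E M P q hn hS hMP hg hPF hgood K
  exact h E M P q hn hS hPF hgood K 0 M P ∅ E (by simp) (Finset.Subset.refl _)
    (Finset.Subset.refl _) hMP hg (by simp) (Finset.empty_subset _) (by simp) (by simp)
    (Finset.Subset.refl _) (by simp) (fun e he => hgood.legal e he) (by simp)

end Pool.Agent.T2H87.K5
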