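import Pool.Agent.T2H87.K5.Gen
import Pool.Agent.T2H87.K5.Row
import Pool.Agent.T2H87.K5.Bph

/-!
# Building the reserve, and the shift to the virtual points
-/

set_option autoImplicit false

namespace Pool.Agent.T2H87.K5

open Pool.Agent.R183.HoleGame Filter Topology

/-- the alternating expression which controls the concurrency of three lines -/
def X3 (v e₁ e₂ e₃ q₁ q₂ q₃ : Pt) : ℝ :=
  dt q₁ v * (dt e₃ v - dt e₂ v) + dt q₂ v * (dt e₁ v - dt e₃ v) + dt q₃ v * (dt e₂ v - dt e₁ v)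

theorem dt_sub_left (u w x : Pt) : dt (u - w) x = dt u x - dt w x := by
  unfold dt; simp only [Prod.fst_sub, Prod.snd_sub]; ring

structure Reserve (s : ℕ) (v : Pt) (E J : Finset Pt) (A : Pt → Finset Pt) (M : Finset Pt) :
    Prop where
  side : ∀ q ∈ J, ∀ e ∈ E, 0 < dt (q - e) v
  hA : ∀ q ∈ J, A q ⊆ E ∧ (A q).card = (s + 1) ^ 2 ∧ ∀ e ∈ A q, mid q e ∈ M
  hq : ∀ q ∈ J, ∀ q' ∈ J, q ≠ q' → dt (q - q') v ≠ 0
  hX : ∀ e₁ ∈ E, ∀ e₂ ∈ E, ∀ e₃ ∈ E, e₁ ≠ e₂ → e₁ ≠ e₃ → e₂ ≠ e₃ →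
    ∀ q₁ ∈ J, ∀ q₂ ∈ J, ∀ q₃ ∈ J, q₁ ≠ q₂ → q₁ ≠ q₃ → q₂ ≠ q₃ → X3 v e₁ e₂ e₃ q₁ q₂ q₃ ≠ 0
  inj : ∀ q ∈ J, ∀ e ∈ A q, ∀ q' ∈ J, ∀ e' ∈ A q', mid q e = mid q' e' → e = e' ∧ q = q'

theorem Reserve.next {s : ℕ} {v : Pt} {E J : Finset Pt} {A : Pt → Finset Pt} {M P : Finset Pt}
    (h : Reserve s v E J A M) (hv : v ≠ 0)
    (hEv : ∀ e ∈ E, ∀ e' ∈ E, e ≠ e' → dt (e - e') v ≠ 0) (hg : GenPos P) (hMP : M ⊆ P) :
    ∃ q, q ∉ J ∧ GoodRow E P q ∧ ∀ M' A' : Finset Pt, M ⊆ M' → A' ⊆ E → A'.card = (s + 1) ^ 2 →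
      (∀ e ∈ A', mid q e ∈ M') → Reserve s v E (insert q J) (Function.update A q A') M' := by
  -- the open condition
  have hU : IsOpen {q : Pt | ∀ e ∈ E, 0 < dt (q - e) v} := by
    have : {q : Pt | ∀ e ∈ E, 0 < dt (q - e) v} = ⋂ e ∈ E, {q : Pt | 0 < dt (q - e) v} := by
      ext q; simp
    rw [this]
    apply isOpen_biInter_finset
    intro e _
    apply isOpen_lt continuous_const
    unfold dt
    fun_prop
  have hUne : {q : Pt | ∀ e ∈ E, 0 < dt (q - e) v}.Nonempty := by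
    have hsq := sq_pos hv
    have hval : ∀ (T : ℝ) (e : Pt), dt (T • (-rot v) - e) v =
        T * (v.1 * v.1 + v.2 * v.2) - dt e v := by
      intro T e
      unfold dt
      simp only [Prod.fst_sub, Prod.snd_sub, Prod.smul_fst, Prod.smul_snd, smul_eq_mul,
        Prod.fst_neg, Prod.snd_neg, rot_fst, rot_snd]
      ring
    have hev : ∀ᶠ T : ℝ in atTop, ∀ e ∈ E, 0 < T * (v.1 * v.1 + v.2 * v.2) - dt e v := by
      rw [Filter.eventually_all_finset]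
      intro e _
      filter_upwards [eventually_gt_atTop (dt e v / (v.1 * v.1 + v.2 * v.2))] with T hT
      rw [div_lt_iff₀ hsq] at hT
      linarith
    obtain ⟨T, hT⟩ := hev.exists
    refine ⟨T • (-rot v), ?_⟩
    intro e he
    rw [hval]
    exact hT e he
  have H2 : ∀ᶠ q in residual Pt, ∀ q' ∈ J, dt (q - q') v ≠ 0 := by
    rw [Filter.eventually_all_finset]
    intro q' _
    exact ev_dt q' hv
  have H3 : ∀ᶠ q in residual Pt, ∀ e₁ ∈ E, ∀ e₂ ∈ E, ∀ e₃ ∈ E, ∀ q₁ ∈ J, ∀ q₂ ∈ J,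
      e₁ ≠ e₂ → X3 v e₁ e₂ e₃ q₁ q₂ q ≠ 0 := by
    rw [Filter.eventually_all_finset]
    intro e₁ he1
    rw [Filter.eventually_all_finset]
    intro e₂ he2
    rw [Filter.eventually_all_finset]
    intro e₃ _
    rw [Filter.eventually_all_finset]
    intro q₁ _
    rw [Filter.eventually_all_finset]
    intro q₂ _
    by_cases hee : e₁ = e₂
    · exact Eventually.of_forall fun q h => absurd hee h
    · have hc : dt e₂ v - dt e₁ v ≠ 0 := by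
        rw [← dt_sub_left]
        exact hEv e₂ he2 e₁ he1 (Ne.symm hee)
      filter_upwards [ev_aff hv (dt e₂ v - dt e₁ v)
        (dt q₁ v * (dt e₃ v - dt e₂ v) + dt q₂ v * (dt e₁ v - dt e₃ v)) hc] with q hq _
      exact hq
  obtain ⟨q, hqU, hqG, hq2, hq3⟩ := gen_exists ((ev_goodRow E P hg).and (H2.and H3)) hU hUne
  have hqJ : q ∉ J := by
    intro hmem
    apply hq2 q hmem
    rw [sub_self]
    simp [dt]
  refine ⟨q, hqJ, hqG, ?_⟩
  intro M' A' hMM' hA'E hA'c hA'm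
  have hup : ∀ q' ∈ J, Function.update A q A' q' = A q' := by
    intro q' hq'
    have : q' ≠ q := fun hh => hqJ (hh ▸ hq')
    simp [this]
  have hself : Function.update A q A' q = A' := by simp
  have hX3 : ∀ e₁ ∈ E, ∀ e₂ ∈ E, ∀ e₃ ∈ E, e₁ ≠ e₂ → e₁ ≠ e₃ → e₂ ≠ e₃ → ∀ q₁ ∈ J, ∀ q₂ ∈ J,
      X3 v e₁ e₂ e₃ q₁ q₂ q ≠ 0 ∧ X3 v e₁ e₂ e₃ q q₁ q₂ ≠ 0 ∧ X3 v e₁ e₂ e₃ q₁ q q₂ ≠ 0 := by
    intro e₁ he1 e₂ he2 e₃ he3 h12 h13 h23 q₁ hq1 q₂ hq2'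
    refine ⟨hq3 e₁ he1 e₂ he2 e₃ he3 q₁ hq1 q₂ hq2' h12, ?_, ?_⟩
    · have := hq3 e₂ he2 e₃ he3 e₁ he1 q₁ hq1 q₂ hq2' h23
      intro h0
      apply this
      rw [← h0]
      unfold X3
      ring
    · have := hq3 e₃ he3 e₁ he1 e₂ he2 q₂ hq2' q₁ hq1 (Ne.symm h13)
      intro h0
      apply this
      rw [← h0]
      unfold X3
      ring
  refine ⟨?_, ?_, ?_, ?_, ?_⟩
  · intro q' hq' e he
    rw [Finset.mem_insert] at hq'
    rcases hq' with rfl | hq'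
    · exact hqU e he
    · exact h.side q' hq' e he
  · intro q' hq'
    rw [Finset.mem_insert] at hq'
    rcases hq' with rfl | hq'
    · rw [hself]
      exact ⟨hA'E, hA'c, hA'm⟩
    · rw [hup q' hq']
      obtain ⟨h1, h2, h3⟩ := h.hA q' hq'
      exact ⟨h1, h2, fun e he => hMM' (h3 e he)⟩
  · intro q₁ hq1 q₂ hq2' hne
    rw [Finset.mem_insert] at hq1 hq2'
    rcases hq1 with rfl | hq1
    · rcases hq2' with rfl | hq2'
      · exact absurd rfl hne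
      · exact hq2 q₂ hq2'
    · rcases hq2' with rfl | hq2'
      · have := hq2 q₁ hq1
        intro h0
        apply this
        rw [dt_sub_left] at h0 ⊢
        linarith
      · exact h.hq q₁ hq1 q₂ hq2' hne
  · intro e₁ he1 e₂ he2 e₃ he3 h12 h13 h23 q₁ hq1 q₂ hq2' q₃ hq3' k12 k13 k23
    rw [Finset.mem_insert] at hq1 hq2' hq3'
    rcases hq1 with rfl | hq1
    · have hq2'' := hq2'.resolve_left (Ne.symm k12)
      have hq3'' := hq3'.resolve_left (Ne.symm k13)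
      exact (hX3 e₁ he1 e₂ he2 e₃ he3 h12 h13 h23 q₂ hq2'' q₃ hq3'').2.1
    · rcases hq2' with rfl | hq2'
      · have hq3'' := hq3'.resolve_left (Ne.symm k23)
        exact (hX3 e₁ he1 e₂ he2 e₃ he3 h12 h13 h23 q₁ hq1 q₃ hq3'').2.2
      · rcases hq3' with rfl | hq3'
        · exact (hX3 e₁ he1 e₂ he2 e₃ he3 h12 h13 h23 q₁ hq1 q₂ hq2').1
        · exact h.hX e₁ he1 e₂ he2 e₃ he3 h12 h13 h23 q₁ hq1 q₂ hq2' q₃ hq3' k12 k13 k23
  · intro q₁ hq1 e he q₂ hq2' e' he' heq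
    rw [Finset.mem_insert] at hq1 hq2'
    rcases hq1 with rfl | hq1
    · rcases hq2' with rfl | hq2'
      · exact ⟨mid_inj heq, rfl⟩
      · exfalso
        rw [hself] at he
        rw [hup q₂ hq2'] at he'
        apply (hqG.legal e (hA'E he)).1
        rw [heq]
        exact hMP ((h.hA q₂ hq2').2.2 e' he')
    · rcases hq2' with rfl | hq2'
      · exfalso
        rw [hself] at he'
        rw [hup q₁ hq1] at he
        apply (hqG.legal e' (hA'E he')).1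
        rw [← heq]
        exact hMP ((h.hA q₁ hq1).2.2 e he)
      · rw [hup q₁ hq1] at he
        rw [hup q₂ hq2'] at he'
        exact h.inj q₁ hq1 e he q₂ hq2' e' he' heq

theorem reserve_loop (s : ℕ) (F : ℝ) : ∃ n₀ : ℕ, ∀ (E P₀ : Finset Pt) (v : Pt) (D p₀ : ℕ),
    n₀ ≤ E.card → Slopes E → v ≠ 0 → (∀ e ∈ E, ∀ e' ∈ E, e ≠ e' → dt (e - e') v ≠ 0) →
    ((p₀ + (s + 1) ^ 3 * D : ℕ) : ℝ) ≤ F * E.card →
    (∀ (J M P : Finset Pt) (A : Pt → Finset Pt), J.card = D → Reserve s v E J A M → P₀ ⊆ P →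
      M ⊆ P → GenPos P → MW 5 s M P) →
    ∀ (r : ℕ) (J M P : Finset Pt) (A : Pt → Finset Pt), J.card + r = D → Reserve s v E J A M →
      P₀ ⊆ P → M ⊆ P → GenPos P → P.card ≤ p₀ + (s + 1) ^ 3 * J.card → MW 5 s M P := by
  obtain ⟨n₀, hrow⟩ := row_game s ((s + 1) ^ 2) F
  refine ⟨n₀, ?_⟩
  intro E P₀ v D p₀ hn hS hv hEv hF K r
  induction r with
  | zero =>
    intro J M P A hJ h hP₀ hMP hg _
    exact K J M P A (by omega) h hP₀ hMP hg
  | succ r ih =>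
    intro J M P A hJ h hP₀ hMP hg hPc
    obtain ⟨q, hqJ, hqG, hnext⟩ := h.next hv hEv hg hMP
    apply hrow E M P q hn hS hMP hg ?_ hqG ?_
    · refine le_trans ?_ hF
      have h1 : (s + 1) ^ 3 * J.card ≤ (s + 1) ^ 3 * D := Nat.mul_le_mul_left _ (by omega)
      exact_mod_cast hPc.trans (Nat.add_le_add_left h1 _)
    · intro M' P' A' hMM' hPP' hMP' hg' hPc' hA'E hA'c hA'm
      apply ih (insert q J) M' P' (Function.update A q A') ?_
        (hnext M' A' hMM' hA'E hA'c hA'm) (hP₀.trans hPP') hMP' hg' ?_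
      · rw [Finset.card_insert_of_notMem hqJ]; omega
      · rw [Finset.card_insert_of_notMem hqJ]
        have h1 : (s + 1) * (s + 1) ^ 2 = (s + 1) ^ 3 := by ring
        have h2 : (s + 1) ^ 3 * (J.card + 1) = (s + 1) ^ 3 * J.card + (s + 1) ^ 3 := by ring
        omega

/-! ### The virtual points -/

theorem ev_quad (a b c : ℝ) (h : a ≠ 0 ∨ b ≠ 0 ∨ c ≠ 0) :
    ∀ᶠ τ : ℝ in atTop, a + b * τ + c * τ ^ 2 ≠ 0 := by
  have hP : (Polynomial.C a + Polynomial.C b * Polynomial.X + Polynomial.C c * Polynomial.X ^ 2 :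
      Polynomial ℝ) ≠ 0 := by
    intro h0
    have h1 := congrArg (fun p => Polynomial.coeff p 0) h0
    have h2 := congrArg (fun p => Polynomial.coeff p 1) h0
    have h3 := congrArg (fun p => Polynomial.coeff p 2) h0
    simp [Polynomial.coeff_X, Polynomial.coeff_C, Polynomial.coeff_X_pow] at h1 h2 h3
    rcases h with h | h | h
    · exact h h1
    · exact h h2
    · exact h h3
  filter_upwards [Polynomial.eventually_atTop_not_isRoot _ hP] with τ hτ h0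
  apply hτ
  simpa [Polynomial.IsRoot] using h0

theorem ev_lin (a b : ℝ) (h : a ≠ 0 ∨ b ≠ 0) : ∀ᶠ τ : ℝ in atTop, a + b * τ ≠ 0 := by
  filter_upwards [ev_quad a b 0 (by tauto)] with τ hτ
  simpa using hτ

theorem X3_ne {s : ℕ} {v : Pt} {E J : Finset Pt} {A : Pt → Finset Pt} {M : Finset Pt}
    (h : Reserve s v E J A M) (hEv : ∀ e ∈ E, ∀ e' ∈ E, e ≠ e' → dt (e - e') v ≠ 0)
    {e₁ e₂ e₃ q₁ q₂ q₃ : Pt} (he1 : e₁ ∈ E) (he2 : e₂ ∈ E) (he3 : e₃ ∈ E) (hq1 : q₁ ∈ J)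
    (hq2 : q₂ ∈ J) (hq3 : q₃ ∈ J) (h12 : (e₁, q₁) ≠ (e₂, q₂)) (h13 : (e₁, q₁) ≠ (e₃, q₃))
    (h23 : (e₂, q₂) ≠ (e₃, q₃)) (hc : ¬ (e₁ = e₂ ∧ e₂ = e₃)) (hr : ¬ (q₁ = q₂ ∧ q₂ = q₃)) :
    X3 v e₁ e₂ e₃ q₁ q₂ q₃ ≠ 0 := by
  have hE : ∀ e ∈ E, ∀ e' ∈ E, e ≠ e' → dt e v - dt e' v ≠ 0 := by
    intro e he e' he' hne
    rw [← dt_sub_left]
    exact hEv e he e' he' hne
  have hJ : ∀ q ∈ J, ∀ q' ∈ J, q ≠ q' → dt q v - dt q' v ≠ 0 := by
    intro q hq q' hq' hne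
    rw [← dt_sub_left]
    exact h.hq q hq q' hq' hne
  by_cases c12 : e₁ = e₂
  · subst c12
    have g1 : q₁ ≠ q₂ := fun hh => h12 (by rw [hh])
    have g2 : e₃ ≠ e₁ := fun hh => hc ⟨rfl, hh.symm⟩
    have : X3 v e₁ e₁ e₃ q₁ q₂ q₃ = (dt q₁ v - dt q₂ v) * (dt e₃ v - dt e₁ v) := by
      unfold X3; ring
    rw [this]
    exact mul_ne_zero (hJ _ hq1 _ hq2 g1) (hE _ he3 _ he1 g2)
  by_cases c13 : e₁ = e₃
  · subst c13
    have g1 : q₁ ≠ q₃ := fun hh => h13 (by rw [hh])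
    have : X3 v e₁ e₂ e₁ q₁ q₂ q₃ = (dt q₁ v - dt q₃ v) * (dt e₁ v - dt e₂ v) := by
      unfold X3; ring
    rw [this]
    exact mul_ne_zero (hJ _ hq1 _ hq3 g1) (hE _ he1 _ he2 c12)
  by_cases c23 : e₂ = e₃
  · subst c23
    have g1 : q₂ ≠ q₃ := fun hh => h23 (by rw [hh])
    have : X3 v e₁ e₂ e₂ q₁ q₂ q₃ = (dt q₂ v - dt q₃ v) * (dt e₁ v - dt e₂ v) := by
      unfold X3; ring
    rw [this]
    exact mul_ne_zero (hJ _ hq2 _ hq3 g1) (hE _ he1 _ he2 c12)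
  by_cases d12 : q₁ = q₂
  · subst d12
    have g1 : q₁ ≠ q₃ := fun hh => hr ⟨rfl, hh⟩
    have : X3 v e₁ e₂ e₃ q₁ q₁ q₃ = (dt q₁ v - dt q₃ v) * (dt e₁ v - dt e₂ v) := by
      unfold X3; ring
    rw [this]
    exact mul_ne_zero (hJ _ hq1 _ hq3 g1) (hE _ he1 _ he2 c12)
  by_cases d13 : q₁ = q₃
  · subst d13
    have : X3 v e₁ e₂ e₃ q₁ q₂ q₁ = (dt q₁ v - dt q₂ v) * (dt e₃ v - dt e₁ v) := by
      unfold X3; ring
    rw [this]
    exact mul_ne_zero (hJ _ hq1 _ hq2 d12) (hE _ he3 _ he1 (Ne.symm c13))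
  by_cases d23 : q₂ = q₃
  · subst d23
    have : X3 v e₁ e₂ e₃ q₁ q₂ q₂ = (dt q₁ v - dt q₂ v) * (dt e₃ v - dt e₂ v) := by
      unfold X3; ring
    rw [this]
    exact mul_ne_zero (hJ _ hq1 _ hq2 d12) (hE _ he3 _ he2 (Ne.symm c23))
  exact h.hX e₁ he1 e₂ he2 e₃ he3 c12 c13 c23 q₁ hq1 q₂ hq2 q₃ hq3 d12 d13 d23

theorem ev_conc {v e₁ e₂ e₃ q₁ q₂ q₃ : Pt} (h : X3 v e₁ e₂ e₃ q₁ q₂ q₃ ≠ 0) :
    ∀ᶠ τ : ℝ in atTop, ¬ ∃ x : Pt, cr (e₁ - τ • v) (q₁ + τ • v) x = 0 ∧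
      cr (e₂ - τ • v) (q₂ + τ • v) x = 0 ∧ cr (e₃ - τ • v) (q₃ + τ • v) x = 0 := by
  have hval : ∀ τ : ℝ, G3 (e₁ - τ • v) (q₁ + τ • v) (e₂ - τ • v) (q₂ + τ • v)
      (e₃ - τ • v) (q₃ + τ • v) = G3 e₁ q₁ e₂ q₂ e₃ q₃ +
      ((G3 (e₁ - v) (q₁ + v) (e₂ - v) (q₂ + v) (e₃ - v) (q₃ + v) -
        G3 (e₁ + v) (q₁ - v) (e₂ + v) (q₂ - v) (e₃ + v) (q₃ - v)) / 2) * τ +
      (4 * X3 v e₁ e₂ e₃ q₁ q₂ q₃) * τ ^ 2 := by
    intro τ
    unfold G3 X3 dt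
    simp only [Prod.fst_add, Prod.snd_add, Prod.fst_sub,
      Prod.snd_sub, Prod.smul_fst, Prod.smul_snd, smul_eq_mul]
    ring
  filter_upwards [ev_quad (G3 e₁ q₁ e₂ q₂ e₃ q₃)
    ((G3 (e₁ - v) (q₁ + v) (e₂ - v) (q₂ + v) (e₃ - v) (q₃ + v) -
        G3 (e₁ + v) (q₁ - v) (e₂ + v) (q₂ - v) (e₃ + v) (q₃ - v)) / 2)
    (4 * X3 v e₁ e₂ e₃ q₁ q₂ q₃) (Or.inr (Or.inr (mul_ne_zero four_ne_zero h)))] with τ hτ
  rintro ⟨x, h1, h2, h3⟩
  rw [← hval] at hτ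
  exact hτ (G3_zero h1 h2 h3)

/-- **From the reserve to the b-phase.** -/
theorem tau {s : ℕ} {v : Pt} {E J : Finset Pt} {A : Pt → Finset Pt} {M P : Finset Pt}
    (h : Reserve s v E J A M) (hMP : M ⊆ P) (hg : GenPos P) (hv : v ≠ 0)
    (hEv : ∀ e ∈ E, ∀ e' ∈ E, e ≠ e' → dt (e - e') v ≠ 0)
    (hprot : ∀ e ∈ E, e ∈ P ∧ ∃ f ∈ P, f ≠ e ∧ dt (f - e) v = 0)
    (hcard : (2 * s * E.card + 1) * (1 + 2 * s * (s + 1)) ≤ J.card) : MW 5 s M P := by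
  have T0 : ∀ᶠ τ : ℝ in atTop, (0 : ℝ) < τ := eventually_gt_atTop 0
  -- columns
  have T1 : ∀ᶠ τ : ℝ in atTop, ∀ e ∈ E, ∃ e' ∈ P, ∃ f ∈ P, e' ≠ f ∧ e' ≠ e - τ • v ∧
      f ≠ e - τ • v ∧ cr e' f (e - τ • v) = 0 := by
    rw [Filter.eventually_all_finset]
    intro e he
    obtain ⟨heP, f, hfP, hfe, hf0⟩ := hprot e he
    have hsq := sq_pos hv
    have h1 : ∀ᶠ τ : ℝ in atTop, ((f - e).1 * v.1 + (f - e).2 * v.2) +
        (v.1 * v.1 + v.2 * v.2) * τ ≠ 0 := ev_lin _ _ (Or.inr hsq.ne')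
    filter_upwards [T0, h1] with τ hτ h1
    refine ⟨e, heP, f, hfP, hfe.symm, ?_, ?_, ?_⟩
    · intro h2
      have h3 : τ • v = 0 := by
        have : e - (e - τ • v) = 0 := by rw [← h2, sub_self]
        simpa using this
      rcases smul_eq_zero.1 h3 with h4 | h4
      · exact hτ.ne' h4
      · exact hv h4
    · intro h2
      apply h1
      rw [h2]
      simp only [Prod.fst_sub, Prod.snd_sub, Prod.smul_fst, Prod.smul_snd, smul_eq_mul]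
      ring
    · have : cr e f (e - τ • v) = - τ * dt (f - e) v := by
        unfold cr dt
        simp only [Prod.fst_sub, Prod.snd_sub, Prod.smul_fst, Prod.smul_snd, smul_eq_mul]
        ring
      rw [this, hf0, mul_zero]
  -- lines through the virtual right points
  have T2 : ∀ᶠ τ : ℝ in atTop, ∀ j ∈ J, ∀ i ∈ E, ∀ i' ∈ E, i ≠ i' →
      cr (j + τ • v) (i - τ • v) (i' - τ • v) ≠ 0 := by
    rw [Filter.eventually_all_finset]
    intro j _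
    rw [Filter.eventually_all_finset]
    intro i hi
    rw [Filter.eventually_all_finset]
    intro i' hi'
    by_cases hii : i = i'
    · exact Eventually.of_forall fun q h => absurd hii h
    filter_upwards [ev_lin (dt (i - j) (i' - j)) (-2 * dt (i - i') v)
      (Or.inr (mul_ne_zero (by norm_num) (hEv i hi i' hi' hii)))] with τ hτ _ h0
    apply hτ
    rw [← h0]
    unfold cr dt
    simp only [Prod.fst_add, Prod.snd_add, Prod.fst_sub, Prod.snd_sub, Prod.smul_fst,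
      Prod.smul_snd, smul_eq_mul]
    ring
  -- lines through the virtual left points
  have T3 : ∀ᶠ τ : ℝ in atTop, ∀ i ∈ E, ∀ j ∈ J, ∀ j' ∈ J, j ≠ j' →
      cr (i - τ • v) (j + τ • v) (j' + τ • v) ≠ 0 := by
    rw [Filter.eventually_all_finset]
    intro i _
    rw [Filter.eventually_all_finset]
    intro j hj
    rw [Filter.eventually_all_finset]
    intro j' hj'
    by_cases hjj : j = j'
    · exact Eventually.of_forall fun q h => absurd hjj h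
    filter_upwards [ev_lin (dt (j - i) (j' - i)) (2 * dt (j - j') v)
      (Or.inr (mul_ne_zero (by norm_num) (h.hq j hj j' hj' hjj)))] with τ hτ _ h0
    apply hτ
    rw [← h0]
    unfold cr dt
    simp only [Prod.fst_add, Prod.snd_add, Prod.fst_sub, Prod.snd_sub, Prod.smul_fst,
      Prod.smul_snd, smul_eq_mul]
    ring
  -- all lines are alive
  have T4 : ∀ᶠ τ : ℝ in atTop, ∀ j ∈ J, ∀ i ∈ A j, ∀ x ∈ P, x ≠ mid j i →
      cr (i - τ • v) (j + τ • v) x ≠ 0 := by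
    rw [Filter.eventually_all_finset]
    intro j hj
    rw [Filter.eventually_all_finset]
    intro i hi
    rw [Filter.eventually_all_finset]
    intro x _
    by_cases hx : x = mid j i
    · exact Eventually.of_forall fun q h => absurd hx h
    have hor : dt (j - i) (x - mid j i) ≠ 0 ∨ 2 * dt v (x - mid j i) ≠ 0 := by
      by_contra hcon
      push Not at hcon
      obtain ⟨h1, h2⟩ := hcon
      have h3 : dt (x - mid j i) v = 0 := by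
        rw [dt_swap]; linarith
      obtain ⟨c, hc⟩ := par hv h3
      have hc0 : c ≠ 0 := by
        rintro rfl
        rw [zero_smul] at hc
        exact hx (sub_eq_zero.1 hc)
      have h4 := h.side j hj i ((h.hA j hj).1 hi)
      rw [hc] at h1
      have h5 : dt (j - i) (c • v) = c * dt (j - i) v := by
        unfold dt; simp only [Prod.smul_fst, Prod.smul_snd, smul_eq_mul]; ring
      rw [h5] at h1
      rcases mul_eq_zero.1 h1 with h6 | h6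
      · exact hc0 h6
      · exact h4.ne' h6
    filter_upwards [ev_lin (dt (j - i) (x - mid j i)) (2 * dt v (x - mid j i)) hor] with τ hτ _ h0
    apply hτ
    rw [← h0]
    unfold cr dt
    simp only [Prod.fst_add, Prod.snd_add, Prod.fst_sub, Prod.snd_sub, Prod.smul_fst,
      Prod.smul_snd, smul_eq_mul, mid_fst, mid_snd]
    ring
  -- no three lines are concurrent
  have T5 : ∀ᶠ τ : ℝ in atTop, ∀ i₁ ∈ E, ∀ i₂ ∈ E, ∀ i₃ ∈ E, ∀ j₁ ∈ J, ∀ j₂ ∈ J, ∀ j₃ ∈ J,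
      (i₁, j₁) ≠ (i₂, j₂) → (i₁, j₁) ≠ (i₃, j₃) → (i₂, j₂) ≠ (i₃, j₃) →
      ¬ (i₁ = i₂ ∧ i₂ = i₃) → ¬ (j₁ = j₂ ∧ j₂ = j₃) →
      ¬ ∃ x : Pt, cr (i₁ - τ • v) (j₁ + τ • v) x = 0 ∧
      cr (i₂ - τ • v) (j₂ + τ • v) x = 0 ∧ cr (i₃ - τ • v) (j₃ + τ • v) x = 0 := by
    rw [Filter.eventually_all_finset]
    intro i₁ hi1
    rw [Filter.eventually_all_finset]
    intro i₂ hi2
    rw [Filter.eventually_all_finset]
    intro i₃ hi3
    rw [Filter.eventually_all_finset]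
    intro j₁ hj1
    rw [Filter.eventually_all_finset]
    intro j₂ hj2
    rw [Filter.eventually_all_finset]
    intro j₃ hj3
    by_cases hc : (i₁, j₁) ≠ (i₂, j₂) ∧ (i₁, j₁) ≠ (i₃, j₃) ∧ (i₂, j₂) ≠ (i₃, j₃) ∧
      ¬ (i₁ = i₂ ∧ i₂ = i₃) ∧ ¬ (j₁ = j₂ ∧ j₂ = j₃)
    · obtain ⟨c1, c2, c3, c4, c5⟩ := hc
      filter_upwards [ev_conc (X3_ne h hEv hi1 hi2 hi3 hj1 hj2 hj3 c1 c2 c3 c4 c5)]
        with τ hτ _ _ _ _ _
      exact hτ
    · exact Eventually.of_forall fun q h1 h2 h3 h4 h5 => absurd ⟨h1, h2, h3, h4, h5⟩ hc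
  obtain ⟨τ, t1, t2, t3, t4, t5⟩ := (T1.and (T2.and (T3.and (T4.and T5)))).exists
  have host : Host s v E J (fun e : Pt => e - τ • v) (fun q : Pt => q + τ • v) A
      (fun eq : Pt × Pt => mid eq.2 eq.1) M P := by
    refine ⟨?_, ?_, ?_, ?_, t1, ?_, ?_, ?_⟩
    · intro j hj
      exact ⟨(h.hA j hj).1, (h.hA j hj).2.1⟩
    · intro i hi j hj
      have : dt (j + τ • v - (i - τ • v)) v = dt (j - i) v := by
        unfold dt
        simp only [Prod.fst_add, Prod.snd_add, Prod.fst_sub, Prod.snd_sub, Prod.smul_fst,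
          Prod.smul_snd, smul_eq_mul]
        ring
      rw [this]
      exact h.side j hj i hi
    · intro j hj i hi
      refine ⟨(h.hA j hj).2.2 i hi, 1 / 2, by norm_num, by norm_num, ?_⟩
      apply Prod.ext
      · simp only [Prod.fst_add, Prod.fst_sub, Prod.smul_fst, smul_eq_mul, mid_fst]
        ring
      · simp only [Prod.snd_add, Prod.snd_sub, Prod.smul_snd, smul_eq_mul, mid_snd]
        ring
    · intro j hj i hi j' hj' i' hi' heq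
      exact h.inj j hj i hi j' hj' i' hi' heq
    · intro j hj i hi i' hi' hne
      exact t2 j hj i hi i' hi' hne
    · intro i hi j hj j' hj' hne
      exact t3 i hi j hj j' hj' hne
    · intro i₁ i₂ i₃ j₁ hj1 j₂ hj2 j₃ hj3 hi1 hi2 hi3 c1 c2 c3 c4 c5
      exact t5 i₁ ((h.hA j₁ hj1).1 hi1) i₂ ((h.hA j₂ hj2).1 hi2) i₃ ((h.hA j₃ hj3).1 hi3)
        j₁ hj1 j₂ hj2 j₃ hj3 c1 c2 c3 c4 c5
  exact bphase host hMP hg t4 hcard

end Pool.Agent.T2H87.K5
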